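import Mathlib
import Pool.Agent.Lib_helper10.LogRank.Defs

set_option autoImplicit false

/-! The log-rank conjecture, and the same for the functions `f(xy)` on the powers of a monoid. -/

namespace Pool.Agent.H20.Mon

open Pool.Agent.Lib_helper10.LogRank

/-- The log-rank conjecture (Q1). -/
def LogRank : Prop :=
  ∃ C c : ℝ, 0 < C ∧ 0 < c ∧ ∀ (n : ℕ) (F : (Fin n → ZMod 2) → (Fin n → ZMod 2) → Bool),
    (∃ x y, F x y = true) →
    ∃ π : Protocol (Fin n → ZMod 2) (Fin n → ZMod 2), (∀ x y, π.eval x y = F x y) ∧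
      (π.cost : ℝ) ≤ C * (1 + Real.logb 2 (realRank F)) ^ c

/-- The log-rank conjecture for the functions `f(xy)`, `f : M ^ n → {0,1}`, `n` arbitrary:
Alice holds `x`, Bob holds `y` in `M ^ n`. -/
def LogRankFor (M : Type) [Monoid M] [Fintype M] : Prop :=
  ∃ C c : ℝ, 0 < C ∧ 0 < c ∧ ∀ (n : ℕ) (f : (Fin n → M) → Bool), (∃ z, f z = true) →
    ∃ π : Protocol (Fin n → M) (Fin n → M), (∀ x y, π.eval x y = f (x * y)) ∧
      (π.cost : ℝ) ≤ C * (1 + Real.logb 2 (realRank fun x y : Fin n → M => f (x * y))) ^ c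

end Pool.Agent.H20.Mon
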