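import Mathlib
import Pool.Agent.Lib_helper10.LogRank.Defs

set_option autoImplicit false

/-! The log-rank conjecture for the functions `h (x • s)`; commutative images of an action. -/

namespace Pool.Agent.H20.Mon

open Pool.Agent.Lib_helper10.LogRank

/-- The log-rank conjecture for the functions `h (x • s)`, `h : S ^ n → {0,1}`, `n` arbitrary:
Alice holds `x` in `M ^ n`, Bob holds `s` in `S ^ n`. -/
def LogRankAct (M S : Type) [Monoid M] [Fintype M] [Fintype S] [MulAction M S] : Prop :=
  ∃ C c : ℝ, 0 < C ∧ 0 < c ∧ ∀ (n : ℕ) (h : (Fin n → S) → Bool), (∃ z, h z = true) →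
    ∃ π : Protocol (Fin n → M) (Fin n → S), (∀ x s, π.eval x s = h (fun i => x i • s i)) ∧
      (π.cost : ℝ) ≤ C * (1 + Real.logb 2
        (realRank fun (x : Fin n → M) (s : Fin n → S) => h (fun i => x i • s i))) ^ c

/-- `f : S → T` is a commutative image of the action of `M` on `S`: `f` is onto and compatible with
the actions, and `M` acts on `T` by commuting maps. -/
structure CommImage (M : Type) {S T : Type} [Monoid M] [MulAction M S] [MulAction M T]
    (f : S → T) : Prop where
  onto : Function.Surjective f
  map : ∀ (x : M) (s : S), f (x • s) = x • f s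
  comm : ∀ (x y : M) (t : T), x • y • t = y • x • t

end Pool.Agent.H20.Mon
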