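import Mathlib

set_option autoImplicit false
set_option linter.unusedSectionVars false

/-! Lifted idempotents belonging to the one-dimensional modules of a finite dimensional algebra. -/

namespace Pool.Agent.H20.Mon

variable {R : Type} [Ring R] [Algebra ℂ R]

section ss

variable {S : Type} [Ring S] [IsSemisimpleRing S] (χ : S →+* ℂ) (s : ℂ →+* S)
  (hs : ∀ c x, s c * x = x * s c) (hχs : ∀ c, χ (s c) = c)

include hs hχs in
/-- the central idempotent of a character of a semisimple ring -/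
theorem exists_central : ∃ e : S, χ e = 1 ∧ ∀ x, x * e = s (χ x) * e ∧ e * x = s (χ x) * e := by
  obtain ⟨L, hL⟩ := exists_isCompl (RingHom.ker χ : Submodule S S)
  have h1 : (1 : S) ∈ (RingHom.ker χ : Submodule S S) ⊔ L := by rw [hL.sup_eq_top]; trivial
  obtain ⟨i, hi, e, he, hie⟩ := Submodule.mem_sup.1 h1
  have hi' : χ i = 0 := hi
  have hχe : χ e = 1 := by
    have := congrArg χ hie
    rw [map_add, map_one, hi', zero_add] at this
    exact this
  have hdis : ∀ x : S, χ x = 0 → x ∈ L → x = 0 := by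
    intro x h2 h3
    have h4 : x ∈ (RingHom.ker χ : Submodule S S) ⊓ L := ⟨h2, h3⟩
    rw [hL.inf_eq_bot] at h4
    exact h4
  have hx : ∀ x, x * e = s (χ x) * e := by
    intro x
    have h2 : (x - s (χ x)) * e = 0 := by
      refine hdis _ ?_ (L.smul_mem _ he)
      rw [map_mul, map_sub, hχs, sub_self, zero_mul]
    rw [sub_mul, sub_eq_zero] at h2
    exact h2
  refine ⟨e, hχe, fun x => ⟨hx x, ?_⟩⟩
  set y := e * x - s (χ x) * e with hy
  have hχy : χ y = 0 := by
    rw [hy, map_sub, map_mul, map_mul, hχs, hχe]; ring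
  have hzy : ∀ z, z * y = s (χ z) * y := by
    intro z
    have e1 : z * y = (z * e) * x - s (χ x) * (z * e) := by
      rw [hy, mul_sub, ← mul_assoc z (s (χ x)) e, ← hs (χ x) z, mul_assoc, mul_assoc]
    rw [e1, hx z, hy, mul_sub, mul_assoc]
    congr 1
    rw [← mul_assoc, hs (χ x) (s (χ z)), mul_assoc]
  obtain ⟨L', hL'⟩ := exists_isCompl (Submodule.span S {y} : Submodule S S)
  have h2 : (1 : S) ∈ (Submodule.span S {y} : Submodule S S) ⊔ L' := by
    rw [hL'.sup_eq_top]; trivial
  obtain ⟨a, ha, b, hb, hab⟩ := Submodule.mem_sup.1 h2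
  obtain ⟨z, hz⟩ := Submodule.mem_span_singleton.1 ha
  have hya : y * a = 0 := by
    rw [← hz, smul_eq_mul, hzy z, ← mul_assoc, ← hs, mul_assoc, hzy y, hχy, map_zero, zero_mul,
      mul_zero]
  have hyb : y * b = y := by
    have : y * (a + b) = y := by rw [hab, mul_one]
    rw [mul_add, hya, zero_add] at this
    exact this
  have h3 : y ∈ (Submodule.span S {y} : Submodule S S) ⊓ L' := by
    refine ⟨Submodule.mem_span_singleton_self y, ?_⟩
    rw [← hyb]
    exact L'.smul_mem y hb
  rw [hL'.inf_eq_bot] at h3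
  have h4 : y = 0 := h3
  rw [hy, sub_eq_zero] at h4
  exact h4

end ss

variable [Module.Finite ℂ R]

instance artinian : IsArtinianRing R := IsArtinianRing.of_finite ℂ R

theorem jac_nilp : ∃ k : ℕ, (Ring.jacobson R) ^ k = ⊥ :=
  (IsSemiprimaryRing.isNilpotent (R := R))

theorem char_jac (χ : R →ₐ[ℂ] ℂ) {a : R} (ha : a ∈ Ring.jacobson R) : χ a = 0 := by
  obtain ⟨k, hk⟩ := jac_nilp (R := R)
  have h1 : a ^ k ∈ (Ring.jacobson R) ^ k := Ideal.pow_mem_pow ha k
  rw [hk] at h1
  have h2 : a ^ k = 0 := h1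
  have h3 : (χ a) ^ k = 0 := by rw [← map_pow, h2, map_zero]
  exact IsReduced.eq_zero _ ⟨k, h3⟩

/-- a complete system of idempotents: one for each character, and the rest -/
structure Idem {X : Type} [Fintype X] (ψ : X → (R →ₐ[ℂ] ℂ)) (ε : Option X → R) : Prop where
  coi : CompleteOrthogonalIdempotents ε
  val : ∀ x, ψ x (ε (some x)) = 1
  val0 : ∀ x p, p ≠ some x → ψ x (ε p) = 0
  rest : ∀ a, ε none * a - a * ε none ∈ Ring.jacobson R
  cen : ∀ x a, ε (some x) * a - ψ x a • ε (some x) ∈ Ring.jacobson R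

theorem exists_idem {X : Type} [Fintype X] (ψ : X → (R →ₐ[ℂ] ℂ)) (hψ : Function.Injective ψ) :
    ∃ ε : Option X → R, Idem ψ ε := by
  classical
  set S := R ⧸ Ring.jacobson R with hS
  let mk : R →+* S := Ideal.Quotient.mk (Ring.jacobson R)
  have hmk : Function.Surjective mk := Ideal.Quotient.mk_surjective
  have hmk0 : ∀ a, mk a = 0 ↔ a ∈ Ring.jacobson R := fun a => Ideal.Quotient.eq_zero_iff_mem
  let s : ℂ →+* S := mk.comp (algebraMap ℂ R)
  have hs : ∀ c x, s c * x = x * s c := by
    intro c x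
    obtain ⟨a, rfl⟩ := hmk x
    change mk _ * mk _ = mk _ * mk _
    rw [← map_mul, ← map_mul, Algebra.commutes]
  let χ : X → (S →+* ℂ) := fun x => Ideal.Quotient.lift (Ring.jacobson R) (ψ x).toRingHom
    (fun a ha => char_jac (ψ x) ha)
  have hχ : ∀ x a, χ x (mk a) = ψ x a := fun x a => rfl
  have hχs : ∀ x c, χ x (s c) = c := by
    intro x c
    change χ x (mk _) = c
    rw [hχ, AlgHom.commutes]
    rfl
  choose e he1 he2 using fun x => exists_central (χ x) s hs (hχs x)
  have hsmul : ∀ c a, s c * mk a = mk (c • a) := by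
    intro c a
    rw [Algebra.smul_def, map_mul]; rfl
  have horth : ∀ x y, x ≠ y → e x * e y = 0 := by
    intro x y hxy
    have h1 : ∀ a, ψ x a * χ x (e y) = ψ y a * χ x (e y) := by
      intro a
      have := congrArg (χ x) ((he2 y (mk a)).1)
      rw [map_mul, map_mul, hχs, hχ, hχ] at this
      exact this
    have h2 : χ x (e y) = 0 := by
      by_contra h
      apply hxy
      apply hψ
      ext a
      exact mul_right_cancel₀ h (h1 a)
    rw [(he2 x (e y)).2, h2, map_zero, zero_mul]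
  have hidem : ∀ x, e x * e x = e x := by
    intro x
    rw [(he2 x (e x)).1, he1, map_one, one_mul]
  have ho : OrthogonalIdempotents e := by
    refine ⟨fun x => hidem x, fun x y hxy => horth x y hxy⟩
  have hc := CompleteOrthogonalIdempotents.option ho
  obtain ⟨k, hk⟩ := jac_nilp (R := R)
  obtain ⟨ε, hε1, hε2⟩ := CompleteOrthogonalIdempotents.lift_of_isNilpotent_ker mk
    (fun a ha => by
      refine ⟨k, ?_⟩
      have h1 : a ^ k ∈ (Ring.jacobson R) ^ k := Ideal.pow_mem_pow ((hmk0 a).1 ha) k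
      rw [hk] at h1
      exact h1) hc (fun p => hmk _)
  have hεs : ∀ x, mk (ε (some x)) = e x := fun x => congrFun hε2 (some x)
  have hεn : mk (ε none) = 1 - ∑ x, e x := congrFun hε2 none
  have hv : ∀ x, ψ x (ε (some x)) = 1 := by
    intro x
    rw [← hχ, hεs, he1]
  refine ⟨ε, hε1, hv, ?_, ?_, ?_⟩
  · intro x p hp
    have h1 : ψ x (ε p * ε (some x)) = 0 := by rw [hε1.ortho hp, map_zero]
    rw [map_mul, hv, mul_one] at h1
    exact h1
  · intro a
    rw [← hmk0, map_sub, map_mul, map_mul, hεn, sub_mul, mul_sub, one_mul, mul_one,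
      Finset.sum_mul, Finset.mul_sum]
    have : ∑ x, e x * mk a = ∑ x, mk a * e x :=
      Finset.sum_congr rfl fun x _ => by rw [(he2 x (mk a)).1, (he2 x (mk a)).2]
    rw [this, sub_self]
  · intro x a
    rw [← hmk0, map_sub, map_mul, ← hsmul, hεs, (he2 x (mk a)).2, hχ, sub_self]

end Pool.Agent.H20.Mon
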