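import Mathlib
import Pool.Agent.Lib_helper20.Mon.Idem

set_option autoImplicit false
set_option linter.unusedSectionVars false

/-! No self-extensions: the radical of a corner consists of products through other corners. -/

namespace Pool.Agent.H20.Mon

variable {R : Type} [Ring R] [Algebra ℂ R] [Module.Finite ℂ R]

/-- elements passing through the complementary corner -/
def thr (e : R) : Submodule ℂ R := Submodule.span ℂ {t | ∃ a b, t = e * a * (1 - e) * b * e}

theorem corner_rad {X : Type} [Fintype X] {ψ : X → (R →ₐ[ℂ] ℂ)} {ε : Option X → R}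
    (h : Idem ψ ε) (x : X)
    (hd : ∀ d : R →ₗ[ℂ] ℂ, (∀ a b, d (a * b) = ψ x a * d b + d a * ψ x b) → d = 0)
    {y : R} (hy1 : ε (some x) * y * ε (some x) = y) (hy2 : ψ x y = 0) : y ∈ thr (ε (some x)) := by
  set e := ε (some x) with he
  set χ := ψ x with hχ
  have hee : e * e = e := h.coi.idem (some x)
  have hχe : χ e = 1 := h.val x
  have hel : ∀ y, e * y * e = y → e * y = y := by
    intro y hy
    calc e * y = e * (e * y * e) := by rw [hy]
      _ = e * e * y * e := by simp only [mul_assoc]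
      _ = e * y * e := by rw [hee]
      _ = y := hy
  have her : ∀ y, e * y * e = y → y * e = y := by
    intro y hy
    calc y * e = (e * y * e) * e := by rw [hy]
      _ = e * y * (e * e) := by simp only [mul_assoc]
      _ = e * y * e := by rw [hee]
      _ = y := hy
  let 𝒥 : Submodule ℂ R :=
    { carrier := {y | e * y * e = y ∧ χ y = 0}
      add_mem' := by
        rintro a b ⟨ha1, ha2⟩ ⟨hb1, hb2⟩
        refine ⟨?_, ?_⟩
        · rw [mul_add, add_mul, ha1, hb1]
        · rw [map_add, ha2, hb2, add_zero]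
      zero_mem' := by simp
      smul_mem' := by
        rintro c a ⟨ha1, ha2⟩
        refine ⟨?_, ?_⟩
        · rw [mul_smul_comm, smul_mul_assoc, ha1]
        · rw [map_smul, ha2, smul_zero] }
  have hmem : ∀ y, y ∈ 𝒥 ↔ (e * y * e = y ∧ χ y = 0) := fun y => Iff.rfl
  -- products
  have h1 : thr e ≤ 𝒥 := by
    refine Submodule.span_le.2 ?_
    rintro _ ⟨a, b, rfl⟩
    refine ⟨?_, ?_⟩
    · calc e * (e * a * (1 - e) * b * e) * e = (e * e) * a * (1 - e) * b * (e * e) := by
            simp only [mul_assoc]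
        _ = _ := by rw [hee]
    · rw [map_mul, map_mul, map_mul, map_mul, map_sub, map_one, hχe]; ring
  have h2 : 𝒥 * thr e ≤ thr e := by
    rw [Submodule.mul_le]
    intro y hy t ht
    unfold thr at ht ⊢
    induction ht using Submodule.span_induction with
    | mem t ht =>
      obtain ⟨a, b, rfl⟩ := ht
      refine Submodule.subset_span ⟨y * e * a, b, ?_⟩
      have := hel y hy.1
      calc y * (e * a * (1 - e) * b * e) = (e * y) * (e * a * (1 - e) * b * e) := by rw [this]
        _ = _ := by simp only [mul_assoc]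
    | zero => rw [mul_zero]; exact Submodule.zero_mem _
    | add s t _ _ hs ht => rw [mul_add]; exact Submodule.add_mem _ hs ht
    | smul c s _ hs => rw [mul_smul_comm]; exact Submodule.smul_mem _ _ hs
  have h3 : 𝒥 * 𝒥 ≤ 𝒥 := by
    rw [Submodule.mul_le]
    rintro y hy z hz
    refine ⟨?_, ?_⟩
    · calc e * (y * z) * e = (e * y) * (z * e) := by simp only [mul_assoc]
        _ = y * z := by rw [hel y hy.1, her z hz.1]
    · rw [map_mul, hy.2, zero_mul]
  -- the key step
  have h4 : 𝒥 ≤ thr e ⊔ 𝒥 * 𝒥 := by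
    intro y hy
    by_contra hcon
    have hN : y ∉ (thr e ⊔ 𝒥 * 𝒥) ⊔ Submodule.span ℂ {e} := by
      intro hy'
      obtain ⟨n, hn, c, hc, hnc⟩ := Submodule.mem_sup.1 hy'
      obtain ⟨c, rfl⟩ := Submodule.mem_span_singleton.1 hc
      have hn2 : n ∈ 𝒥 := (sup_le h1 h3) hn
      have h5 := congrArg χ hnc
      rw [map_add, hn2.2, hy.2, zero_add, map_smul, hχe, smul_eq_mul, mul_one] at h5
      rw [h5, zero_smul, add_zero] at hnc
      rw [← hnc] at hcon
      exact hcon hn
    obtain ⟨d₀, hd1, hd2⟩ := Submodule.exists_le_ker_of_notMem hN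
    have hd3 : ∀ n ∈ thr e, d₀ n = 0 := fun n hn =>
      hd2 ((le_sup_left.trans le_sup_left : thr e ≤ (thr e ⊔ 𝒥 * 𝒥) ⊔ Submodule.span ℂ {e}) hn)
    have hd4 : ∀ n ∈ 𝒥 * 𝒥, d₀ n = 0 := fun n hn =>
      hd2 ((le_sup_right.trans le_sup_left : 𝒥 * 𝒥 ≤ (thr e ⊔ 𝒥 * 𝒥) ⊔ Submodule.span ℂ {e}) hn)
    have hd5 : d₀ e = 0 := hd2 ((le_sup_right : Submodule.span ℂ {e} ≤
      (thr e ⊔ 𝒥 * 𝒥) ⊔ Submodule.span ℂ {e}) (Submodule.mem_span_singleton_self e))
    let d : R →ₗ[ℂ] ℂ := d₀ ∘ₗ (LinearMap.mulRight ℂ e) ∘ₗ (LinearMap.mulLeft ℂ e)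
    have hdd : ∀ a, d a = d₀ (e * a * e) := fun a => rfl
    have hsplit : ∀ a, ∃ n ∈ 𝒥, e * a * e = χ a • e + n := by
      intro a
      refine ⟨e * a * e - χ a • e, ⟨?_, ?_⟩, by abel⟩
      · calc e * (e * a * e - χ a • e) * e = (e * e) * a * (e * e) - χ a • ((e * e) * e) := by
              simp only [mul_sub, sub_mul, mul_smul_comm, smul_mul_assoc, mul_assoc]
          _ = _ := by rw [hee, hee]
      · rw [map_sub, map_mul, map_mul, map_smul, hχe, smul_eq_mul]; ring
    have hder := hd d (by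
      intro a b
      obtain ⟨n, hn, hna⟩ := hsplit a
      obtain ⟨m, hm, hmb⟩ := hsplit b
      have e1 : e * (a * b) * e = (e * a * e) * (e * b * e) + e * a * (1 - e) * b * e := by
        have : (e * a * e) * (e * b * e) = e * a * (e * e) * b * e := by simp only [mul_assoc]
        rw [this, hee]
        simp only [mul_sub, sub_mul, mul_one, mul_assoc]
        abel
      have hem : e * m = m := hel m hm.1
      have hne : n * e = n := her n hn.1
      have e2 : (e * a * e) * (e * b * e) = (χ a * χ b) • e + χ a • m + χ b • n + n * m := by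
        rw [hna, hmb]
        simp only [mul_add, add_mul, mul_smul_comm, smul_mul_assoc, hee, hem, hne, smul_smul,
          smul_add]
        rw [mul_comm (χ b) (χ a)]
        abel
      rw [hdd, hdd, hdd, e1, e2, hna, hmb]
      simp only [map_add, map_smul, hd5, smul_eq_mul]
      rw [hd4 _ (Submodule.mul_mem_mul hn hm), hd3 _ (Submodule.subset_span ⟨a, b, rfl⟩)]
      ring)
    have h6 : d y = 0 := by rw [hder]; rfl
    rw [hdd, hy.1] at h6
    exact hd1 h6
  -- iterate
  let P : ℕ → Submodule ℂ R := fun n => Nat.rec 𝒥 (fun _ p => 𝒥 * p) n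
  have hP0 : P 0 = 𝒥 := rfl
  have hPs : ∀ n, P (n + 1) = 𝒥 * P n := fun n => rfl
  have h7 : ∀ n, 𝒥 ≤ thr e ⊔ P n := by
    intro n
    induction n with
    | zero => exact le_sup_right
    | succ n ih =>
      refine h4.trans (sup_le le_sup_left ?_)
      calc 𝒥 * 𝒥 ≤ 𝒥 * (thr e ⊔ P n) := Submodule.mul_le.2 fun a ha b hb =>
              Submodule.mul_mem_mul ha (ih hb)
        _ = 𝒥 * thr e ⊔ 𝒥 * P n := Submodule.mul_sup _ _ _
        _ ≤ thr e ⊔ P (n + 1) := sup_le (h2.trans le_sup_left) le_sup_right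
  have hJ : ∀ y ∈ 𝒥, y ∈ Ring.jacobson R := by
    intro y hy
    have h8 := h.cen x y
    rw [← he, ← hχ, hy.2, zero_smul, sub_zero, hel y hy.1] at h8
    exact h8
  have h9 : ∀ n, ∀ y ∈ P n, y ∈ (Ring.jacobson R) ^ (n + 1) := by
    intro n
    induction n with
    | zero =>
      intro y hy
      rw [zero_add, Submodule.pow_one]
      exact hJ y hy
    | succ n ih =>
      intro y hy
      rw [hPs] at hy
      rw [Ideal.IsTwoSided.pow_succ]
      refine Submodule.mul_induction_on hy ?_ ?_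
      · intro a ha b hb
        exact Ideal.mul_mem_mul (hJ a ha) (ih b hb)
      · intro a b ha hb
        exact Ideal.add_mem _ ha hb
  obtain ⟨k, hk⟩ := jac_nilp (R := R)
  have h10 : y ∈ thr e ⊔ P k := h7 k ⟨hy1, hy2⟩
  obtain ⟨t, ht, p, hp, htp⟩ := Submodule.mem_sup.1 h10
  have h11 : p = 0 := by
    have := h9 k p hp
    rw [Ideal.IsTwoSided.pow_succ, hk, Ideal.mul_bot] at this
    exact this
  rw [h11, add_zero] at htp
  rw [← htp]
  exact ht

end Pool.Agent.H20.Mon
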