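import Mathlib
import Pool.Agent.Lib_helper20.Mon.Deriv

set_option autoImplicit false
set_option linter.unusedSectionVars false

/-! One coordinate: the corner without characters, and the decomposition of a letter. -/

namespace Pool.Agent.H20.Mon

variable {R : Type} [Ring R] [Algebra ℂ R] [Module.Finite ℂ R]

/-- the corner of the rest has no character -/
theorem no_char {X : Type} [Fintype X] {ψ : X → (R →ₐ[ℂ] ℂ)} {ε : Option X → R}
    (h : Idem ψ ε) (hX : ∀ χ : R →ₐ[ℂ] ℂ, ∃ x, ψ x = χ) (θ : R →ₗ[ℂ] ℂ) (h1 : θ 1 = 1)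
    (hm : ∀ a b, θ (a * ε none * b) = θ a * θ b) : False := by
  set e := ε none with he
  obtain ⟨k, hk⟩ := jac_nilp (R := R)
  have hr : ∀ a, θ (a * e) = θ a := by
    intro a
    have := hm a 1
    rwa [mul_one, h1, mul_one] at this
  have hl : ∀ a, θ (e * a) = θ a := by
    intro a
    have := hm 1 a
    rwa [one_mul, h1, one_mul] at this
  have hpow : ∀ (j : R) (n : ℕ), θ ((j * e) ^ (n + 1)) = θ j ^ (n + 1) := by
    intro j n
    induction n with
    | zero => rw [zero_add, pow_one, pow_one, hr]
    | succ n ih =>
      rw [pow_succ', mul_assoc j e]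
      have : θ (j * e * ((j * e) ^ (n + 1))) = θ j * θ ((j * e) ^ (n + 1)) := hm _ _
      rw [mul_assoc] at this
      rw [this, ih, pow_succ' (θ j) (n + 1)]
  have hJ : ∀ j ∈ Ring.jacobson R, θ j = 0 := by
    intro j hj
    have h2 : j * e ∈ Ring.jacobson R := Ideal.mul_mem_right e _ hj
    have h3 : (j * e) ^ k ∈ (Ring.jacobson R) ^ k := Ideal.pow_mem_pow h2 k
    rw [hk] at h3
    have h4 : (j * e) ^ k = 0 := h3
    have h5 : (j * e) ^ (k + 1) = 0 := by rw [pow_succ, h4, zero_mul]
    have h6 := hpow j k
    rw [h5, map_zero] at h6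
    exact IsReduced.eq_zero _ ⟨k + 1, h6.symm⟩
  have hmul : ∀ a b, θ (a * b) = θ a * θ b := by
    intro a b
    have h7 : e * a - a * e ∈ Ring.jacobson R := h.rest a
    have h8 : θ (a * b - a * e * b) = 0 := by
      have e2 : a * b - a * e * b = (a * b - e * (a * b)) + (e * a - a * e) * b := by
        rw [sub_mul, mul_assoc e a b]; abel
      rw [e2, map_add, map_sub, hl, sub_self, zero_add]
      exact hJ _ (Ideal.mul_mem_right b _ h7)
    have e3 : a * b = a * e * b + (a * b - a * e * b) := by abel
    rw [e3, map_add, h8, add_zero, hm]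
  let χ : R →ₐ[ℂ] ℂ := AlgHom.ofLinearMap θ h1 hmul
  obtain ⟨x, hx⟩ := hX χ
  have h9 : θ e = 0 := by
    have h10 := h.val0 x none (by simp)
    rw [hx] at h10
    exact h10
  have h11 := hl 1
  rw [mul_one, h1, h9] at h11
  exact zero_ne_one h11

/-- the two-sided ideal of an element -/
def mid (e : R) : Submodule ℂ R := Submodule.span ℂ {t | ∃ a b, t = a * e * b}

theorem mem_mid (a e b : R) : a * e * b ∈ mid e := Submodule.subset_span ⟨a, b, rfl⟩

open Classical in
theorem exists_dec {X : Type} [Fintype X] {ψ : X → (R →ₐ[ℂ] ℂ)} {ε : Option X → R}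
    (h : Idem ψ ε) (x : X) {y : R} (hy : y ∈ thr (ε (some x))) :
    ∃ g : Option X → R, (∀ q, g q ∈ mid (ε (some x)) ∧ g q ∈ mid (ε q)) ∧
      y = ∑ q ∈ Finset.univ.erase (some x), g q := by
  unfold thr at hy
  induction hy using Submodule.span_induction with
  | mem y hy =>
    obtain ⟨a, b, rfl⟩ := hy
    refine ⟨fun q => ε (some x) * a * ε q * b * ε (some x), fun q => ⟨?_, ?_⟩, ?_⟩
    · have := mem_mid (1 : R) (ε (some x)) (a * ε q * b * ε (some x))
      rw [one_mul] at this
      simpa only [mul_assoc] using this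
    · have := mem_mid (ε (some x) * a) (ε q) (b * ε (some x))
      simpa only [mul_assoc] using this
    · have h1 : (1 : R) - ε (some x) = ∑ q ∈ Finset.univ.erase (some x), ε q := by
        rw [← h.coi.complete, ← Finset.add_sum_erase Finset.univ ε (Finset.mem_univ (some x))]
        abel
      rw [h1, Finset.mul_sum, Finset.sum_mul, Finset.sum_mul]
  | zero =>
    exact ⟨fun _ => 0, fun q => ⟨Submodule.zero_mem _, Submodule.zero_mem _⟩, by simp⟩
  | add s t _ _ hs ht =>
    obtain ⟨g, hg1, hg2⟩ := hs
    obtain ⟨g', hg1', hg2'⟩ := ht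
    refine ⟨fun q => g q + g' q, fun q => ⟨Submodule.add_mem _ (hg1 q).1 (hg1' q).1,
      Submodule.add_mem _ (hg1 q).2 (hg1' q).2⟩, ?_⟩
    rw [Finset.sum_add_distrib, ← hg2, ← hg2']
  | smul c s _ hs =>
    obtain ⟨g, hg1, hg2⟩ := hs
    refine ⟨fun q => c • g q, fun q => ⟨Submodule.smul_mem _ _ (hg1 q).1,
      Submodule.smul_mem _ _ (hg1 q).2⟩, ?_⟩
    rw [← Finset.smul_sum, ← hg2]

open Classical in
/-- decomposition of an element into types -/
theorem exists_types {X : Type} [Fintype X] {ψ : X → (R →ₐ[ℂ] ℂ)} {ε : Option X → R}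
    (h : Idem ψ ε)
    (hd : ∀ x, ∀ d : R →ₗ[ℂ] ℂ, (∀ a b, d (a * b) = ψ x a * d b + d a * ψ x b) → d = 0) (z : R) :
    ∃ β : Option X → Option X → Option X → R, z = ∑ p, ∑ q, ∑ p', β p q p' ∧
      (∀ p q p', β p q p' ∈ mid (ε p) ∧ β p q p' ∈ mid (ε q) ∧ β p q p' ∈ mid (ε p')) ∧
      ∀ x, β (some x) (some x) (some x) = ψ x z • ε (some x) := by
  have hee : ∀ p, ε p * ε p = ε p := fun p => h.coi.idem p
  have hg : ∀ x, ∃ g : Option X → R, (∀ q, g q ∈ mid (ε (some x)) ∧ g q ∈ mid (ε q)) ∧
      ε (some x) * z * ε (some x) - ψ x z • ε (some x) =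
        ∑ q ∈ Finset.univ.erase (some x), g q := by
    intro x
    refine exists_dec h x (corner_rad h x (hd x) ?_ ?_)
    · have e1 : ε (some x) * (ε (some x) * z * ε (some x) - ψ x z • ε (some x)) * ε (some x) =
          (ε (some x) * ε (some x)) * z * (ε (some x) * ε (some x)) -
            ψ x z • (ε (some x) * ε (some x) * ε (some x)) := by
        simp only [mul_sub, sub_mul, mul_smul_comm, smul_mul_assoc, mul_assoc]
      rw [e1, hee, hee]
    · rw [map_sub, map_mul, map_mul, map_smul, h.val, smul_eq_mul]; ring
  choose g hg1 hg2 using hg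
  let β : Option X → Option X → Option X → R := fun p q p' =>
    if p = p' then
      (match p with
        | none => if q = none then ε none * z * ε none else 0
        | some x => if q = some x then ψ x z • ε (some x) else g x q)
    else if q = p then ε p * z * ε p' else 0
  have hmid1 : ∀ p p', ε p * z * ε p' ∈ mid (ε p) := by
    intro p p'
    have := mem_mid (1 : R) (ε p) (z * ε p')
    rw [one_mul] at this
    simpa only [mul_assoc] using this
  have hmid2 : ∀ p p', ε p * z * ε p' ∈ mid (ε p') := by
    intro p p'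
    have := mem_mid (ε p * z) (ε p') 1
    rwa [mul_one] at this
  have hmid3 : ∀ p, ε p ∈ mid (ε p) := by
    intro p
    have := mem_mid (1 : R) (ε p) 1
    rwa [mul_one, one_mul] at this
  refine ⟨β, ?_, ?_, ?_⟩
  · -- the sum
    have h1 : ∀ p p', ∑ q, β p q p' = ε p * z * ε p' := by
      intro p p'
      by_cases hpp : p = p'
      · subst hpp
        cases p with
        | none =>
          rw [Finset.sum_eq_single (none : Option X)]
          · simp only [β, if_true]
          · intro q _ hq
            simp only [β, if_true, if_neg hq]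
          · intro h'; exact absurd (Finset.mem_univ _) h'
        | some x =>
          rw [← Finset.add_sum_erase Finset.univ _ (Finset.mem_univ (some x))]
          have h2 : ∑ q ∈ Finset.univ.erase (some x), β (some x) q (some x) =
              ∑ q ∈ Finset.univ.erase (some x), g x q := by
            refine Finset.sum_congr rfl fun q hq => ?_
            have hq' : q ≠ some x := (Finset.mem_erase.1 hq).1
            simp only [β, if_true, if_neg hq']
          rw [h2, ← hg2]
          simp only [β, if_true]
          abel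
      · rw [Finset.sum_eq_single p]
        · simp only [β, if_neg hpp, if_true]
        · intro q _ hq
          simp only [β, if_neg hpp, if_neg hq]
        · intro h'; exact absurd (Finset.mem_univ _) h'
    calc z = (∑ p, ε p) * z * (∑ p', ε p') := by rw [h.coi.complete, one_mul, mul_one]
      _ = ∑ p, ∑ p', ε p * z * ε p' := by
          rw [Finset.sum_mul, Finset.sum_mul]
          refine Finset.sum_congr rfl fun p _ => ?_
          rw [Finset.mul_sum]
      _ = ∑ p, ∑ p', ∑ q, β p q p' := by
          refine Finset.sum_congr rfl fun p _ => Finset.sum_congr rfl fun p' _ => ?_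
          rw [h1]
      _ = _ := by
          refine Finset.sum_congr rfl fun p _ => ?_
          rw [Finset.sum_comm]
  · intro p q p'
    by_cases hpp : p = p'
    · subst hpp
      cases p with
      | none =>
        by_cases hq : q = none
        · subst hq
          simp only [β, if_true]
          exact ⟨hmid1 _ _, hmid1 _ _, hmid1 _ _⟩
        · simp only [β, if_true, if_neg hq]
          exact ⟨Submodule.zero_mem _, Submodule.zero_mem _, Submodule.zero_mem _⟩
      | some x =>
        by_cases hq : q = some x
        · subst hq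
          simp only [β, if_true]
          exact ⟨Submodule.smul_mem _ _ (hmid3 _), Submodule.smul_mem _ _ (hmid3 _),
            Submodule.smul_mem _ _ (hmid3 _)⟩
        · simp only [β, if_true, if_neg hq]
          exact ⟨(hg1 x q).1, (hg1 x q).2, (hg1 x q).1⟩
    · by_cases hq : q = p
      · subst hq
        simp only [β, if_neg hpp, if_true]
        exact ⟨hmid1 _ _, hmid1 _ _, hmid2 _ _⟩
      · simp only [β, if_neg hpp, if_neg hq]
        exact ⟨Submodule.zero_mem _, Submodule.zero_mem _, Submodule.zero_mem _⟩
  · intro x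
    simp only [β, if_true]

end Pool.Agent.H20.Mon
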