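import Mathlib
import Pool.Agent.Lib_helper20.Mon.Coord

set_option autoImplicit false
set_option linter.unusedSectionVars false

/-! One coordinate: the module generated by the letters. -/

namespace Pool.Agent.H20.Mon

variable {R : Type} [Ring R] [Algebra ℂ R] [Module.Finite ℂ R] {N : Type} [AddCommGroup N]
  [Module ℂ N] (ρ : R →ₐ[ℂ] Module.End ℂ N)

/-- the submodule `R e N` -/
def midN (e : R) : Submodule ℂ N := Submodule.span ℂ {t | ∃ a n, t = ρ (a * e) n}

/-- the span of the products `a w` -/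
def actN (I : Submodule ℂ R) (W : Submodule ℂ N) : Submodule ℂ N :=
  Submodule.span ℂ {t | ∃ a ∈ I, ∃ n ∈ W, t = ρ a n}

variable {ρ}

theorem mem_midN (a e : R) (n : N) : ρ (a * e) n ∈ midN ρ e := Submodule.subset_span ⟨a, n, rfl⟩

theorem mem_actN {I : Submodule ℂ R} {W : Submodule ℂ N} {a : R} (ha : a ∈ I) {n : N}
    (hn : n ∈ W) : ρ a n ∈ actN ρ I W := Submodule.subset_span ⟨a, ha, n, hn, rfl⟩

theorem actN_mono {I : Submodule ℂ R} {W W' : Submodule ℂ N} (h : W ≤ W') :
    actN ρ I W ≤ actN ρ I W' := by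
  refine Submodule.span_le.2 ?_
  rintro _ ⟨a, ha, n, hn, rfl⟩
  exact mem_actN ha (h hn)

theorem actN_sup {I : Submodule ℂ R} {W W' : Submodule ℂ N} :
    actN ρ I (W ⊔ W') ≤ actN ρ I W ⊔ actN ρ I W' := by
  refine Submodule.span_le.2 ?_
  rintro _ ⟨a, ha, n, hn, rfl⟩
  obtain ⟨w, hw, w', hw', rfl⟩ := Submodule.mem_sup.1 hn
  rw [map_add]
  exact Submodule.add_mem_sup (mem_actN ha hw) (mem_actN ha hw')

theorem midN_stable {e : R} (a : R) {n : N} (hn : n ∈ midN ρ e) : ρ a n ∈ midN ρ e := by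
  unfold midN at hn ⊢
  induction hn using Submodule.span_induction with
  | mem n hn =>
    obtain ⟨b, m, rfl⟩ := hn
    refine Submodule.subset_span ⟨a * b, m, ?_⟩
    rw [mul_assoc, map_mul ρ a]
    rfl
  | zero => rw [map_zero]; exact Submodule.zero_mem _
  | add x y _ _ hx hy => rw [map_add]; exact Submodule.add_mem _ hx hy
  | smul c x _ hx => rw [map_smul]; exact Submodule.smul_mem _ _ hx

/-- the radical as a subspace -/
def radR (R : Type) [Ring R] [Algebra ℂ R] : Submodule ℂ R :=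
  Submodule.restrictScalars ℂ (Ring.jacobson R : Submodule R R)

theorem mem_radR {a : R} : a ∈ radR R ↔ a ∈ Ring.jacobson R :=
  Submodule.restrictScalars_mem ℂ _ _

/-- iterated products with the radical vanish -/
theorem rad_iter (P W : Submodule ℂ N) (hP : ∀ (a : R), ∀ n ∈ P, ρ a n ∈ P)
    (h : W ≤ P ⊔ actN ρ (radR R) W) : W ≤ P := by
  have hPP : actN ρ (radR R) P ≤ P := by
    refine Submodule.span_le.2 ?_
    rintro _ ⟨a, _, n, hn, rfl⟩
    exact hP a n hn
  let Q : ℕ → Submodule ℂ N := fun k => Submodule.span ℂ {t | ∃ a ∈ (Ring.jacobson R) ^ k,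
    ∃ n ∈ W, t = ρ a n}
  have hQs : ∀ k, actN ρ (radR R) (Q k) ≤ Q (k + 1) := by
    intro k
    refine Submodule.span_le.2 ?_
    rintro _ ⟨a, ha, n, hn, rfl⟩
    change n ∈ Submodule.span ℂ _ at hn
    induction hn using Submodule.span_induction with
    | mem n hn =>
      obtain ⟨b, hb, m, hm, rfl⟩ := hn
      refine Submodule.subset_span ⟨a * b, ?_, m, hm, ?_⟩
      · rw [Ideal.IsTwoSided.pow_succ]
        exact Ideal.mul_mem_mul ha hb
      · rw [map_mul]; rfl
    | zero => rw [map_zero]; exact Submodule.zero_mem _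
    | add x y _ _ hx hy => rw [map_add]; exact Submodule.add_mem _ hx hy
    | smul c x _ hx => rw [map_smul]; exact Submodule.smul_mem _ _ hx
  have hk : ∀ k, W ≤ P ⊔ Q k := by
    intro k
    induction k with
    | zero =>
      refine fun n hn => Submodule.mem_sup_right (Submodule.subset_span ⟨1, ?_, n, hn, ?_⟩)
      · rw [Submodule.pow_zero, Ideal.one_eq_top]; trivial
      · rw [map_one]; rfl
    | succ k ih =>
      calc W ≤ P ⊔ actN ρ (radR R) W := h
        _ ≤ P ⊔ actN ρ (radR R) (P ⊔ Q k) := sup_le_sup le_rfl (actN_mono ih)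
        _ ≤ P ⊔ (actN ρ (radR R) P ⊔ actN ρ (radR R) (Q k)) := sup_le_sup le_rfl actN_sup
        _ ≤ P ⊔ (P ⊔ Q (k + 1)) := sup_le_sup le_rfl (sup_le_sup hPP (hQs k))
        _ = P ⊔ Q (k + 1) := by rw [← sup_assoc, sup_idem]
  obtain ⟨k, hk'⟩ := jac_nilp (R := R)
  have h0 : Q k = ⊥ := by
    rw [eq_bot_iff]
    refine Submodule.span_le.2 ?_
    rintro _ ⟨a, ha, n, _, rfl⟩
    rw [hk'] at ha
    have : a = 0 := ha
    rw [this, map_zero]
    simp
  have := hk k
  rwa [h0, sup_bot_eq] at this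

section key

variable {X : Type} [Fintype X] {ψ : X → (R →ₐ[ℂ] ℂ)} {ε : Option X → R} (h : Idem ψ ε) (x : X)

include h in
theorem one_sub_mem (a : R) (n : N) : ρ ((1 - ε (some x)) * a) n ∈ midN ρ (1 - ε (some x)) := by
  have e1 : (1 - ε (some x)) * a = a * (1 - ε (some x)) * (1 : R) +
      (a * ε (some x) - ψ x a • ε (some x)) - (ε (some x) * a - ψ x a • ε (some x)) := by
    rw [mul_one, mul_sub, sub_mul, mul_one, one_mul]; abel
  have h1 : (1 - ε (some x)) * (1 - ε (some x)) = 1 - ε (some x) := by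
    have := h.coi.idem (some x)
    have h2 : ε (some x) * ε (some x) = ε (some x) := this
    rw [mul_sub, mul_one, sub_mul, one_mul, h2]; abel
  have h3 : ρ ((1 - ε (some x)) * a) n =
      ρ ((1 - ε (some x)) * (1 - ε (some x))) (ρ a n) := by
    rw [h1, map_mul]; rfl
  rw [h3]
  exact mem_midN _ _ _

include h in
/-- values of a functional vanishing on `R (1 - e) N + J N` -/
theorem func_char {v : N →ₗ[ℂ] ℂ} (hv1 : ∀ n ∈ midN ρ (1 - ε (some x)), v n = 0)
    (hv2 : ∀ j ∈ radR R, ∀ n, v (ρ j n) = 0) (a : R) (n : N) : v (ρ a n) = ψ x a * v n := by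
  have h1 : v (ρ ((1 - ε (some x)) * a) n) = 0 := hv1 _ (one_sub_mem h x a n)
  have h2 : v (ρ (ε (some x) * a - ψ x a • ε (some x)) n) = 0 := hv2 _ (mem_radR.2 (h.cen x a)) n
  have h3 : v (ρ ((1 - ε (some x)) * 1) n) = 0 := hv1 _ (one_sub_mem h x 1 n)
  have e1 : ρ a n = ρ ((1 - ε (some x)) * a) n + ρ (ε (some x) * a - ψ x a • ε (some x)) n +
      ψ x a • (n - ρ ((1 - ε (some x)) * 1) n) := by
    have e2 : n - ρ ((1 - ε (some x)) * 1) n = ρ (ε (some x)) n := by
      rw [mul_one, map_sub, map_one]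
      change n - (n - ρ (ε (some x)) n) = _
      abel
    rw [e2]
    have e3 : ψ x a • ρ (ε (some x)) n = ρ (ψ x a • ε (some x)) n := by rw [map_smul]; rfl
    rw [e3, ← LinearMap.add_apply, ← LinearMap.add_apply, ← map_add, ← map_add]
    congr 2
    rw [sub_mul, one_mul]
    abel
  rw [e1, map_add, map_add, map_smul, h1, h2, map_sub v, h3, smul_eq_mul]
  ring

include h in
/-- no functional: everything passes through the complement -/
theorem nonvis (hno : ∀ v : N →ₗ[ℂ] ℂ, (∀ a n, v (ρ a n) = ψ x a * v n) → v = 0) :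
    midN ρ (1 - ε (some x)) = ⊤ := by
  have h1 : (⊤ : Submodule ℂ N) ≤ midN ρ (1 - ε (some x)) := by
    refine rad_iter (ρ := ρ) _ ⊤ (fun a n hn => midN_stable a hn) ?_
    by_contra hcon
    obtain ⟨n₀, _, hn₀⟩ := Set.not_subset.1 hcon
    obtain ⟨v, hv1, hv2⟩ := Submodule.exists_le_ker_of_notMem hn₀
    have hv := hno v fun a n => func_char h x
      (fun n hn => hv2 (Submodule.mem_sup_left hn))
      (fun j hj n => hv2 (Submodule.mem_sup_right (mem_actN hj Submodule.mem_top))) a n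
    exact hv1 (by rw [hv]; rfl)
  exact top_le_iff.1 h1

include h in
/-- no block of size two: the radical passes through the complement -/
theorem visrad (hno : ∀ w : N →ₗ[ℂ] ℂ,
      (∀ a b n, w (ρ a (ρ b n)) - ψ x a * w (ρ b n) = ψ x b * (w (ρ a n) - ψ x a * w n)) →
      ∀ a n, w (ρ a n) = ψ x a * w n) :
    ∀ j ∈ radR R, ∀ n, ρ j n ∈ midN ρ (1 - ε (some x)) := by
  set P := midN ρ (1 - ε (some x)) with hP
  have hPst : ∀ (a : R), ∀ n ∈ P, ρ a n ∈ P := fun a n hn => midN_stable a hn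
  have key : actN ρ (radR R) ⊤ ≤ P := by
    refine rad_iter (ρ := ρ) P _ hPst ?_
    set J1 := actN ρ (radR R) (⊤ : Submodule ℂ N) with hJ1
    have hmem : ∀ j ∈ radR R, ∀ n, ρ j n ∈ J1 := fun j hj n => mem_actN hj Submodule.mem_top
    by_contra hcon
    have hcon' : ∃ j ∈ radR R, ∃ n, ρ j n ∉ P ⊔ actN ρ (radR R) J1 := by
      by_contra hc
      push Not at hc
      apply hcon
      refine Submodule.span_le.2 ?_
      rintro _ ⟨a, ha, n, _, rfl⟩
      exact hc a ha n
    obtain ⟨j₀, hj₀, n₀, hn₀⟩ := hcon'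
    obtain ⟨w, hw1, hw2⟩ := Submodule.exists_le_ker_of_notMem hn₀
    have hwP : ∀ n ∈ P, w n = 0 := fun n hn => hw2 (Submodule.mem_sup_left hn)
    have hwJ : ∀ n ∈ actN ρ (radR R) J1, w n = 0 := fun n hn =>
      hw2 (Submodule.mem_sup_right hn)
    -- `(a - χ a) q` for `q` in `P + J N`
    have hkill : ∀ (a : R), ∀ q ∈ P ⊔ J1, w (ρ a q) = ψ x a * w q := by
      intro a q₀ hq₀
      obtain ⟨p, hp, q, hq, rfl⟩ := Submodule.mem_sup.1 hq₀
      rw [map_add, map_add, map_add, hwP p hp, hwP _ (hPst a p hp), zero_add, zero_add]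
      have h1 : w (ρ ((1 - ε (some x)) * a) q) = 0 := hwP _ (one_sub_mem h x a q)
      have h2 : w (ρ (ε (some x) * a - ψ x a • ε (some x)) q) = 0 :=
        hwJ _ (mem_actN (mem_radR.2 (h.cen x a)) hq)
      have h3 : w (ρ ((1 - ε (some x)) * 1) q) = 0 := hwP _ (one_sub_mem h x 1 q)
      have e1 : ρ a q = ρ ((1 - ε (some x)) * a) q +
          ρ (ε (some x) * a - ψ x a • ε (some x)) q +
          ψ x a • (q - ρ ((1 - ε (some x)) * 1) q) := by
        have e2 : q - ρ ((1 - ε (some x)) * 1) q = ρ (ε (some x)) q := by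
          rw [mul_one, map_sub, map_one]
          change q - (q - ρ (ε (some x)) q) = _
          abel
        rw [e2]
        have e3 : ψ x a • ρ (ε (some x)) q = ρ (ψ x a • ε (some x)) q := by rw [map_smul]; rfl
        rw [e3, ← LinearMap.add_apply, ← LinearMap.add_apply, ← map_add, ← map_add]
        congr 2
        rw [sub_mul, one_mul]
        abel
      rw [e1, map_add, map_add, map_smul, h1, h2, map_sub w, h3, smul_eq_mul]
      ring
    have hsplit : ∀ (b : R) (n : N), ρ b n - ψ x b • n ∈ P ⊔ J1 := by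
      intro b n
      have e1 : ρ b n - ψ x b • n = (ρ ((1 - ε (some x)) * b) n -
          ψ x b • ρ ((1 - ε (some x)) * 1) n) +
          ρ (ε (some x) * b - ψ x b • ε (some x)) n := by
        have e3 : ψ x b • ρ ((1 - ε (some x)) * 1) n =
            ψ x b • n - ρ (ψ x b • ε (some x)) n := by
          rw [mul_one, map_sub, map_one, map_smul, LinearMap.sub_apply, LinearMap.smul_apply,
            smul_sub]
          rfl
        have e4 : ρ ((1 - ε (some x)) * b) n = ρ b n - ρ (ε (some x) * b) n := by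
          rw [sub_mul, one_mul, map_sub]; rfl
        rw [e3, e4, map_sub ρ (ε (some x) * b), LinearMap.sub_apply]
        abel
      rw [e1]
      exact Submodule.add_mem_sup (Submodule.sub_mem _ (one_sub_mem h x b n)
        (Submodule.smul_mem _ _ (one_sub_mem h x 1 n))) (hmem _ (mem_radR.2 (h.cen x b)) n)
    have h1 := hno w fun a b n => by
      have h2 := hkill a _ (hsplit b n)
      rw [map_sub, map_sub, map_smul, map_smul, map_sub, map_smul, smul_eq_mul,
        smul_eq_mul] at h2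
      linear_combination h2
    apply hw1
    rw [h1, char_jac (ψ x) (mem_radR.1 hj₀), zero_mul]
  exact fun j hj n => key (mem_actN hj Submodule.mem_top)

end key

end Pool.Agent.H20.Mon
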