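import Mathlib
import Pool.Agent.Lib_helper20.Mon.Coord

set_option autoImplicit false
set_option linter.unusedSectionVars false

/-! Multiplicative multilinear maps into the endomorphisms of a finite dimensional space. -/

namespace Pool.Agent.H20.Mon

open Module

section span

variable {ι : Type} [DecidableEq ι] {R : ι → Type} [∀ i, AddCommGroup (R i)]
  [∀ i, Module ℂ (R i)] {W : Type} [AddCommGroup W] [Module ℂ W]

theorem map_span_zero (φ : MultilinearMap ℂ R W) (S : ∀ i, Set (R i))
    (h : ∀ a, (∀ i, a i ∈ S i) → φ a = 0) (I : Finset ι) :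
    ∀ b : ∀ i, R i, (∀ i ∈ I, b i ∈ Submodule.span ℂ (S i)) → (∀ i, i ∉ I → b i ∈ S i) →
      φ b = 0 := by
  induction I using Finset.induction_on with
  | empty => exact fun b _ h2 => h b fun i => h2 i (Finset.notMem_empty i)
  | insert j I hj ih =>
    intro b h1 h2
    have key : ∀ x ∈ Submodule.span ℂ (S j), φ (Function.update b j x) = 0 := by
      intro x hx
      induction hx using Submodule.span_induction with
      | mem x hx =>
        refine ih _ (fun i hi => ?_) (fun i hi => ?_)
        · have hij : i ≠ j := fun h => hj (h ▸ hi)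
          rw [Function.update_of_ne hij]
          exact h1 i (Finset.mem_insert_of_mem hi)
        · by_cases hij : i = j
          · subst hij
            rwa [Function.update_self]
          · rw [Function.update_of_ne hij]
            exact h2 i fun h => (Finset.mem_insert.1 h).elim hij hi
      | zero => exact φ.map_coord_zero j (Function.update_self j 0 b)
      | add x y _ _ hx hy => rw [φ.map_update_add, hx, hy, add_zero]
      | smul c x _ hx => rw [φ.map_update_smul, hx, smul_zero]
    have := key (b j) (h1 j (Finset.mem_insert_self j I))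
    rwa [Function.update_eq_self] at this

end span

section idem

variable {V : Type} [AddCommGroup V] [Module ℂ V] [FiniteDimensional ℂ V]

open Classical in
/-- few nonzero orthogonal idempotents -/
theorem card_orth {T : Type} (E : T → End ℂ V) (hE : ∀ P, E P * E P = E P)
    (hO : ∀ P Q, P ≠ Q → E P * E Q = 0) (s : Finset T) (hs : ∀ P ∈ s, E P ≠ 0) :
    s.card ≤ finrank ℂ V := by
  have hv : ∀ P : s, ∃ v, E P v ≠ 0 := by
    intro P
    by_contra h
    push Not at h
    exact hs P P.2 (LinearMap.ext h)
  choose v hv using hv
  have hli : LinearIndependent ℂ (fun P : s => E P (v P)) := by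
    rw [Fintype.linearIndependent_iff]
    intro c hc Q
    have h1 := congrArg (E Q) hc
    rw [map_sum, map_zero, Finset.sum_eq_single Q] at h1
    · rw [map_smul] at h1
      have h2 : E Q (E Q (v Q)) = E Q (v Q) := by
        change (E Q * E Q) (v Q) = _
        rw [hE]
      rw [h2] at h1
      exact (smul_eq_zero.1 h1).resolve_right (hv Q)
    · intro P _ hPQ
      rw [map_smul]
      have h2 : E Q (E P (v P)) = 0 := by
        change (E Q * E P) (v P) = _
        rw [hO _ _ (fun h => hPQ (Subtype.ext h.symm))]
        rfl
      rw [h2, smul_zero]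
    · intro h; exact absurd (Finset.mem_univ _) h
  have := hli.fintype_card_le_finrank
  rwa [Fintype.card_coe] at this

end idem

section phi

variable {ι : Type} [Fintype ι] [DecidableEq ι] {R : ι → Type} [∀ i, Ring (R i)]
  [∀ i, Algebra ℂ (R i)] {V : Type} [AddCommGroup V] [Module ℂ V] [FiniteDimensional ℂ V]

/-- a multiplicative multilinear map -/
structure Mult (φ : MultilinearMap ℂ R (End ℂ V)) : Prop where
  one : φ (fun _ => 1) = 1
  mul : ∀ a b : ∀ i, R i, φ (fun i => a i * b i) = φ a * φ b

/-- if the idempotent is zero then everything in the ideals it generates is zero -/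
theorem mid_zero {φ : MultilinearMap ℂ R (End ℂ V)} (hφ : Mult φ) (e : ∀ i, R i)
    (he : φ e = 0) (b : ∀ i, R i) (hb : ∀ i, b i ∈ mid (e i)) : φ b = 0 := by
  refine map_span_zero φ (fun i => {t | ∃ a b, t = a * e i * b}) ?_ Finset.univ b
    (fun i _ => hb i) (fun i hi => absurd (Finset.mem_univ i) hi)
  intro a ha
  choose x y hxy using ha
  have : a = fun i => (x i * e i) * y i := funext hxy
  rw [this, hφ.mul (fun i => x i * e i) y, hφ.mul x e, he, mul_zero, zero_mul]

/-- the corner dimension: coordinates without characters double the dimension -/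
theorem corner_dim {φ : MultilinearMap ℂ R (End ℂ V)} (hφ : Mult φ) (e : ∀ i, R i)
    (hee : ∀ i, e i * e i = e i) (D : Finset ι)
    (hnc : ∀ i ∈ D, ∀ θ : R i →ₗ[ℂ] ℂ, θ 1 = 1 → ¬ ∀ a b, θ (a * e i * b) = θ a * θ b) :
    ∀ D' ⊆ D, ∀ U : Submodule ℂ V, U ≠ ⊥ → (∀ u ∈ U, φ e u = u) →
      (∀ i ∈ D', ∀ a : R i, ∀ u ∈ U, φ (Function.update e i (e i * a * e i)) u ∈ U) →
      2 ^ D'.card ≤ finrank ℂ U := by
  classical
  intro D'
  induction D' using Finset.induction_on with
  | empty =>
    intro _ U hU _ _
    rw [Finset.card_empty, pow_zero]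
    have : Nontrivial U := Submodule.nontrivial_iff_ne_bot.2 hU
    exact Module.finrank_pos
  | insert j D' hj ih =>
    intro hD U hU hE hinv
    let A : ∀ i, R i → End ℂ V := fun i a => φ (Function.update e i (e i * a * e i))
    have hA : ∀ i a, A i a = φ (Function.update e i (e i * a * e i)) := fun i a => rfl
    have hjD : j ∈ D := hD (Finset.mem_insert_self j D')
    have hA1 : ∀ i, A i 1 = φ e := by
      intro i
      rw [hA, mul_one, hee, Function.update_eq_self]
    have hupd : ∀ (a b : ∀ i, R i), φ a * φ b = φ (fun i => a i * b i) := fun a b =>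
      (hφ.mul a b).symm
    have hAA : ∀ i a b, A i a * A i b = A i (a * e i * b) := by
      intro i a b
      rw [hA, hA, hA, hupd]
      congr 1
      funext k
      by_cases hk : k = i
      · subst hk
        rw [Function.update_self, Function.update_self, Function.update_self]
        calc e k * a * e k * (e k * b * e k) = e k * a * (e k * e k) * b * e k := by
              simp only [mul_assoc]
          _ = e k * (a * e k * b) * e k := by rw [hee]; simp only [mul_assoc]
      · rw [Function.update_of_ne hk, Function.update_of_ne hk, Function.update_of_ne hk, hee]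
    have hcomm : ∀ i k, i ≠ k → ∀ a b, A i a * A k b = A k b * A i a := by
      intro i k hik a b
      rw [hA, hA, hupd, hupd]
      congr 1
      funext l
      have h1 : ∀ (m : ι) (c : R m), e m * (e m * c * e m) = e m * c * e m := by
        intro m c
        rw [← mul_assoc, ← mul_assoc, hee]
      have h2 : ∀ (m : ι) (c : R m), (e m * c * e m) * e m = e m * c * e m := by
        intro m c
        rw [mul_assoc, hee]
      by_cases hl : l = i
      · subst hl
        rw [Function.update_self, Function.update_of_ne hik, h1, h2]
      · by_cases hl' : l = k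
        · subst hl'
          rw [Function.update_self, Function.update_of_ne hl, h1, h2]
        · rw [Function.update_of_ne hl, Function.update_of_ne hl']
    have hAlin : ∀ i (a b : R i), A i (a + b) = A i a + A i b := by
      intro i a b
      rw [hA, hA, hA, mul_add, add_mul, φ.map_update_add]
    have hAsmul : ∀ i (c : ℂ) (a : R i), A i (c • a) = c • A i a := by
      intro i c a
      rw [hA, hA, mul_smul_comm, smul_mul_assoc, φ.map_update_smul]
    -- some element is not a scalar
    have hns : ∃ a : R j, ∀ c : ℂ, ∃ u ∈ U, A j a u ≠ c • u := by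
      by_contra hcon
      push Not at hcon
      choose θ hθ using hcon
      obtain ⟨u, hu, hu0⟩ := Submodule.exists_mem_ne_zero_of_ne_bot hU
      have huniq : ∀ c d : ℂ, c • u = d • u → c = d := fun c d h => smul_left_injective ℂ hu0 h
      let Θ : R j →ₗ[ℂ] ℂ :=
        { toFun := θ
          map_add' := fun a b => huniq _ _ (by
            rw [← hθ (a + b) u hu, hAlin, LinearMap.add_apply, hθ a u hu, hθ b u hu, add_smul])
          map_smul' := fun c a => huniq _ _ (by
            rw [← hθ (c • a) u hu, hAsmul, LinearMap.smul_apply, hθ a u hu, smul_smul]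
            rfl) }
      refine hnc j hjD Θ (huniq _ _ ?_) fun a b => huniq _ _ ?_
      · change θ 1 • u = _
        rw [← hθ 1 u hu, hA1, hE u hu, one_smul]
      · change θ (a * e j * b) • u = (θ a * θ b) • u
        rw [← hθ (a * e j * b) u hu, ← hAA]
        change A j a (A j b u) = _
        rw [hθ b u hu, map_smul, hθ a u hu, smul_smul, mul_comm]
    obtain ⟨a, ha⟩ := hns
    have hUinv : ∀ u ∈ U, A j a u ∈ U := hinv j (Finset.mem_insert_self j D') a
    have : Nontrivial U := Submodule.nontrivial_iff_ne_bot.2 hU
    obtain ⟨c, hc⟩ := Module.End.exists_eigenvalue ((A j a).restrict hUinv)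
    obtain ⟨w, hw⟩ := hc.exists_hasEigenvector
    have hw1 : A j a (w : V) = c • (w : V) := by
      have := hw.apply_eq_smul
      exact congrArg Subtype.val this
    have hw0 : (w : V) ≠ 0 := fun h => hw.2 (Subtype.ext h)
    let T : End ℂ V := A j a - c • (1 : End ℂ V)
    have hT : ∀ v, T v = A j a v - c • v := fun v => rfl
    let K₁ : Submodule ℂ V := U ⊓ LinearMap.ker T
    let K₂ : Submodule ℂ V := U.map T
    have hK₁ : K₁ ≠ ⊥ := by
      intro h
      have : (w : V) ∈ K₁ := Submodule.mem_inf.2
        ⟨w.2, LinearMap.mem_ker.2 (by rw [hT, hw1, sub_self])⟩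
      rw [h] at this
      exact hw0 this
    have hK₂ : K₂ ≠ ⊥ := by
      intro h
      obtain ⟨u, hu, huc⟩ := ha c
      have : T u ∈ K₂ := ⟨u, hu, rfl⟩
      rw [h, Submodule.mem_bot, hT, sub_eq_zero] at this
      exact huc this
    have hTU : ∀ u ∈ U, T u ∈ U := fun u hu => by
      rw [hT]; exact U.sub_mem (hUinv u hu) (U.smul_mem _ hu)
    have hTcomm : ∀ k ∈ D', ∀ b v, A k b (T v) = T (A k b v) := by
      intro k hk b v
      have hkj : k ≠ j := fun h => hj (h ▸ hk)
      have := hcomm k j hkj b a
      rw [hT, hT, map_sub, map_smul]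
      congr 1
      exact LinearMap.congr_fun this v
    have hd1 := ih ((Finset.subset_insert j D').trans hD) K₁ hK₁ (fun u hu => hE u hu.1) (by
      intro k hk b u hu
      refine Submodule.mem_inf.2 ⟨hinv k (Finset.mem_insert_of_mem hk) b u hu.1, ?_⟩
      rw [LinearMap.mem_ker]
      have h1 := hTcomm k hk b u
      have h2 : T u = 0 := hu.2
      rw [h2, map_zero] at h1
      exact h1.symm)
    have hd2 := ih ((Finset.subset_insert j D').trans hD) K₂ hK₂ (by
      rintro _ ⟨u, hu, rfl⟩
      exact hE _ (hTU u hu)) (by
      rintro k hk b _ ⟨u, hu, rfl⟩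
      refine ⟨A k b u, hinv k (Finset.mem_insert_of_mem hk) b u hu, ?_⟩
      exact (hTcomm k hk b u).symm)
    have hsum : finrank ℂ K₁ + finrank ℂ K₂ = finrank ℂ U := by
      have h1 := LinearMap.finrank_range_add_finrank_ker (T.domRestrict U)
      have h2 : LinearMap.range (T.domRestrict U) = K₂ := by
        rw [LinearMap.range_domRestrict]
      have h3 : finrank ℂ (LinearMap.ker (T.domRestrict U)) = finrank ℂ K₁ := by
        have e1 : K₁ = (LinearMap.ker (T.domRestrict U)).map U.subtype := by
          ext v
          simp only [K₁, Submodule.mem_inf, Submodule.mem_map, LinearMap.mem_ker]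
          constructor
          · rintro ⟨h1, h2⟩
            exact ⟨⟨v, h1⟩, h2, rfl⟩
          · rintro ⟨u, hu, rfl⟩
            exact ⟨u.2, hu⟩
        rw [e1]
        exact (LinearEquiv.finrank_eq (Submodule.equivMapOfInjective U.subtype
          U.injective_subtype _))
      rw [h2, h3, add_comm] at h1
      exact h1
    rw [Finset.card_insert_of_notMem hj, pow_succ]
    omega

end phi

end Pool.Agent.H20.Mon
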