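import Mathlib
import Pool.Agent.Lib_helper20.Mon.Multi

set_option autoImplicit false
set_option linter.unusedSectionVars false

/-! The structure theorem: few terms, each a product of characters outside few coordinates. -/

namespace Pool.Agent.H20.Mon

open Module

section

variable {ι : Type} [Fintype ι] [DecidableEq ι] {R : ι → Type} [∀ i, Ring (R i)]
  [∀ i, Algebra ℂ (R i)] [∀ i, Module.Finite ℂ (R i)] {V : Type} [AddCommGroup V] [Module ℂ V]
  [FiniteDimensional ℂ V] {X : ι → Type} [∀ i, Fintype (X i)] [∀ i, DecidableEq (X i)]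

/-- value of a character, and one for the rest -/
def cv {R : Type} [Ring R] [Algebra ℂ R] {X : Type} (ψ : X → (R →ₐ[ℂ] ℂ)) (p : Option X)
    (a : R) : ℂ :=
  match p with
  | some x => ψ x a
  | none => 1

/-- types -/
abbrev Ty (X : ι → Type) : Type := ∀ i, Option (X i) × Option (X i) × Option (X i)

/-- the exceptional coordinates of a type -/
def exc (τ : Ty X) : Finset ι :=
  Finset.univ.filter fun i => ¬ ((τ i).1 = (τ i).2.1 ∧ (τ i).2.1 = (τ i).2.2) ∨ (τ i).1 = none

theorem structure_thm (φ : MultilinearMap ℂ R (End ℂ V)) (hφ : Mult φ)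
    (ψ : ∀ i, X i → (R i →ₐ[ℂ] ℂ)) (ε : ∀ i, Option (X i) → R i) (hI : ∀ i, Idem (ψ i) (ε i))
    (hX : ∀ i, ∀ χ : R i →ₐ[ℂ] ℂ, ∃ x, ψ i x = χ)
    (hd : ∀ i x, ∀ d : R i →ₗ[ℂ] ℂ, (∀ a b, d (a * b) = ψ i x a * d b + d a * ψ i x b) → d = 0) :
    ∃ (K : Finset (Ty X)) (T : Ty X → (∀ i, R i) → End ℂ V),
      K.card ≤ finrank ℂ V ^ 3 ∧ (∀ τ ∈ K, 2 ^ (exc τ).card ≤ finrank ℂ V ^ 2) ∧
      (∀ τ z z', (∀ i ∈ exc τ, z i = z' i) → T τ z = T τ z') ∧
      ∀ z : ∀ i, R i, φ z =
        ∑ τ ∈ K, (∏ i, if i ∈ exc τ then 1 else cv (ψ i) (τ i).1 (z i)) • T τ z := by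
  classical
  set r := finrank ℂ V with hr
  let E : (∀ i, Option (X i)) → End ℂ V := fun P => φ (fun i => ε i (P i))
  have hEd : ∀ P, E P = φ (fun i => ε i (P i)) := fun P => rfl
  have hεi : ∀ i p, ε i p * ε i p = ε i p := fun i p => (hI i).coi.idem p
  have hEE : ∀ P, E P * E P = E P := by
    intro P
    rw [hEd, ← hφ.mul]
    congr 1
    funext i
    exact hεi i (P i)
  have hEO : ∀ P Q, P ≠ Q → E P * E Q = 0 := by
    intro P Q hPQ
    obtain ⟨i, hi⟩ := Function.ne_iff.1 hPQ
    rw [hEd, hEd, ← hφ.mul]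
    exact φ.map_coord_zero i ((hI i).coi.ortho hi)
  set 𝒮 : Finset (∀ i, Option (X i)) := Finset.univ.filter fun P => E P ≠ 0 with h𝒮
  have hm𝒮 : ∀ P, P ∈ 𝒮 ↔ E P ≠ 0 := fun P => by simp [h𝒮]
  have hc𝒮 : 𝒮.card ≤ r := card_orth E hEE hEO 𝒮 fun P hP => (hm𝒮 P).1 hP
  -- the set of types
  set K : Finset (Ty X) := Finset.univ.filter fun τ => ∀ s : ∀ i, Option (X i),
    (∀ i, s i = (τ i).1 ∨ s i = (τ i).2.1 ∨ s i = (τ i).2.2) → E s ≠ 0 with hK
  have hmK : ∀ τ, τ ∈ K ↔ ∀ s : ∀ i, Option (X i),
    (∀ i, s i = (τ i).1 ∨ s i = (τ i).2.1 ∨ s i = (τ i).2.2) → E s ≠ 0 := fun τ => by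
      simp only [hK, Finset.mem_filter, Finset.mem_univ, true_and]
  have hβ := fun i (z : R i) => exists_types (hI i) (hd i) z
  choose β hβ1 hβ2 hβ3 using hβ
  let T : Ty X → (∀ i, R i) → End ℂ V := fun τ z =>
    φ (fun i => if i ∈ exc τ then β i (z i) (τ i).1 (τ i).2.1 (τ i).2.2 else ε i (τ i).1)
  refine ⟨K, T, ?_, ?_, ?_, ?_⟩
  · -- number of types
    have h1 : K.card ≤ (𝒮 ×ˢ 𝒮 ×ˢ 𝒮).card := by
      refine Finset.card_le_card_of_injOn
        (fun τ => (fun i => (τ i).1, fun i => (τ i).2.1, fun i => (τ i).2.2)) ?_ ?_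
      · intro τ hτ
        have hτ' := (hmK τ).1 hτ
        simp only [Finset.coe_product, Set.mem_prod, Finset.mem_coe, hm𝒮]
        exact ⟨hτ' _ fun i => Or.inl rfl, hτ' _ fun i => Or.inr (Or.inl rfl),
          hτ' _ fun i => Or.inr (Or.inr rfl)⟩
      · intro τ _ τ' _ h
        simp only [Prod.mk.injEq] at h
        funext i
        exact Prod.ext (congrFun h.1 i) (Prod.ext (congrFun h.2.1 i) (congrFun h.2.2 i))
    rw [Finset.card_product, Finset.card_product] at h1
    calc K.card ≤ 𝒮.card * (𝒮.card * 𝒮.card) := h1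
      _ ≤ r * (r * r) := Nat.mul_le_mul hc𝒮 (Nat.mul_le_mul hc𝒮 hc𝒮)
      _ = r ^ 3 := by ring
  · -- few exceptional coordinates
    intro τ hτ
    have hτ' := (hmK τ).1 hτ
    set D : Finset ι := Finset.univ.filter
      (fun i => ¬ ((τ i).1 = (τ i).2.1 ∧ (τ i).2.1 = (τ i).2.2)) with hD
    set N : Finset ι := Finset.univ.filter (fun i => (τ i).1 = none) with hN
    have hW : (exc τ).card ≤ D.card + N.card := by
      have : exc τ ⊆ D ∪ N := by
        intro i hi
        simp only [exc, Finset.mem_filter, Finset.mem_univ, true_and] at hi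
        rw [Finset.mem_union, hD, hN, Finset.mem_filter, Finset.mem_filter]
        rcases hi with h | h
        · exact Or.inl ⟨Finset.mem_univ _, h⟩
        · exact Or.inr ⟨Finset.mem_univ _, h⟩
      exact (Finset.card_le_card this).trans (Finset.card_union_le _ _)
    have hDr : 2 ^ D.card ≤ r := by
      have halt : ∀ i, ∃ q, (q = (τ i).2.1 ∨ q = (τ i).2.2) ∧ (i ∈ D → q ≠ (τ i).1) := by
        intro i
        by_cases h1 : (τ i).2.1 = (τ i).1
        · refine ⟨(τ i).2.2, Or.inr rfl, fun hi h2 => ?_⟩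
          rw [hD, Finset.mem_filter] at hi
          exact hi.2 ⟨h1.symm, h1.trans h2.symm⟩
        · exact ⟨(τ i).2.1, Or.inl rfl, fun _ => h1⟩
      choose q hq1 hq2 using halt
      rw [← Finset.card_powerset]
      refine le_trans ?_ hc𝒮
      refine Finset.card_le_card_of_injOn (fun U i => if i ∈ U then q i else (τ i).1) ?_ ?_
      · intro U _
        rw [Finset.mem_coe, hm𝒮]
        refine hτ' _ fun i => ?_
        change (if i ∈ U then q i else (τ i).1) = _ ∨ (if i ∈ U then q i else (τ i).1) = _ ∨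
          (if i ∈ U then q i else (τ i).1) = _
        by_cases hi : i ∈ U
        · rw [if_pos hi]
          exact Or.inr (hq1 i)
        · rw [if_neg hi]
          exact Or.inl rfl
      · intro U hU U' hU' h
        rw [Finset.mem_coe, Finset.mem_powerset] at hU hU'
        ext i
        have hi := congrFun h i
        simp only at hi
        constructor
        · intro h1
          by_contra h2
          rw [if_pos h1, if_neg h2] at hi
          exact hq2 i (hU h1) hi
        · intro h1
          by_contra h2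
          rw [if_neg h2, if_pos h1] at hi
          exact hq2 i (hU' h1) hi.symm
    have hNr : 2 ^ N.card ≤ r := by
      set P : ∀ i, Option (X i) := fun i => (τ i).1 with hP
      have hEP : E P ≠ 0 := hτ' P fun i => Or.inl rfl
      have h1 := corner_dim hφ (fun i => ε i (P i)) (fun i => hεi i (P i)) N
        (by
          intro i hi θ h1 h2
          rw [hN, Finset.mem_filter] at hi
          have hPi : P i = none := hi.2
          rw [hPi] at h2
          exact no_char (hI i) (hX i) θ h1 h2) N (Finset.Subset.refl N) (LinearMap.range (E P))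
        (by
          intro h
          rw [LinearMap.range_eq_bot] at h
          exact hEP h)
        (by
          rintro _ ⟨v, rfl⟩
          change (E P * E P) v = _
          rw [hEE])
        (by
          rintro i hi a _ ⟨v, rfl⟩
          refine ⟨φ (Function.update (fun i => ε i (P i)) i (ε i (P i) * a * ε i (P i))) v, ?_⟩
          have e1 : E P * φ (Function.update (fun i => ε i (P i)) i (ε i (P i) * a * ε i (P i))) =
              φ (Function.update (fun i => ε i (P i)) i (ε i (P i) * a * ε i (P i))) * E P := by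
            rw [hEd, ← hφ.mul, ← hφ.mul]
            congr 1
            funext k
            by_cases hk : k = i
            · subst hk
              rw [Function.update_self, ← mul_assoc, ← mul_assoc, hεi, mul_assoc _ (ε k (P k)),
                hεi]
            · rw [Function.update_of_ne hk]
          exact LinearMap.congr_fun e1 v)
      exact h1.trans (Submodule.finrank_le _)
    calc 2 ^ (exc τ).card ≤ 2 ^ (D.card + N.card) := Nat.pow_le_pow_right (by norm_num) hW
      _ = 2 ^ D.card * 2 ^ N.card := pow_add _ _ _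
      _ ≤ r * r := Nat.mul_le_mul hDr hNr
      _ = r ^ 2 := by ring
  · -- dependence on the exceptional coordinates
    intro τ z z' h
    change φ _ = φ _
    congr 1
    funext i
    by_cases hi : i ∈ exc τ
    · rw [if_pos hi, if_pos hi, h i hi]
    · rw [if_neg hi, if_neg hi]
  · -- the expansion
    intro z
    have h1 : φ z = ∑ τ : Ty X, φ (fun i => β i (z i) (τ i).1 (τ i).2.1 (τ i).2.2) := by
      have h2 : z = fun i => ∑ t : Option (X i) × Option (X i) × Option (X i),
          β i (z i) t.1 t.2.1 t.2.2 := by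
        funext i
        rw [Fintype.sum_prod_type]
        simp only [Fintype.sum_prod_type]
        exact hβ1 i (z i)
      conv_lhs => rw [h2]
      exact φ.map_sum (fun i (t : Option (X i) × Option (X i) × Option (X i)) =>
        β i (z i) t.1 t.2.1 t.2.2)
    have h3 : ∀ τ, τ ∉ K → φ (fun i => β i (z i) (τ i).1 (τ i).2.1 (τ i).2.2) = 0 := by
      intro τ hτ
      rw [hmK] at hτ
      push Not at hτ
      obtain ⟨s, hs1, hs2⟩ := hτ
      refine mid_zero hφ (fun i => ε i (s i)) hs2 _ fun i => ?_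
      obtain ⟨m1, m2, m3⟩ := hβ2 i (z i) (τ i).1 (τ i).2.1 (τ i).2.2
      rcases hs1 i with h | h | h
      · rw [h]; exact m1
      · rw [h]; exact m2
      · rw [h]; exact m3
    rw [h1, ← Finset.sum_subset (Finset.subset_univ K) (fun τ _ hτ => h3 τ hτ)]
    refine Finset.sum_congr rfl fun τ _ => ?_
    change _ = _ • φ _
    rw [← φ.map_smul_univ]
    congr 1
    funext i
    by_cases hi : i ∈ exc τ
    · rw [if_pos hi, if_pos hi, one_smul]
    · rw [if_neg hi, if_neg hi]
      simp only [exc, Finset.mem_filter, Finset.mem_univ, true_and, not_or, not_not] at hi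
      obtain ⟨⟨h4, h5⟩, h6⟩ := hi
      obtain ⟨x, hx⟩ := Option.ne_none_iff_exists'.1 h6
      rw [← h5, ← h4, hx]
      exact hβ3 i (z i) x

end

end Pool.Agent.H20.Mon
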