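import Mathlib
import Pool.Agent.Lib_helper20.Mon.Struct

set_option autoImplicit false
set_option linter.unusedSectionVars false

/-! Representations of a product of finite monoids; dual numbers. -/

namespace Pool.Agent.H20.Mon

open Module

section rep

variable {ι : Type} [Fintype ι] [DecidableEq ι] {M : ι → Type} [∀ i, Monoid (M i)]
  [∀ i, Fintype (M i)] {V : Type} [AddCommGroup V] [Module ℂ V]

/-- multilinear extension of a representation -/
noncomputable def mext (ρ : (∀ i, M i) →* End ℂ V) :
    MultilinearMap ℂ (fun i => MonoidAlgebra ℂ (M i)) (End ℂ V) :=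
  ∑ z : ∀ i, M i, ((MultilinearMap.mkPiAlgebra ℂ ι ℂ).compLinearMap
    (fun i => (MonoidAlgebra.basis (M i) ℂ).coord (z i))).smulRight (ρ z)

theorem mext_single (ρ : (∀ i, M i) →* End ℂ V) (z : ∀ i, M i) :
    mext ρ (fun i => MonoidAlgebra.single (z i) 1) = ρ z := by
  classical
  unfold mext
  rw [sum_apply, Finset.sum_eq_single z]
  · rw [MultilinearMap.smulRight_apply, MultilinearMap.compLinearMap_apply,
      MultilinearMap.mkPiAlgebra_apply, Finset.prod_eq_one, one_smul]
    intro i _
    rw [← MonoidAlgebra.basis_apply, Basis.coord_apply, Basis.repr_self, Finsupp.single_eq_same]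
  · intro z' _ hz
    obtain ⟨i, hi⟩ := Function.ne_iff.1 hz
    rw [MultilinearMap.smulRight_apply, MultilinearMap.compLinearMap_apply,
      MultilinearMap.mkPiAlgebra_apply, Finset.prod_eq_zero (Finset.mem_univ i), zero_smul]
    rw [← MonoidAlgebra.basis_apply, Basis.coord_apply, Basis.repr_self,
      Finsupp.single_eq_of_ne hi]
  · intro h; exact absurd (Finset.mem_univ _) h

theorem mext_mult (ρ : (∀ i, M i) →* End ℂ V) : Mult (mext ρ) := by
  constructor
  · have := mext_single ρ 1
    rw [map_one] at this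
    exact this
  · intro a b
    let f₁ : ∀ b : ∀ i, MonoidAlgebra ℂ (M i),
        MultilinearMap ℂ (fun i => MonoidAlgebra ℂ (M i)) (End ℂ V) := fun b =>
      (mext ρ).compLinearMap (fun i => LinearMap.mulRight ℂ (b i))
    let f₂ : ∀ b : ∀ i, MonoidAlgebra ℂ (M i),
        MultilinearMap ℂ (fun i => MonoidAlgebra ℂ (M i)) (End ℂ V) := fun b =>
      (LinearMap.mulRight ℂ (mext ρ b)).compMultilinearMap (mext ρ)
    have h : f₁ b = f₂ b := by
      refine Module.Basis.ext_multilinear (fun i => MonoidAlgebra.basis (M i) ℂ) fun x => ?_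
      let g₁ : MultilinearMap ℂ (fun i => MonoidAlgebra ℂ (M i)) (End ℂ V) :=
        (mext ρ).compLinearMap (fun i => LinearMap.mulLeft ℂ (MonoidAlgebra.single (x i) 1))
      let g₂ : MultilinearMap ℂ (fun i => MonoidAlgebra ℂ (M i)) (End ℂ V) :=
        (LinearMap.mulLeft ℂ (ρ x)).compMultilinearMap (mext ρ)
      have hg : g₁ = g₂ := by
        refine Module.Basis.ext_multilinear (fun i => MonoidAlgebra.basis (M i) ℂ) fun y => ?_
        change mext ρ (fun i => MonoidAlgebra.single (x i) 1 * MonoidAlgebra.single (y i) 1) =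
          ρ x * mext ρ (fun i => MonoidAlgebra.single (y i) 1)
        rw [mext_single ρ y, ← map_mul, ← mext_single ρ (x * y)]
        congr 1
        funext i
        rw [MonoidAlgebra.single_mul_single, mul_one]
        rfl
      have h1 : g₁ b = g₂ b := by rw [hg]
      change mext ρ (fun i => MonoidAlgebra.single (x i) 1 * b i) =
        mext ρ (fun i => MonoidAlgebra.single (x i) 1) * mext ρ b
      rw [mext_single]
      exact h1
    have h1 : f₁ b a = f₂ b a := by rw [h]
    exact h1

end rep

section one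

variable {M : Type} [Monoid M] [Fintype M]

instance : Module.Finite ℂ (MonoidAlgebra ℂ M) := Module.Finite.of_basis (MonoidAlgebra.basis M ℂ)

/-- every multiplicative map to the dual numbers has values `0` and `1` -/
def Dual01 (M : Type) [Monoid M] : Prop :=
  ∀ φ : M →* DualNumber ℂ, ∀ m, φ m = 0 ∨ φ m = 1

theorem Dual01.char (h : Dual01 M) (χ : M →* ℂ) (m : M) : χ m = 0 ∨ χ m = 1 := by
  have := h ((TrivSqZeroExt.inlHom ℂ ℂ).toMonoidHom.comp χ) m
  rcases this with h1 | h1
  · left
    have := congrArg TrivSqZeroExt.fst h1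
    exact this
  · right
    have := congrArg TrivSqZeroExt.fst h1
    exact this

theorem Dual01.deriv (h : Dual01 M) (χ : M →* ℂ) (d : MonoidAlgebra ℂ M →ₗ[ℂ] ℂ)
    (hd : ∀ a b, d (a * b) = MonoidAlgebra.lift ℂ ℂ M χ a * d b +
      d a * MonoidAlgebra.lift ℂ ℂ M χ b) : d = 0 := by
  have hone : MonoidAlgebra.lift ℂ ℂ M χ 1 = 1 := map_one _
  have h0 : d 1 = 0 := by
    have := hd 1 1
    rw [mul_one, hone, one_mul, mul_one] at this
    have h2 : d 1 + 0 = d 1 + d 1 := by rw [add_zero]; exact this
    exact (add_left_cancel h2).symm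
  have e1 : ∀ z : M, MonoidAlgebra.lift ℂ ℂ M χ (MonoidAlgebra.single z 1) = χ z := by
    intro z
    rw [MonoidAlgebra.lift_single, one_smul]
  let φ : M →* DualNumber ℂ :=
    { toFun := fun m => TrivSqZeroExt.inl (χ m) + TrivSqZeroExt.inr (d (MonoidAlgebra.single m 1))
      map_one' := by
        refine TrivSqZeroExt.ext ?_ ?_
        · simp
        · simp only [TrivSqZeroExt.snd_add, TrivSqZeroExt.snd_inl, TrivSqZeroExt.snd_inr, zero_add,
            TrivSqZeroExt.snd_one]
          exact h0
      map_mul' := fun x y => by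
        have h1 := hd (MonoidAlgebra.single x 1) (MonoidAlgebra.single y 1)
        rw [MonoidAlgebra.single_mul_single, mul_one, e1, e1] at h1
        refine TrivSqZeroExt.ext ?_ ?_
        · simp
        · simp only [TrivSqZeroExt.snd_add, TrivSqZeroExt.snd_inl, TrivSqZeroExt.snd_inr, zero_add,
            TrivSqZeroExt.snd_mul, TrivSqZeroExt.fst_add, TrivSqZeroExt.fst_inl,
            TrivSqZeroExt.fst_inr, add_zero, smul_eq_mul, MulOpposite.smul_eq_mul_unop,
            MulOpposite.unop_op]
          exact h1 }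
  refine (MonoidAlgebra.basis M ℂ).ext fun m => ?_
  rw [MonoidAlgebra.basis_apply]
  have h2 : (φ m).snd = 0 := by
    rcases h φ m with h3 | h3 <;> rw [h3] <;> rfl
  have h3 : (φ m).snd = d (MonoidAlgebra.single m 1) := by
    change TrivSqZeroExt.snd (TrivSqZeroExt.inl (χ m) +
      TrivSqZeroExt.inr (d (MonoidAlgebra.single m 1))) = _
    simp
  rw [← h3, h2]
  rfl

theorem Dual01.finite (h : Dual01 M) : Finite (M →* ℂ) := by
  classical
  refine Finite.of_injective (fun (χ : M →* ℂ) (m : M) => decide (χ m = 1)) fun χ χ' hχ => ?_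
  ext m
  have h1 := congrFun hχ m
  simp only [decide_eq_decide] at h1
  rcases h.char χ m with h2 | h2 <;> rcases h.char χ' m with h3 | h3
  · rw [h2, h3]
  · rw [h2, h3] at h1; exact absurd (h1.2 rfl) zero_ne_one
  · rw [h2, h3] at h1; exact absurd (h1.1 rfl) zero_ne_one
  · rw [h2, h3]

end one

end Pool.Agent.H20.Mon
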