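import Mathlib
import Pool.Agent.Lib_helper20.Mon.ModKey
import Pool.Agent.Lib_helper20.Mon.Rep
import Pool.Agent.Lib_helper20.Mon.ActDefs

set_option autoImplicit false
set_option linter.unusedSectionVars false

/-! One coordinate: the module of a finite set with an action of a finite monoid; commutative
images of the action. -/

namespace Pool.Agent.H20.Mon.Act

open Module

section one

variable {M S : Type} [Monoid M] [Fintype M] [MulAction M S]

/-- every image of `S` on which `M` acts by commuting maps is acted on by idempotents -/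
def CIdem (M S : Type) [Monoid M] [MulAction M S] : Prop :=
  ∀ (T : Type) [MulAction M T] (f : S → T), (∀ (x : M) s, f (x • s) = x • f s) →
    (∀ (x y : M) (t : T), x • y • t = y • x • t) → ∀ (x : M) s, f (x • x • s) = f (x • s)

/-- it is enough to look at the commutative images -/
theorem cidem_of (h : ∀ (T : Type) [MulAction M T] (f : S → T), CommImage M f →
    ∀ (x : M) (t : T), x • x • t = x • t) : CIdem M S := by
  intro T _ f hf hT x s
  let T' : Type := {t : T // ∃ s, f s = t}
  let A : MulAction M T' :=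
    { smul := fun x t => ⟨x • t.1, by
        obtain ⟨s, hs⟩ := t.2
        exact ⟨x • s, by rw [hf, hs]⟩⟩
      one_smul := fun t => Subtype.ext (one_smul M t.1)
      mul_smul := fun x y t => Subtype.ext (mul_smul x y t.1) }
  have hval : ∀ (x : M) (t : T'), (x • t).1 = x • t.1 := fun _ _ => rfl
  have h1 := h T' (fun s => ⟨f s, s, rfl⟩)
    ⟨fun t => by
        obtain ⟨s, hs⟩ := t.2
        exact ⟨s, Subtype.ext hs⟩,
      fun x s => Subtype.ext (hf x s),
      fun x y t => Subtype.ext (hT x y t.1)⟩ x ⟨f s, s, rfl⟩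
  have h2 := congrArg Subtype.val h1
  rw [hval, hval] at h2
  rw [hf, hf]
  exact h2

/-- functions on `M` which are symmetric -/
@[ext]
structure CFun (M : Type) [Monoid M] : Type where
  val : M → ℂ
  sym : ∀ a x y b, val (a * x * y * b) = val (a * y * x * b)

instance : MulAction M (CFun M) where
  smul c F := ⟨fun z => F.val (z * c), fun a x y b => by
    have h := F.sym a x y (b * c)
    simp only [← mul_assoc] at h
    exact h⟩
  one_smul F := CFun.ext (funext fun z => by
    change F.val (z * 1) = F.val z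
    rw [mul_one])
  mul_smul c d F := CFun.ext (funext fun z => by
    change F.val (z * (c * d)) = F.val (z * c * d)
    rw [mul_assoc])

theorem CFun.smul_val (c : M) (F : CFun M) (z : M) : (c • F).val z = F.val (z * c) := rfl

theorem cfun_comm (x y : M) (F : CFun M) : x • y • F = y • x • F := by
  refine CFun.ext (funext fun z => ?_)
  rw [CFun.smul_val, CFun.smul_val, CFun.smul_val, CFun.smul_val]
  have := F.sym z x y 1
  rwa [mul_one, mul_one] at this

/-- a symmetric function -/
theorem cidem_fun (h : CIdem M S) (w : S → ℂ)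
    (hw : ∀ (a x y : M) s, w (a • x • y • s) = w (a • y • x • s)) (x : M) (s : S) :
    w (x • x • s) = w (x • s) := by
  let f : S → CFun M := fun s => ⟨fun z => w (z • s), fun a x y b => by
    simp only [mul_smul]
    exact hw a x y (b • s)⟩
  have hf : ∀ (x : M) s, f (x • s) = x • f s := fun x s => CFun.ext (funext fun z => by
    rw [CFun.smul_val]
    change w (z • x • s) = w ((z * x) • s)
    rw [mul_smul])
  have h1 := h (CFun M) f hf cfun_comm x s
  have h2 := congrArg (fun F : CFun M => F.val 1) h1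
  change w ((1 : M) • x • x • s) = w ((1 : M) • x • s) at h2
  rwa [one_smul, one_smul] at h2

/-- the visible multiplicative maps -/
def vis (M S : Type) [Monoid M] [MulAction M S] (χ : M →* ℂ) : Prop :=
  ∃ v : S → ℂ, (∃ s, v s ≠ 0) ∧ ∀ (x : M) s, v (x • s) = χ x * v s

theorem vis_01 (h : CIdem M S) {χ : M →* ℂ} (hv : vis M S χ) (m : M) : χ m = 0 ∨ χ m = 1 := by
  obtain ⟨v, ⟨s, hs⟩, hv⟩ := hv
  have h1 := cidem_fun h v (fun a x y s => by simp only [hv]; ring) m s
  rw [hv, hv] at h1
  have h2 : χ m * (χ m - 1) * v s = 0 := by linear_combination h1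
  have h3 := (mul_eq_zero.1 h2).resolve_right hs
  rcases mul_eq_zero.1 h3 with h4 | h4
  · exact Or.inl h4
  · exact Or.inr (sub_eq_zero.1 h4)

theorem vis_w (h : CIdem M S) {χ : M →* ℂ} (hv : vis M S χ) (w : S → ℂ)
    (hw : ∀ (a b : M) s, w (a • b • s) - χ a * w (b • s) = χ b * (w (a • s) - χ a * w s))
    (x : M) (s : S) : w (x • s) = χ x * w s := by
  have hab : ∀ (a b : M) s, w (a • b • s) =
      χ a * w (b • s) + χ b * w (a • s) - χ a * χ b * w s := fun a b s => by
    linear_combination hw a b s
  have h1 := cidem_fun h w (fun a x y s => by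
    rw [hab a x (y • s), hab a y (x • s), hab x y, hab y x, hab a y s, hab a x s]
    ring) x s
  rw [hab] at h1
  rcases vis_01 h hv x with h2 | h2
  · rw [h2] at h1 ⊢
    linear_combination -h1
  · rw [h2] at h1 ⊢
    linear_combination h1

/-- the module of `S` -/
noncomputable def homS (M S : Type) [Monoid M] [MulAction M S] :
    M →* Module.End ℂ (S →₀ ℂ) where
  toFun x := Finsupp.lmapDomain ℂ ℂ (fun s => x • s)
  map_one' := by
    refine Finsupp.lhom_ext fun s c => ?_
    rw [Finsupp.lmapDomain_apply, Finsupp.mapDomain_single, one_smul]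
    rfl
  map_mul' x y := by
    refine Finsupp.lhom_ext fun s c => ?_
    rw [Module.End.mul_apply, Finsupp.lmapDomain_apply, Finsupp.lmapDomain_apply,
      Finsupp.lmapDomain_apply, Finsupp.mapDomain_single, Finsupp.mapDomain_single,
      Finsupp.mapDomain_single, mul_smul]

noncomputable def rhoS (M S : Type) [Monoid M] [MulAction M S] :
    MonoidAlgebra ℂ M →ₐ[ℂ] Module.End ℂ (S →₀ ℂ) :=
  MonoidAlgebra.lift ℂ (Module.End ℂ (S →₀ ℂ)) M (homS M S)

theorem rhoS_single (x : M) (s : S) (c : ℂ) :
    rhoS M S (MonoidAlgebra.single x 1) (Finsupp.single s c) = Finsupp.single (x • s) c := by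
  unfold rhoS
  rw [MonoidAlgebra.lift_single, one_smul]
  change Finsupp.lmapDomain ℂ ℂ (fun s => x • s) (Finsupp.single s c) = _
  rw [Finsupp.lmapDomain_apply, Finsupp.mapDomain_single]

/-- linear extension -/
theorem rho_char {χ : M →* ℂ} (w : (S →₀ ℂ) →ₗ[ℂ] ℂ)
    (hw : ∀ (x : M) s, w (Finsupp.single (x • s) 1) = χ x * w (Finsupp.single s 1))
    (a : MonoidAlgebra ℂ M) (n : S →₀ ℂ) :
    w (rhoS M S a n) = MonoidAlgebra.lift ℂ ℂ M χ a * w n := by
  -- linear in both
  have h1 : (rhoS M S).toLinearMap.compr₂ w =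
      (LinearMap.mul ℂ ℂ).compl₁₂ (MonoidAlgebra.lift ℂ ℂ M χ).toLinearMap w := by
    refine (MonoidAlgebra.basis M ℂ).ext fun x => ?_
    refine Finsupp.lhom_ext fun s c => ?_
    rw [MonoidAlgebra.basis_apply]
    change w (rhoS M S (MonoidAlgebra.single x 1) (Finsupp.single s c)) =
      MonoidAlgebra.lift ℂ ℂ M χ (MonoidAlgebra.single x 1) * w (Finsupp.single s c)
    rw [rhoS_single, MonoidAlgebra.lift_single, one_smul]
    have h2 : ∀ t : S, Finsupp.single t c = c • Finsupp.single t (1 : ℂ) := fun t => by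
      rw [Finsupp.smul_single, smul_eq_mul, mul_one]
    rw [h2, h2 s, map_smul, map_smul, hw, smul_eq_mul, smul_eq_mul]
    ring
  exact LinearMap.congr_fun (LinearMap.congr_fun h1 a) n

instance fin_hom : Finite (M →* ℂ) := (linearIndependent_monoidHom M ℂ).finite

noncomputable instance : Fintype (M →* ℂ) := Fintype.ofFinite _

/-- the characters of the algebra -/
noncomputable def ps (χ : M →* ℂ) : MonoidAlgebra ℂ M →ₐ[ℂ] ℂ := MonoidAlgebra.lift ℂ ℂ M χ

theorem ps_single (χ : M →* ℂ) (x : M) : ps χ (MonoidAlgebra.single x 1) = χ x := by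
  unfold ps
  rw [MonoidAlgebra.lift_single, one_smul]

theorem one_hnon {ε : Option (M →* ℂ) → MonoidAlgebra ℂ M} (hI : Idem ps ε) (χ : M →* ℂ)
    (hv : ¬ vis M S χ) : midN (rhoS M S) (1 - ε (some χ)) = ⊤ := by
  refine nonvis hI χ fun v hv' => ?_
  by_contra hne
  refine hv ⟨fun s => v (Finsupp.single s 1), ?_, fun x s => ?_⟩
  · by_contra hc
    push Not at hc
    refine hne (Finsupp.lhom_ext fun s c => ?_)
    have h2 : Finsupp.single s c = c • Finsupp.single s (1 : ℂ) := by
      rw [Finsupp.smul_single, smul_eq_mul, mul_one]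
    rw [h2, map_smul, hc, smul_zero]
    rfl
  · have h1 := hv' (MonoidAlgebra.single x 1) (Finsupp.single s 1)
    rw [rhoS_single, ps_single] at h1
    exact h1

theorem one_hvis {ε : Option (M →* ℂ) → MonoidAlgebra ℂ M} (hI : Idem ps ε) (h : CIdem M S)
    (χ : M →* ℂ) (hv : vis M S χ) :
    ∀ j ∈ radR (MonoidAlgebra ℂ M), ∀ n, rhoS M S j n ∈ midN (rhoS M S) (1 - ε (some χ)) := by
  refine visrad hI χ fun w hw => ?_
  refine rho_char w fun x s => ?_
  refine vis_w h hv (fun s => w (Finsupp.single s 1)) (fun a b s => ?_) x s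
  have h1 := hw (MonoidAlgebra.single a 1) (MonoidAlgebra.single b 1) (Finsupp.single s 1)
  rw [rhoS_single, rhoS_single, rhoS_single, ps_single, ps_single] at h1
  exact h1

end one

end Pool.Agent.H20.Mon.Act
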