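import Mathlib
import Pool.Agent.Lib_helper20.Mon.Rep

set_option autoImplicit false

/-! Commutative images of a finite monoid and its maps to the dual numbers. -/

namespace Pool.Agent.H20.Mon

open DualNumber

/-- all commutative images are semilattices: all values in the dual numbers are `0`, `1` -/
theorem dual01_of_idem {M : Type} [Monoid M]
    (h : ∀ (C : Type) [CommMonoid C] (φ : M →* C) (m : M), φ m * φ m = φ m) : Dual01 M := by
  intro φ m
  have h1 := h (DualNumber ℂ) φ m
  have h2 : (φ m).fst * (φ m).fst = (φ m).fst := by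
    have := congrArg TrivSqZeroExt.fst h1
    simpa using this
  have h3 : (φ m).fst * (φ m).snd + (φ m).fst * (φ m).snd = (φ m).snd := by
    have h5 : (φ m).fst * (φ m).snd + (φ m).snd * (φ m).fst = (φ m).snd := by
      have := congrArg TrivSqZeroExt.snd h1
      simpa using this
    linear_combination h5
  rcases (mul_self_eq_self_iff_of _ h2) with h4 | h4
  · left
    rw [h4] at h3
    ext
    · simpa using h4
    · simpa using h3.symm
  · right
    rw [h4] at h3
    ext
    · simpa using h4
    · have : (φ m).snd = 0 := by linear_combination h3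
      simpa using this
where
  mul_self_eq_self_iff_of (z : ℂ) (hz : z * z = z) : z = 0 ∨ z = 1 := by
    have : z * (z - 1) = 0 := by linear_combination hz
    rcases mul_eq_zero.1 this with h | h
    · exact Or.inl h
    · exact Or.inr (by linear_combination h)

section reg

variable {C : Type} [CommMonoid C]

/-- regular elements -/
def Reg (x : C) : Prop := x * x ∣ x

theorem Reg.mul {x y : C} (hx : Reg x) (hy : Reg y) : Reg (x * y) := by
  have h := mul_dvd_mul hx hy
  unfold Reg
  rwa [mul_mul_mul_comm] at h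

theorem reg_of_dvd {x y : C} (hx : Reg x) (h1 : x ∣ y) (h2 : y ∣ x) : Reg y :=
  (mul_dvd_mul h2 h2).trans (hx.trans h1)

/-- regular elements of a finite monoid are periodic -/
theorem Reg.periodic [Finite C] {x : C} (hx : Reg x) : ∃ k : ℕ, x ^ (k + 2) = x := by
  obtain ⟨y, hy⟩ := hx
  -- `x = x ^ (n + 1) * y ^ n`
  have h1 : ∀ n : ℕ, x = x ^ (n + 1) * y ^ n := by
    intro n
    induction n with
    | zero => simp
    | succ n ih =>
      calc x = x ^ (n + 1) * y ^ n := ih
        _ = x ^ n * x * y ^ n := by rw [pow_succ]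
        _ = x ^ n * (x * x * y) * y ^ n := by rw [← hy]
        _ = x ^ (n + 1 + 1) * y ^ (n + 1) := by
          rw [pow_succ, pow_succ, pow_succ y]
          simp only [mul_assoc, mul_comm, mul_left_comm]
  obtain ⟨a, b, hab, hne⟩ : ∃ a b : ℕ, a < b ∧ x ^ a = x ^ b := by
    obtain ⟨a, b, hab, h⟩ := Finite.exists_ne_map_eq_of_infinite (fun n : ℕ => x ^ n)
    rcases lt_or_gt_of_ne hab with h' | h'
    · exact ⟨a, b, h', h⟩
    · exact ⟨b, a, h', h.symm⟩
  -- `x ^ (b - a + 1) = x`
  have h2 : x ^ (b - a) * x = x := by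
    calc x ^ (b - a) * x = x ^ (b - a) * (x ^ (a + 1) * y ^ a) := by rw [← h1 a]
      _ = x ^ (b - a + a) * x * y ^ a := by
          rw [pow_succ, pow_add]; simp only [mul_assoc]
      _ = x ^ a * x * y ^ a := by
          rw [Nat.sub_add_cancel hab.le, ← hne]
      _ = x := by rw [← pow_succ, ← h1 a]
  refine ⟨b - a - 1, ?_⟩
  have : b - a - 1 + 2 = (b - a) + 1 := by omega
  rw [this, pow_succ, h2]

open Classical in
/-- a non-regular element gives a map to the dual numbers with the value `ε` -/
theorem exists_eps [Finite C] {c₀ : C} (hc₀ : ¬ Reg c₀) :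
    ∃ (φ : C →* DualNumber ℂ) (c : C), (φ c).snd ≠ 0 := by
  -- a maximal one
  obtain ⟨c, hc, hmax⟩ := Set.exists_max_image {x : C | ¬ Reg x} (fun x => Nat.card {y // x ∣ y})
    (Set.toFinite _) ⟨c₀, hc₀⟩
  have hc' : ¬ Reg c := hc
  have hmax' : ∀ x : C, ¬ Reg x → x ∣ c → c ∣ x := by
    intro x hx hxc
    have h1 := hmax x hx
    have hinj : Set.InjOn (fun y : C => y) {y | c ∣ y} := fun _ _ _ _ h => h
    by_contra hcon
    have hlt : Nat.card {y // c ∣ y} < Nat.card {y // x ∣ y} := by
      have hss : {y : C | c ∣ y} ⊂ {y : C | x ∣ y} := by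
        refine ⟨fun y hy => hxc.trans hy, fun h => hcon ?_⟩
        exact h (show x ∣ x from dvd_rfl)
      exact Set.ncard_lt_ncard hss (Set.toFinite _)
    omega
  let A : C → Prop := fun y => y * c ∣ c
  let B : C → Prop := fun y => ∃ x, A x ∧ x * y ∣ c ∧ c ∣ x * y
  have hA1 : A 1 := by simp [A]
  have hAmul : ∀ x y, A (x * y) ↔ A x ∧ A y := by
    intro x y
    constructor
    · intro h
      have h' : x * y * c ∣ c := h
      constructor
      · refine dvd_trans ?_ h'
        exact ⟨y, by ac_rfl⟩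
      · refine dvd_trans ?_ h'
        exact ⟨x, by ac_rfl⟩
    · rintro ⟨h1, h2⟩
      have h1' : x * c ∣ c := h1
      have h2' : y * c ∣ c := h2
      change x * y * c ∣ c
      calc x * y * c = x * (y * c) := by rw [mul_assoc]
        _ ∣ x * c := mul_dvd_mul_left x h2'
        _ ∣ c := h1'
  have hAB : ∀ y, A y → ¬ B y := by
    rintro y hy ⟨x, hx, h1, h2⟩
    apply hc'
    have h3 : x * y * c ∣ c := (hAmul x y).2 ⟨hx, hy⟩
    exact (mul_dvd_mul_right h2 c).trans h3
  have hABmul : ∀ x y, A x → (B (x * y) ↔ B y) := by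
    intro x y hx
    constructor
    · rintro ⟨w, hw, h1, h2⟩
      refine ⟨w * x, (hAmul w x).2 ⟨hw, hx⟩, ?_, ?_⟩
      · rwa [mul_assoc]
      · rwa [mul_assoc]
    · rintro ⟨w, hw, h1, h2⟩
      refine ⟨w, hw, ?_, ?_⟩
      · calc w * (x * y) = x * (w * y) := by ac_rfl
          _ ∣ x * c := mul_dvd_mul_left x h1
          _ ∣ c := hx
      · calc c ∣ w * y := h2
          _ ∣ w * (x * y) := ⟨x, by ac_rfl⟩
  have hBB : ∀ x y, ¬ A x → ¬ A y → ¬ B (x * y) := by
    rintro x y hx hy ⟨w, hw, h1, h2⟩
    have key : ∀ x y, ¬ A y → w * (x * y) ∣ c → c ∣ w * (x * y) → Reg (w * x) := by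
      intro x y hy h1 h2
      by_contra hcon
      have h3 : w * x ∣ c := dvd_trans ⟨y, by ac_rfl⟩ h1
      have h4 := hmax' _ hcon h3
      apply hy
      change y * c ∣ c
      calc y * c ∣ y * (w * x) := mul_dvd_mul_left y h4
        _ = w * (x * y) := by ac_rfl
        _ ∣ c := h1
    have r1 := key x y hy h1 h2
    have r2 := key y x hx (by rwa [mul_comm y x]) (by rwa [mul_comm y x])
    have r3 : Reg (w * (w * (x * y))) := by
      have := r1.mul r2
      have e : w * x * (w * y) = w * (w * (x * y)) := by ac_rfl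
      rwa [e] at this
    refine hc' (reg_of_dvd r3 ?_ ?_)
    · calc w * (w * (x * y)) ∣ w * c := mul_dvd_mul_left w h1
        _ ∣ c := hw
    · exact h2.trans ⟨w, by ac_rfl⟩
  have hBc : B c := ⟨1, hA1, by simp, by simp⟩
  let φ : C →* DualNumber ℂ :=
    { toFun := fun y => if A y then 1 else if B y then ε else 0
      map_one' := by simp [hA1]
      map_mul' := by
        intro x y
        by_cases hx : A x
        · by_cases hy : A y
          · rw [if_pos ((hAmul x y).2 ⟨hx, hy⟩), if_pos hx, if_pos hy, one_mul]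
          · have h1 : ¬ A (x * y) := fun h => hy ((hAmul x y).1 h).2
            rw [if_neg h1, if_pos hx, if_neg hy, one_mul]
            simp only [hABmul x y hx]
        · by_cases hy : A y
          · have h1 : ¬ A (x * y) := fun h => hx ((hAmul x y).1 h).1
            rw [if_neg h1, if_pos hy, if_neg hx, mul_one]
            have h2 : B (x * y) ↔ B x := by rw [mul_comm]; exact hABmul y x hy
            simp only [h2]
          · have h1 : ¬ A (x * y) := fun h => hx ((hAmul x y).1 h).1
            rw [if_neg h1, if_neg hx, if_neg hy, if_neg (hBB x y hx hy)]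
            split_ifs <;> simp [eps_mul_eps] }
  refine ⟨φ, c, ?_⟩
  have h1 : φ c = ε := by
    change (if A c then 1 else if B c then ε else 0) = _
    rw [if_neg (fun h => hAB c h hBc), if_pos hBc]
  rw [h1, snd_eps]
  exact one_ne_zero

/-- an element of a subgroup other than the identity: a character with a value not `0`, `1` -/
theorem exists_root [Finite C] {c : C} {k : ℕ} (hk : c ^ (k + 2) = c) (hc : c * c ≠ c) :
    ∃ χ : C →* ℂ, χ c ≠ 0 ∧ χ c ≠ 1 := by
  set e : C := c ^ (k + 1) with he
  have hec : e * c = c := by rw [he, ← pow_succ, hk]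
  have hee : e * e = e := by
    calc e * e = c ^ (k + 2) * c ^ k := by rw [he, ← pow_add, ← pow_add]; congr 1; omega
      _ = e := by rw [hk, he, pow_succ, mul_comm]
  let inst : CommMonoid {x : C // e * x = x} :=
    { mul := fun x y => ⟨x.1 * y.1, by rw [← mul_assoc, x.2]⟩
      one := ⟨e, hee⟩
      mul_assoc := fun x y z => Subtype.ext (mul_assoc _ _ _)
      one_mul := fun x => Subtype.ext x.2
      mul_one := fun x => Subtype.ext ((mul_comm _ _).trans x.2)
      mul_comm := fun x y => Subtype.ext (mul_comm _ _) }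
  have hval : ∀ x y : {x : C // e * x = x}, (x * y).1 = x.1 * y.1 := fun _ _ => rfl
  have hone : (1 : {x : C // e * x = x}).1 = e := rfl
  let c' : {x : C // e * x = x} := ⟨c, hec⟩
  have hpow : ∀ n : ℕ, (c' ^ (n + 1)).1 = c ^ (n + 1) := by
    intro n
    induction n with
    | zero => simp [c']
    | succ n ih => rw [pow_succ, hval, ih, ← pow_succ]
  have hunit : IsUnit c' := by
    have h1 : c' ^ (k + 1) = 1 := Subtype.ext (by rw [hpow, hone])
    exact IsUnit.of_pow_eq_one h1 (Nat.succ_ne_zero k)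
  have hne : c' ≠ 1 := by
    intro h
    have h1 : c = e := by
      have := congrArg Subtype.val h
      exact this
    apply hc
    calc c * c = e * c := by rw [← h1]
      _ = c := hec
  obtain ⟨χ, hχ⟩ := MulChar.exists_apply_ne_one_of_hasEnoughRootsOfUnity
    {x : C // e * x = x} ℂ hne
  refine ⟨{ toFun := fun x => χ ⟨e * x, by rw [← mul_assoc, hee]⟩
            map_one' := ?_
            map_mul' := ?_ }, ?_, ?_⟩
  · have : (⟨e * 1, by rw [← mul_assoc, hee]⟩ : {x : C // e * x = x}) = 1 :=
      Subtype.ext (mul_one e)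
    rw [this, map_one]
  · intro x y
    rw [← map_mul]
    congr 1
    refine Subtype.ext ?_
    rw [hval]
    calc e * (x * y) = (e * e) * (x * y) := by rw [hee]
      _ = e * x * (e * y) := by ac_rfl
  · have : (⟨e * c, by rw [← mul_assoc, hee]⟩ : {x : C // e * x = x}) = c' := Subtype.ext hec
    change χ ⟨e * c, _⟩ ≠ 0
    rw [this]
    exact (hunit.map χ).ne_zero
  · have : (⟨e * c, by rw [← mul_assoc, hee]⟩ : {x : C // e * x = x}) = c' := Subtype.ext hec
    change χ ⟨e * c, _⟩ ≠ 1
    rw [this]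
    exact hχ

end reg

/-- Case 2 -/
theorem exists_eps_of {M : Type} [Monoid M] [Finite M] {C : Type} [CommMonoid C] (φ : M →* C)
    (m : M) (h : ∀ k : ℕ, φ m ^ (k + 2) ≠ φ m) :
    ∃ (ψ : M →* DualNumber ℂ) (m' : M), (ψ m').snd ≠ 0 := by
  have hfin : Finite (MonoidHom.mrange φ) := by
    have : (MonoidHom.mrange φ : Set C).Finite := by
      rw [MonoidHom.coe_mrange]; exact Set.finite_range φ
    exact this
  have hr : ¬ Reg (φ.mrangeRestrict m) := by
    intro hr
    obtain ⟨k, hk⟩ := hr.periodic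
    exact h k (congrArg Subtype.val hk)
  obtain ⟨ψ, c, hc⟩ := exists_eps hr
  obtain ⟨m', hm'⟩ := φ.mrangeRestrict_surjective c
  exact ⟨ψ.comp φ.mrangeRestrict, m', by simpa [hm'] using hc⟩

/-- Case 3 -/
theorem exists_root_of {M : Type} [Monoid M] [Finite M] {C : Type} [CommMonoid C] (φ : M →* C)
    (m : M) {k : ℕ} (hk : φ m ^ (k + 2) = φ m) (hm : φ m * φ m ≠ φ m) :
    ∃ (χ : M →* ℂ) (m' : M) (p : ℕ), p.Prime ∧ p ∣ k + 1 ∧ IsPrimitiveRoot (χ m') p := by
  have hfin : Finite (MonoidHom.mrange φ) := by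
    have : (MonoidHom.mrange φ : Set C).Finite := by
      rw [MonoidHom.coe_mrange]; exact Set.finite_range φ
    exact this
  obtain ⟨χ, h0, h1⟩ := exists_root (c := φ.mrangeRestrict m) (k := k) (Subtype.ext hk)
    (fun h => hm (congrArg Subtype.val h))
  set z : ℂ := χ (φ.mrangeRestrict m) with hz
  have hzk : z ^ (k + 1) = 1 := by
    have h2 : z ^ (k + 2) = z := by
      rw [hz, ← map_pow]
      congr 1
      exact Subtype.ext hk
    have h3 : z * (z ^ (k + 1) - 1) = 0 := by
      rw [mul_sub, mul_one, ← pow_succ', h2, sub_self]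
    rcases mul_eq_zero.1 h3 with h | h
    · exact absurd h h0
    · exact sub_eq_zero.1 h
  have hord : orderOf z ≠ 1 := by
    rw [Ne, orderOf_eq_one_iff]; exact h1
  obtain ⟨p, hp, hpd⟩ := Nat.exists_prime_and_dvd hord
  have hpk : p ∣ k + 1 := hpd.trans (orderOf_dvd_of_pow_eq_one hzk)
  obtain ⟨d, hd⟩ := hpd
  have hpos : 0 < orderOf z := orderOf_pos_iff.2 (isOfFinOrder_iff_pow_eq_one.2 ⟨k + 1, by omega, hzk⟩)
  have hprim : IsPrimitiveRoot z (orderOf z) := IsPrimitiveRoot.orderOf z
  refine ⟨χ.comp φ.mrangeRestrict, m ^ d, p, hp, hpk, ?_⟩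
  have h5 : (χ.comp φ.mrangeRestrict) (m ^ d) = z ^ d := by rw [map_pow]; rfl
  rw [h5]
  exact hprim.pow hpos (by rw [hd, mul_comm])

end Pool.Agent.H20.Mon
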