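import Mathlib
import Pool.Agent.Lib_helper20.Mon.Semi
import Pool.Agent.Lib_helper10.Meet.Final

set_option autoImplicit false
set_option linter.unusedSectionVars false

/-! The log-rank conjecture for finite monoids acting coordinatewise. -/

namespace Pool.Agent.H20.Mon

open Module Pool.Agent.Lib_helper10.LogRank

section ext

variable {α κ : Type} [Fintype α]

theorem finrank_complex_le (v : κ → α → ℝ) :
    finrank ℂ (Submodule.span ℂ (Set.range fun k => fun a => ((v k a : ℝ) : ℂ))) ≤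
      finrank ℝ (Submodule.span ℝ (Set.range v)) := by
  set N := Submodule.span ℝ (Set.range v) with hN
  let b := Module.finBasis ℝ N
  have hsub : Submodule.span ℂ (Set.range fun k => fun a => ((v k a : ℝ) : ℂ)) ≤
      Submodule.span ℂ (Set.range fun j : Fin (finrank ℝ N) => fun a => (((b j : N) : α → ℝ) a : ℂ)) := by
    refine Submodule.span_le.2 ?_
    rintro _ ⟨k, rfl⟩
    have hk : v k ∈ N := Submodule.subset_span ⟨k, rfl⟩
    have h1 := b.sum_repr ⟨v k, hk⟩
    have h2 : (fun a => ((v k a : ℝ) : ℂ)) =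
        ∑ j, ((b.repr ⟨v k, hk⟩ j : ℝ) : ℂ) • fun a => (((b j : N) : α → ℝ) a : ℂ) := by
      funext a
      have h3 := congrArg (fun w : N => (w : α → ℝ) a) h1
      simp only [Submodule.coe_sum, Finset.sum_apply, Submodule.coe_smul, Pi.smul_apply,
        smul_eq_mul] at h3
      rw [Finset.sum_apply]
      simp only [Pi.smul_apply, smul_eq_mul]
      rw [← h3]
      push_cast
      rfl
    change (fun a => ((v k a : ℝ) : ℂ)) ∈ _
    rw [h2]
    exact Submodule.sum_mem _ fun j _ => Submodule.smul_mem _ _ (Submodule.subset_span ⟨j, rfl⟩)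
  refine (Submodule.finrank_mono hsub).trans ?_
  refine (finrank_range_le_card _).trans ?_
  rw [Fintype.card_fin]

theorem finrank_real_le (v : κ → α → ℝ) :
    finrank ℝ (Submodule.span ℝ (Set.range v)) ≤
      finrank ℂ (Submodule.span ℂ (Set.range fun k => fun a => ((v k a : ℝ) : ℂ))) := by
  classical
  obtain ⟨T, hT1, hT2, hT3, hT4⟩ :=
    Submodule.exists_finset_span_eq_linearIndepOn ℝ (Set.range v)
  have hli : LinearIndependent ℝ (fun w : T => (w : α → ℝ)) := hT4
  have hliC : LinearIndependent ℂ (fun w : T => fun a => (((w : α → ℝ) a : ℝ) : ℂ)) := by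
    rw [Fintype.linearIndependent_iff] at hli ⊢
    intro c hc
    have hre : ∑ w : T, (c w).re • (w : α → ℝ) = 0 := by
      funext a
      have h1 := congrArg Complex.re (congrFun hc a)
      simp only [Finset.sum_apply, Pi.smul_apply, smul_eq_mul, Pi.zero_apply, Complex.zero_re,
        Complex.re_sum, Complex.mul_re, Complex.ofReal_re, Complex.ofReal_im, mul_zero,
        sub_zero] at h1
      simpa only [Finset.sum_apply, Pi.smul_apply, smul_eq_mul, Pi.zero_apply] using h1
    have him : ∑ w : T, (c w).im • (w : α → ℝ) = 0 := by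
      funext a
      have h1 := congrArg Complex.im (congrFun hc a)
      simp only [Finset.sum_apply, Pi.smul_apply, smul_eq_mul, Pi.zero_apply, Complex.zero_im,
        Complex.im_sum, Complex.mul_im, Complex.ofReal_re, Complex.ofReal_im, mul_zero,
        zero_add] at h1
      simpa only [Finset.sum_apply, Pi.smul_apply, smul_eq_mul, Pi.zero_apply] using h1
    intro w
    exact Complex.ext (hli _ hre w) (hli _ him w)
  have h1 := finrank_span_eq_card hliC
  rw [Fintype.card_coe] at h1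
  have h2 : finrank ℝ (Submodule.span ℝ (Set.range v)) = T.card := hT2.symm
  rw [h2, ← h1]
  refine Submodule.finrank_mono (Submodule.span_mono ?_)
  rintro _ ⟨w, rfl⟩
  obtain ⟨k, hk⟩ := hT1 w.2
  exact ⟨k, by simp only [hk]⟩

end ext

section act

variable {ι : Type} [Fintype ι] [DecidableEq ι] {M S : ι → Type} [∀ i, Monoid (M i)]
  [∀ i, Fintype (M i)] [∀ i, Fintype (S i)] [∀ i, MulAction (M i) (S i)]

/-- the function computed -/
def Fn (h : (∀ i, S i) → Bool) (x : ∀ i, M i) (s : ∀ i, S i) : Bool := h (fun i => x i • s i)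

/-- column as a complex function -/
noncomputable def colC (h : (∀ i, S i) → Bool) (s : ∀ i, S i) (x : ∀ i, M i) : ℂ :=
  (((if Fn h x s = true then (1 : ℝ) else 0) : ℝ) : ℂ)

/-- the space spanned by the columns -/
noncomputable def VV (M : ι → Type) [∀ i, Monoid (M i)] [∀ i, MulAction (M i) (S i)]
    (h : (∀ i, S i) → Bool) : Submodule ℂ ((∀ i, M i) → ℂ) :=
  Submodule.span ℂ (Set.range (colC (M := M) h))

/-- right translation -/
def tr (z : ∀ i, M i) : ((∀ i, M i) → ℂ) →ₗ[ℂ] ((∀ i, M i) → ℂ) :=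
  LinearMap.funLeft ℂ ℂ (fun x => x * z)

theorem tr_apply (z : ∀ i, M i) (f : (∀ i, M i) → ℂ) (x : ∀ i, M i) : tr z f x = f (x * z) := rfl

theorem tr_colC (h : (∀ i, S i) → Bool) (z : ∀ i, M i) (s : ∀ i, S i) :
    tr z (colC h s) = colC (M := M) h (fun i => z i • s i) := by
  funext x
  rw [tr_apply]
  unfold colC Fn
  have : (fun i => (x * z) i • s i) = fun i => x i • z i • s i := by
    funext i
    rw [Pi.mul_apply, mul_smul]
  rw [this]

theorem tr_mem (h : (∀ i, S i) → Bool) (z : ∀ i, M i) : ∀ f ∈ VV M h, tr z f ∈ VV M h := by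
  intro f hf
  unfold VV at hf ⊢
  induction hf using Submodule.span_induction with
  | mem f hf =>
    obtain ⟨s, rfl⟩ := hf
    rw [tr_colC]
    exact Submodule.subset_span ⟨_, rfl⟩
  | zero => rw [map_zero]; exact Submodule.zero_mem _
  | add f g _ _ hf hg => rw [map_add]; exact Submodule.add_mem _ hf hg
  | smul c f _ hf => rw [map_smul]; exact Submodule.smul_mem _ _ hf

/-- the representation -/
noncomputable def rho (h : (∀ i, S i) → Bool) : (∀ i, M i) →* End ℂ (VV M h) where
  toFun z := (tr z).restrict (tr_mem h z)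
  map_one' := by
    ext f x
    change tr 1 f.1 x = f.1 x
    rw [tr_apply, mul_one]
  map_mul' z z' := by
    ext f x
    change tr (z * z') f.1 x = tr z (tr z' f.1) x
    rw [tr_apply, tr_apply, tr_apply, mul_assoc]

theorem rho_apply (h : (∀ i, S i) → Bool) (z : ∀ i, M i) (f : VV M h) (x : ∀ i, M i) :
    (rho h z f).1 x = f.1 (x * z) := rfl

theorem finrank_VV (h : (∀ i, S i) → Bool) :
    finrank ℂ (VV M h) ≤ realRank (fun (x : ∀ i, M i) (s : ∀ i, S i) => Fn h x s) := by
  have h1 := finrank_complex_le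
    (fun (s : ∀ i, S i) (x : ∀ i, M i) => if Fn h x s = true then (1 : ℝ) else 0)
  unfold realRank
  rw [Matrix.rank_eq_finrank_span_cols]
  exact h1

/-- letters as elements of the information semilattice -/
noncomputable def can' (u : ∀ i, Inf (M i)) : ∀ i, M i := fun i => can (u i)

theorem big_rank (h01 : ∀ i, Dual01 (M i)) (κ : ℕ) (hκ : ∀ i, Fintype.card (M i) ≤ 2 ^ κ)
    (h : (∀ i, S i) → Bool) :
    realRank (fun (u : ∀ i, Inf (M i)) (p : (∀ i, S i) × (∀ i, Inf (M i))) =>
      Fn h (can' (u ⊓ p.2)) p.1) ≤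
      realRank (fun (x : ∀ i, M i) (s : ∀ i, S i) => Fn h x s) ^ (2 * κ + 7) := by
  classical
  set r := realRank (fun (x : ∀ i, M i) (s : ∀ i, S i) => Fn h x s) with hr
  have hV : finrank ℂ (VV M h) ≤ r := finrank_VV h
  have : ∀ i, Finite (M i →* ℂ) := fun i => (h01 i).finite
  have : ∀ i, Fintype (M i →* ℂ) := fun i => Fintype.ofFinite _
  let ψ : ∀ i, (M i →* ℂ) → (MonoidAlgebra ℂ (M i) →ₐ[ℂ] ℂ) := fun i χ =>
    MonoidAlgebra.lift ℂ ℂ (M i) χ
  have hψi : ∀ i, Function.Injective (ψ i) := fun i => (MonoidAlgebra.lift ℂ ℂ (M i)).injective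
  choose ε hε using fun i => exists_idem (ψ i) (hψi i)
  obtain ⟨K, T, hK1, hK2, hK3, hK4⟩ := structure_thm (X := fun i => (M i →* ℂ)) (mext (rho h))
    (mext_mult (rho h)) ψ ε hε
    (fun i χ => (MonoidAlgebra.lift ℂ ℂ (M i)).surjective χ)
    (fun i χ d hd => (h01 i).deriv χ d hd)
  let cu : Ty (fun i => (M i →* ℂ)) → ∀ i, Inf (M i) → ℂ := fun τ i w =>
    if i ∈ exc τ then 1 else cv (ψ i) (τ i).1 (MonoidAlgebra.single (can w) 1)
  have hcu : ∀ τ i (w w' : Inf (M i)), cu τ i (w ⊓ w') = cu τ i w * cu τ i w' := by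
    intro τ i w w'
    simp only [cu]
    split_ifs with hi
    · rw [mul_one]
    · cases hτ : (τ i).1 with
      | none => simp [cv]
      | some χ =>
        have e1 : ∀ w, cv (ψ i) (some χ) (MonoidAlgebra.single (can w) 1) = χ (can w) := by
          intro w
          change MonoidAlgebra.lift ℂ ℂ (M i) χ (MonoidAlgebra.single (can w) 1) = _
          rw [MonoidAlgebra.lift_single, one_smul]
        rw [e1, e1, e1, char_can_inf (h01 i)]
  let J : Type := Σ τ : K, (∀ i : exc τ.1, Inf (M i))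
  let b : J → (∀ i, Inf (M i)) → ℂ := fun j u =>
    (∏ i, cu j.1.1 i (u i)) * (if ∀ i : exc j.1.1, u i = j.2 i then 1 else 0)
  have hcol : ∀ p : (∀ i, S i) × (∀ i, Inf (M i)),
      (fun u : ∀ i, Inf (M i) =>
        (((if Fn h (can' (u ⊓ p.2)) p.1 = true then (1 : ℝ) else 0) : ℝ) : ℂ)) ∈
        Submodule.span ℂ (Set.range b) := by
    rintro ⟨s, v⟩
    let g : VV M h := ⟨colC h s, Submodule.subset_span ⟨s, rfl⟩⟩
    let G : Ty (fun i => (M i →* ℂ)) → (∀ i, Inf (M i)) → ℂ := fun τ u =>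
      ((T τ (fun i => MonoidAlgebra.single (can' (u ⊓ v) i) 1)) g).1 1
    have hG : ∀ τ u u', (∀ i ∈ exc τ, u i = u' i) → G τ u = G τ u' := by
      intro τ u u' huu
      simp only [G]
      rw [hK3 τ _ _ (fun i hi => ?_)]
      change MonoidAlgebra.single (can (u i ⊓ v i)) 1 = MonoidAlgebra.single (can (u' i ⊓ v i)) 1
      rw [huu i hi]
    have hval : ∀ u : ∀ i, Inf (M i),
        (((if Fn h (can' (u ⊓ v)) s = true then (1 : ℝ) else 0) : ℝ) : ℂ) =
        ∑ τ ∈ K, ((∏ i, cu τ i (v i)) * ∏ i, cu τ i (u i)) * G τ u := by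
      intro u
      have h1 : (((if Fn h (can' (u ⊓ v)) s = true then (1 : ℝ) else 0) : ℝ) : ℂ) =
          (rho h (can' (u ⊓ v)) g).1 1 := by
        rw [rho_apply, one_mul]
        rfl
      rw [h1, ← mext_single (rho h) (can' (u ⊓ v)), hK4]
      rw [LinearMap.sum_apply, Submodule.coe_sum, Finset.sum_apply]
      refine Finset.sum_congr rfl fun τ _ => ?_
      rw [LinearMap.smul_apply, Submodule.coe_smul, Pi.smul_apply, smul_eq_mul]
      congr 1
      rw [← Finset.prod_mul_distrib]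
      refine Finset.prod_congr rfl fun i _ => ?_
      rw [mul_comm, ← hcu]
      rfl
    have hfun : (fun u : ∀ i, Inf (M i) =>
        (((if Fn h (can' (u ⊓ v)) s = true then (1 : ℝ) else 0) : ℝ) : ℂ)) =
        ∑ j : J, ((∏ i, cu j.1.1 i (v i)) *
          G j.1.1 (fun i => if hi : i ∈ exc j.1.1 then j.2 ⟨i, hi⟩ else nol)) • b j := by
      funext u
      rw [hval u, Finset.sum_apply, Fintype.sum_sigma, ← Finset.sum_coe_sort K]
      refine Finset.sum_congr rfl fun τ _ => ?_
      rw [Finset.sum_eq_single (fun i : exc τ.1 => u i)]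
      · simp only [b, Pi.smul_apply, smul_eq_mul]
        have e1 : G τ.1 (fun i => if hi : i ∈ exc τ.1 then u i else nol) = G τ.1 u := by
          refine hG _ _ _ fun i hi => ?_
          rw [dif_pos hi]
        rw [e1]
        simp only [implies_true, if_true]
        ring
      · intro w _ hw
        simp only [b, Pi.smul_apply, smul_eq_mul]
        rw [if_neg, mul_zero, mul_zero]
        intro h1
        exact hw (funext fun i => (h1 i).symm)
      · intro h1; exact absurd (Finset.mem_univ _) h1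
    change (fun u : ∀ i, Inf (M i) =>
        (((if Fn h (can' (u ⊓ v)) s = true then (1 : ℝ) else 0) : ℝ) : ℂ)) ∈ _
    rw [hfun]
    exact Submodule.sum_mem _ fun j _ => Submodule.smul_mem _ _ (Submodule.subset_span ⟨j, rfl⟩)
  have h1 := finrank_real_le
    (fun (p : (∀ i, S i) × (∀ i, Inf (M i))) (u : ∀ i, Inf (M i)) =>
      if Fn h (can' (u ⊓ p.2)) p.1 = true then (1 : ℝ) else 0)
  have h2 : realRank (fun (u : ∀ i, Inf (M i)) (p : (∀ i, S i) × (∀ i, Inf (M i))) =>
      Fn h (can' (u ⊓ p.2)) p.1) ≤ Fintype.card J := by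
    unfold realRank
    rw [Matrix.rank_eq_finrank_span_cols]
    refine le_trans h1 (le_trans (Submodule.finrank_mono (Submodule.span_le.2 ?_))
      (finrank_range_le_card b))
    rintro _ ⟨p, rfl⟩
    exact hcol p
  refine h2.trans ?_
  have hpow : ∀ a b : ℕ, a ≤ b → ∀ n, a ^ n ≤ b ^ n := fun a b hab n => Nat.pow_le_pow_left hab n
  have hJ : Fintype.card J = ∑ τ : K, ∏ i : exc τ.1, Fintype.card (Inf (M i)) := by
    simp only [J, Fintype.card_sigma, Fintype.card_pi]
  have hprod : ∀ τ : K, ∏ i : exc τ.1, Fintype.card (Inf (M i)) ≤ r ^ (2 * κ + 4) := by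
    intro τ
    calc ∏ i : exc τ.1, Fintype.card (Inf (M i)) ≤ ∏ _i : exc τ.1, 2 ^ (κ + 2) := by
          refine Finset.prod_le_prod' fun i _ => (card_Inf (h01 i)).trans ?_
          calc 4 * Fintype.card (M i) ≤ 4 * 2 ^ κ := Nat.mul_le_mul le_rfl (hκ i)
            _ = 2 ^ (κ + 2) := by rw [pow_add]; ring
      _ = (2 ^ (exc τ.1).card) ^ (κ + 2) := by
          rw [Finset.prod_const, Finset.card_univ, Fintype.card_coe, ← pow_mul, ← pow_mul,
            mul_comm]
      _ ≤ (finrank ℂ (VV M h) ^ 2) ^ (κ + 2) := hpow _ _ (hK2 τ.1 τ.2) _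
      _ ≤ (r ^ 2) ^ (κ + 2) := hpow _ _ (hpow _ _ hV _) _
      _ = r ^ (2 * κ + 4) := by
          have e1 : 2 * (κ + 2) = 2 * κ + 4 := by omega
          rw [← pow_mul, e1]
  rw [hJ]
  calc ∑ τ : K, ∏ i : exc τ.1, Fintype.card (Inf (M i)) ≤ ∑ _τ : K, r ^ (2 * κ + 4) :=
        Finset.sum_le_sum fun τ _ => hprod τ
    _ = K.card * r ^ (2 * κ + 4) := by
        rw [Finset.sum_const, Finset.card_univ, Fintype.card_coe, smul_eq_mul]
    _ ≤ r ^ 3 * r ^ (2 * κ + 4) := Nat.mul_le_mul (hK1.trans (hpow _ _ hV _)) le_rfl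
    _ = r ^ (2 * κ + 7) := by
        have e1 : 3 + (2 * κ + 4) = 2 * κ + 7 := by omega
        rw [← pow_add, e1]

theorem main1 (h01 : ∀ i, Dual01 (M i)) (κ : ℕ) (hκ : ∀ i, Fintype.card (M i) ≤ 2 ^ κ)
    (h : (∀ i, S i) → Bool) :
    ∃ π : Protocol (∀ i, M i) (∀ i, S i), (∀ x s, π.eval x s = h (fun i => x i • s i)) ∧
      (π.cost : ℝ) ≤ 10 ^ 6 * ((1 + κ) * (1 + Real.logb 2
        (realRank fun (x : ∀ i, M i) (s : ∀ i, S i) => h (fun i => x i • s i)))) ^ 5 := by
  classical
  set r := realRank (fun (x : ∀ i, M i) (s : ∀ i, S i) => h (fun i => x i • s i)) with hr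
  have hlog : 0 ≤ Real.logb 2 (r : ℝ) := by
    rcases Nat.eq_zero_or_pos r with h0 | h0
    · rw [h0, Nat.cast_zero, Real.logb_zero]
    · exact Real.logb_nonneg (by norm_num) (by exact_mod_cast h0)
  by_cases hne : ∃ s : ∀ i, S i, h s = true
  · obtain ⟨s₀, hs₀⟩ := hne
    have hcan : ∀ x : ∀ i, M i, can' (fun i => let1 (x i)) = x := fun x => by
      funext i
      exact can_let1 (x i)
    obtain ⟨π, hπ1, hπ2⟩ := Pool.Agent.Lib_helper10.Meet.logRank_meetSemilattice
      (∀ i, Inf (M i)) (∀ i, S i) (fun s u => Fn h (can' u) s)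
      ⟨s₀, fun i => let1 1, by
        rw [hcan]
        unfold Fn
        have : (fun i => (1 : M i) • s₀ i) = s₀ := by funext i; exact one_smul _ _
        rw [this]
        exact hs₀⟩
    refine ⟨Pool.Agent.Lib_helper10.AndRank.comapProt (fun x i => let1 (x i))
      (fun s => (s, fun _ => nol)) π, fun x s => ?_, ?_⟩
    · rw [Pool.Agent.Lib_helper10.AndRank.comapProt_eval, hπ1]
      have h1 : ((fun i => let1 (x i)) ⊓ (fun _ => nol) : ∀ i, Inf (M i)) =
          fun i => let1 (x i) := by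
        funext i
        exact let1_inf (x i)
      change Fn h (can' ((fun i => let1 (x i)) ⊓ (fun _ => nol) : ∀ i, Inf (M i))) s = _
      rw [h1, hcan]
      rfl
    · rw [Pool.Agent.Lib_helper10.AndRank.comapProt_cost]
      refine hπ2.trans ?_
      have hb := big_rank h01 κ hκ h
      set R := realRank (fun (u : ∀ i, Inf (M i)) (p : (∀ i, S i) × (∀ i, Inf (M i))) =>
        Fn h (can' (u ⊓ p.2)) p.1) with hR
      have hb' : R ≤ r ^ (2 * κ + 7) := hb
      have hlogR : Real.logb 2 (R : ℝ) ≤ (2 * κ + 7) * Real.logb 2 (r : ℝ) := by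
        rcases Nat.eq_zero_or_pos R with h0 | h0
        · rw [h0, Nat.cast_zero, Real.logb_zero]
          positivity
        · have h2 : (R : ℝ) ≤ (r : ℝ) ^ (2 * κ + 7) := by exact_mod_cast hb'
          have h3 : (0 : ℝ) < R := by exact_mod_cast h0
          calc Real.logb 2 (R : ℝ) ≤ Real.logb 2 ((r : ℝ) ^ (2 * κ + 7)) :=
                Real.logb_le_logb_of_le (by norm_num) h3 h2
            _ = (2 * κ + 7) * Real.logb 2 (r : ℝ) := by
                rw [Real.logb_pow]; push_cast; ring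
      have hlogR0 : 0 ≤ Real.logb 2 (R : ℝ) := by
        rcases Nat.eq_zero_or_pos R with h0 | h0
        · rw [h0, Nat.cast_zero, Real.logb_zero]
        · exact Real.logb_nonneg (by norm_num) (by exact_mod_cast h0)
      have h4 : 1 + Real.logb 2 (R : ℝ) ≤ 7 * ((1 + κ) * (1 + Real.logb 2 (r : ℝ))) := by
        have hk : (0 : ℝ) ≤ κ := Nat.cast_nonneg κ
        nlinarith [mul_nonneg hk hlog]
      have h5 : (1 + Real.logb 2 (R : ℝ)) ^ 5 ≤
          (7 * ((1 + κ) * (1 + Real.logb 2 (r : ℝ)))) ^ 5 :=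
        pow_le_pow_left₀ (by linarith) h4 5
      have h6 : (0 : ℝ) ≤ ((1 + κ) * (1 + Real.logb 2 (r : ℝ))) ^ 5 := by positivity
      rw [mul_pow] at h5
      calc 40 * (1 + Real.logb 2 (R : ℝ)) ^ 5 ≤
            40 * (7 ^ 5 * ((1 + κ) * (1 + Real.logb 2 (r : ℝ))) ^ 5) := by linarith
        _ ≤ 10 ^ 6 * ((1 + κ) * (1 + Real.logb 2 (r : ℝ))) ^ 5 := by nlinarith
  · push Not at hne
    refine ⟨Protocol.leaf false, fun x s => ?_, ?_⟩
    · have := hne (fun i => x i • s i)
      rw [Bool.eq_false_iff.2 this]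
      rfl
    · have h6 : (0 : ℝ) ≤ ((1 + κ) * (1 + Real.logb 2 (r : ℝ))) ^ 5 := by positivity
      have h7 : ((Protocol.leaf false : Protocol (∀ i, M i) (∀ i, S i)).cost : ℝ) = 0 := by
        simp [Protocol.cost]
      rw [h7]
      positivity

end act

end Pool.Agent.H20.Mon
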