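import Mathlib
import Pool.Agent.Lib_helper20.Mon.ModKey
import Pool.Agent.Lib_helper20.Mon.Struct

set_option autoImplicit false
set_option linter.unusedSectionVars false

/-! The structure theorem for quotients of products of modules. -/

namespace Pool.Agent.H20.Mon

open Module

section one

variable {R : Type} [Ring R] [Algebra ℂ R] [Module.Finite ℂ R] {N : Type} [AddCommGroup N]
  [Module ℂ N] {ρ : R →ₐ[ℂ] Module.End ℂ N}

open Classical in
theorem exists_decN {X : Type} [Fintype X] {ψ : X → (R →ₐ[ℂ] ℂ)} {ε : Option X → R}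
    (h : Idem ψ ε) (x : X) {y : N} (hy : y ∈ midN ρ (1 - ε (some x))) :
    ∃ g : Option X → N, (∀ q, g q ∈ midN ρ (ε (some x)) ∧ g q ∈ midN ρ (ε q)) ∧
      ρ (ε (some x)) y = ∑ q ∈ Finset.univ.erase (some x), g q := by
  unfold midN at hy
  induction hy using Submodule.span_induction with
  | mem y hy =>
    obtain ⟨a, n, rfl⟩ := hy
    refine ⟨fun q => ρ (ε (some x) * a * ε q) n, fun q => ⟨?_, ?_⟩, ?_⟩
    · have h1 : ρ (ε (some x) * a * ε q) n = ρ (1 * ε (some x)) (ρ (a * ε q) n) := by
        rw [one_mul, mul_assoc, map_mul]; rfl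
      change ρ (ε (some x) * a * ε q) n ∈ _
      rw [h1]
      exact mem_midN _ _ _
    · exact mem_midN _ _ _
    · have h1 : (1 : R) - ε (some x) = ∑ q ∈ Finset.univ.erase (some x), ε q := by
        rw [← h.coi.complete, ← Finset.add_sum_erase Finset.univ ε (Finset.mem_univ (some x))]
        abel
      have h2 : ρ (ε (some x)) (ρ (a * (1 - ε (some x))) n) =
          ρ (ε (some x) * a * (1 - ε (some x))) n := by
        rw [mul_assoc, map_mul ρ (ε (some x))]; rfl
      rw [h2, h1, Finset.mul_sum, map_sum, LinearMap.sum_apply]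
  | zero =>
    exact ⟨fun _ => 0, fun q => ⟨Submodule.zero_mem _, Submodule.zero_mem _⟩, by simp⟩
  | add s t _ _ hs ht =>
    obtain ⟨g, hg1, hg2⟩ := hs
    obtain ⟨g', hg1', hg2'⟩ := ht
    refine ⟨fun q => g q + g' q, fun q => ⟨Submodule.add_mem _ (hg1 q).1 (hg1' q).1,
      Submodule.add_mem _ (hg1 q).2 (hg1' q).2⟩, ?_⟩
    rw [Finset.sum_add_distrib, ← hg2, ← hg2', map_add]
  | smul c s _ hs =>
    obtain ⟨g, hg1, hg2⟩ := hs
    refine ⟨fun q => c • g q, fun q => ⟨Submodule.smul_mem _ _ (hg1 q).1,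
      Submodule.smul_mem _ _ (hg1 q).2⟩, ?_⟩
    rw [← Finset.smul_sum, ← hg2, map_smul]

open Classical in
/-- decomposition of a vector into types -/
theorem exists_typesN {X : Type} [Fintype X] {ψ : X → (R →ₐ[ℂ] ℂ)} {ε : Option X → R}
    (h : Idem ψ ε) (vis : X → Prop)
    (hvis : ∀ x, vis x → ∀ j ∈ radR R, ∀ n, ρ j n ∈ midN ρ (1 - ε (some x)))
    (hnon : ∀ x, ¬ vis x → midN ρ (1 - ε (some x)) = ⊤) (z : R) (n : N) :
    ∃ β : Option X → Option X → Option X → N, ρ z n = ∑ p, ∑ q, ∑ p', β p q p' ∧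
      (∀ p q p', β p q p' ∈ midN ρ (ε p) ∧ β p q p' ∈ midN ρ (ε q) ∧ β p q p' ∈ midN ρ (ε p')) ∧
      ∀ x, β (some x) (some x) (some x) = if vis x then ψ x z • ρ (ε (some x)) n else 0 := by
  have hee : ∀ p, ε p * ε p = ε p := fun p => h.coi.idem p
  have hg : ∀ x, ∃ g : Option X → N, (∀ q, g q ∈ midN ρ (ε (some x)) ∧ g q ∈ midN ρ (ε q)) ∧
      ρ (ε (some x) * z * ε (some x)) n -
        (if vis x then ψ x z • ρ (ε (some x)) n else 0) =
        ∑ q ∈ Finset.univ.erase (some x), g q := by
    intro x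
    by_cases hv : vis x
    · rw [if_pos hv]
      have h1 : ρ ((ε (some x) * z - ψ x z • ε (some x)) * ε (some x)) n ∈
          midN ρ (1 - ε (some x)) :=
        hvis x hv _ (mem_radR.2 (Ideal.mul_mem_right _ _ (h.cen x z))) n
      obtain ⟨g, hg1, hg2⟩ := exists_decN h x h1
      refine ⟨g, hg1, ?_⟩
      rw [← hg2]
      have h2 : ρ (ε (some x)) (ρ ((ε (some x) * z - ψ x z • ε (some x)) * ε (some x)) n) =
          ρ (ε (some x) * ((ε (some x) * z - ψ x z • ε (some x)) * ε (some x))) n := by
        rw [map_mul ρ (ε (some x))]; rfl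
      have h3 : ε (some x) * ((ε (some x) * z - ψ x z • ε (some x)) * ε (some x)) =
          ε (some x) * z * ε (some x) - ψ x z • ε (some x) := by
        rw [sub_mul, mul_sub, smul_mul_assoc, hee, mul_smul_comm, hee, ← mul_assoc, ← mul_assoc,
          hee]
      rw [h2, h3, map_sub, map_smul]
      rfl
    · rw [if_neg hv, sub_zero]
      have h1 : ρ (z * ε (some x)) n ∈ midN ρ (1 - ε (some x)) := by
        rw [hnon x hv]; exact Submodule.mem_top
      obtain ⟨g, hg1, hg2⟩ := exists_decN h x h1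
      refine ⟨g, hg1, ?_⟩
      rw [← hg2, mul_assoc, map_mul ρ (ε (some x))]
      rfl
  choose g hg1 hg2 using hg
  let β : Option X → Option X → Option X → N := fun p q p' =>
    if p = p' then
      (match p with
        | none => if q = none then ρ (ε none * z * ε none) n else 0
        | some x => if q = some x then (if vis x then ψ x z • ρ (ε (some x)) n else 0) else g x q)
    else if q = p then ρ (ε p * z * ε p') n else 0
  have hmid1 : ∀ p p', ρ (ε p * z * ε p') n ∈ midN ρ (ε p) := by
    intro p p'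
    have h1 : ρ (ε p * z * ε p') n = ρ (1 * ε p) (ρ (z * ε p') n) := by
      rw [one_mul, mul_assoc, map_mul]; rfl
    rw [h1]
    exact mem_midN _ _ _
  have hmid2 : ∀ p p', ρ (ε p * z * ε p') n ∈ midN ρ (ε p') := fun p p' => mem_midN _ _ _
  have hmid3 : ∀ p, ρ (ε p) n ∈ midN ρ (ε p) := by
    intro p
    have := mem_midN (ρ := ρ) (1 : R) (ε p) n
    rwa [one_mul] at this
  refine ⟨β, ?_, ?_, ?_⟩
  · -- the sum
    have h1 : ∀ p p', ∑ q, β p q p' = ρ (ε p * z * ε p') n := by
      intro p p'
      by_cases hpp : p = p'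
      · subst hpp
        cases p with
        | none =>
          rw [Finset.sum_eq_single (none : Option X)]
          · simp only [β, if_true]
          · intro q _ hq
            simp only [β, if_true, if_neg hq]
          · intro h'; exact absurd (Finset.mem_univ _) h'
        | some x =>
          rw [← Finset.add_sum_erase Finset.univ _ (Finset.mem_univ (some x))]
          have h2 : ∑ q ∈ Finset.univ.erase (some x), β (some x) q (some x) =
              ∑ q ∈ Finset.univ.erase (some x), g x q := by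
            refine Finset.sum_congr rfl fun q hq => ?_
            have hq' : q ≠ some x := (Finset.mem_erase.1 hq).1
            simp only [β, if_true, if_neg hq']
          rw [h2, ← hg2]
          simp only [β, if_true]
          abel
      · rw [Finset.sum_eq_single p]
        · simp only [β, if_neg hpp, if_true]
        · intro q _ hq
          simp only [β, if_neg hpp, if_neg hq]
        · intro h'; exact absurd (Finset.mem_univ _) h'
    calc ρ z n = ρ ((∑ p, ε p) * z * (∑ p', ε p')) n := by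
          rw [h.coi.complete, one_mul, mul_one]
      _ = ∑ p, ∑ p', ρ (ε p * z * ε p') n := by
          rw [Finset.sum_mul, Finset.sum_mul, map_sum, LinearMap.sum_apply]
          refine Finset.sum_congr rfl fun p _ => ?_
          rw [Finset.mul_sum, map_sum, LinearMap.sum_apply]
      _ = ∑ p, ∑ p', ∑ q, β p q p' := by
          refine Finset.sum_congr rfl fun p _ => Finset.sum_congr rfl fun p' _ => ?_
          rw [h1]
      _ = _ := by
          refine Finset.sum_congr rfl fun p _ => ?_
          rw [Finset.sum_comm]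
  · intro p q p'
    by_cases hpp : p = p'
    · subst hpp
      cases p with
      | none =>
        by_cases hq : q = none
        · subst hq
          simp only [β, if_true]
          exact ⟨hmid1 _ _, hmid1 _ _, hmid1 _ _⟩
        · simp only [β, if_true, if_neg hq]
          exact ⟨Submodule.zero_mem _, Submodule.zero_mem _, Submodule.zero_mem _⟩
      | some x =>
        by_cases hq : q = some x
        · subst hq
          simp only [β, if_true]
          split_ifs
          · exact ⟨Submodule.smul_mem _ _ (hmid3 _), Submodule.smul_mem _ _ (hmid3 _),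
              Submodule.smul_mem _ _ (hmid3 _)⟩
          · exact ⟨Submodule.zero_mem _, Submodule.zero_mem _, Submodule.zero_mem _⟩
        · simp only [β, if_true, if_neg hq]
          exact ⟨(hg1 x q).1, (hg1 x q).2, (hg1 x q).1⟩
    · by_cases hq : q = p
      · subst hq
        simp only [β, if_neg hpp, if_true]
        exact ⟨hmid1 _ _, hmid1 _ _, hmid2 _ _⟩
      · simp only [β, if_neg hpp, if_neg hq]
        exact ⟨Submodule.zero_mem _, Submodule.zero_mem _, Submodule.zero_mem _⟩
  · intro x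
    simp only [β, if_true]

end one

section

variable {ι : Type} [Fintype ι] [DecidableEq ι] {R : ι → Type} [∀ i, Ring (R i)]
  [∀ i, Algebra ℂ (R i)] [∀ i, Module.Finite ℂ (R i)] {N : ι → Type} [∀ i, AddCommGroup (N i)]
  [∀ i, Module ℂ (N i)] {V : Type} [AddCommGroup V] [Module ℂ V]
  [FiniteDimensional ℂ V] {X : ι → Type} [∀ i, Fintype (X i)] [∀ i, DecidableEq (X i)]

/-- zero on the products of the submodules `R e N` -/
theorem midN_zero {φ : MultilinearMap ℂ R (End ℂ V)}
    {ρ : ∀ i, R i →ₐ[ℂ] End ℂ (N i)} {Φ : MultilinearMap ℂ N V} (hφ : Mult φ)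
    (hΦ : ∀ z n, Φ (fun i => ρ i (z i) (n i)) = φ z (Φ n)) (e : ∀ i, R i)
    (he : φ e = 0) (b : ∀ i, N i) (hb : ∀ i, b i ∈ midN (ρ i) (e i)) : Φ b = 0 := by
  refine map_span_zero Φ (fun i => {t | ∃ a n, t = ρ i (a * e i) n}) ?_ Finset.univ b
    (fun i _ => hb i) (fun i hi => absurd (Finset.mem_univ i) hi)
  intro a ha
  choose x n hxn using ha
  have : a = fun i => ρ i (x i * e i) (n i) := funext hxn
  rw [this, hΦ, hφ.mul x e, he, mul_zero]
  rfl

open Classical in
theorem structure_thmN (φ : MultilinearMap ℂ R (End ℂ V)) (hφ : Mult φ)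
    (ρ : ∀ i, R i →ₐ[ℂ] End ℂ (N i)) (Φ : MultilinearMap ℂ N V)
    (hΦ : ∀ z n, Φ (fun i => ρ i (z i) (n i)) = φ z (Φ n))
    (ψ : ∀ i, X i → (R i →ₐ[ℂ] ℂ)) (ε : ∀ i, Option (X i) → R i) (hI : ∀ i, Idem (ψ i) (ε i))
    (hX : ∀ i, ∀ χ : R i →ₐ[ℂ] ℂ, ∃ x, ψ i x = χ)
    (vis : ∀ i, X i → Prop)
    (hvis : ∀ i x, vis i x → ∀ j ∈ radR (R i), ∀ n, ρ i j n ∈ midN (ρ i) (1 - ε i (some x)))
    (hnon : ∀ i x, ¬ vis i x → midN (ρ i) (1 - ε i (some x)) = ⊤) :
    ∃ (K : Finset (Ty X)) (T : Ty X → (∀ i, R i) → (∀ i, N i) → V),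
      K.card ≤ finrank ℂ V ^ 3 ∧ (∀ τ ∈ K, 2 ^ (exc τ).card ≤ finrank ℂ V ^ 2) ∧
      (∀ τ ∈ K, ∀ i, i ∉ exc τ → ∃ x, (τ i).1 = some x ∧ vis i x) ∧
      (∀ τ z z' n, (∀ i ∈ exc τ, z i = z' i) → T τ z n = T τ z' n) ∧
      ∀ (z : ∀ i, R i) (n : ∀ i, N i), Φ (fun i => ρ i (z i) (n i)) =
        ∑ τ ∈ K, (∏ i, if i ∈ exc τ then 1 else cv (ψ i) (τ i).1 (z i)) • T τ z n := by
  set r := finrank ℂ V with hr
  let E : (∀ i, Option (X i)) → End ℂ V := fun P => φ (fun i => ε i (P i))
  have hEd : ∀ P, E P = φ (fun i => ε i (P i)) := fun P => rfl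
  have hεi : ∀ i p, ε i p * ε i p = ε i p := fun i p => (hI i).coi.idem p
  have hEE : ∀ P, E P * E P = E P := by
    intro P
    rw [hEd, ← hφ.mul]
    congr 1
    funext i
    exact hεi i (P i)
  have hEO : ∀ P Q, P ≠ Q → E P * E Q = 0 := by
    intro P Q hPQ
    obtain ⟨i, hi⟩ := Function.ne_iff.1 hPQ
    rw [hEd, hEd, ← hφ.mul]
    exact φ.map_coord_zero i ((hI i).coi.ortho hi)
  set 𝒮 : Finset (∀ i, Option (X i)) := Finset.univ.filter fun P => E P ≠ 0 with h𝒮
  have hm𝒮 : ∀ P, P ∈ 𝒮 ↔ E P ≠ 0 := fun P => by simp [h𝒮]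
  have hc𝒮 : 𝒮.card ≤ r := card_orth E hEE hEO 𝒮 fun P hP => (hm𝒮 P).1 hP
  -- the set of types
  set K : Finset (Ty X) := Finset.univ.filter fun τ => (∀ s : ∀ i, Option (X i),
    (∀ i, s i = (τ i).1 ∨ s i = (τ i).2.1 ∨ s i = (τ i).2.2) → E s ≠ 0) ∧
    ∀ i, i ∉ exc τ → ∃ x, (τ i).1 = some x ∧ vis i x with hK
  have hmK : ∀ τ, τ ∈ K ↔ (∀ s : ∀ i, Option (X i),
    (∀ i, s i = (τ i).1 ∨ s i = (τ i).2.1 ∨ s i = (τ i).2.2) → E s ≠ 0) ∧
    ∀ i, i ∉ exc τ → ∃ x, (τ i).1 = some x ∧ vis i x := fun τ => by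
      simp only [hK, Finset.mem_filter, Finset.mem_univ, true_and]
  have hβ := fun i (z : R i) (n : N i) => exists_typesN (hI i) (vis i) (hvis i) (hnon i) z n
  choose β hβ1 hβ2 hβ3 using hβ
  let T : Ty X → (∀ i, R i) → (∀ i, N i) → V := fun τ z n =>
    Φ (fun i => if i ∈ exc τ then β i (z i) (n i) (τ i).1 (τ i).2.1 (τ i).2.2
      else ρ i (ε i (τ i).1) (n i))
  refine ⟨K, T, ?_, ?_, fun τ hτ => ((hmK τ).1 hτ).2, ?_, ?_⟩
  · -- number of types
    have h1 : K.card ≤ (𝒮 ×ˢ 𝒮 ×ˢ 𝒮).card := by
      refine Finset.card_le_card_of_injOn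
        (fun τ => (fun i => (τ i).1, fun i => (τ i).2.1, fun i => (τ i).2.2)) ?_ ?_
      · intro τ hτ
        have hτ' := ((hmK τ).1 hτ).1
        simp only [Finset.coe_product, Set.mem_prod, Finset.mem_coe, hm𝒮]
        exact ⟨hτ' _ fun i => Or.inl rfl, hτ' _ fun i => Or.inr (Or.inl rfl),
          hτ' _ fun i => Or.inr (Or.inr rfl)⟩
      · intro τ _ τ' _ h
        simp only [Prod.mk.injEq] at h
        funext i
        exact Prod.ext (congrFun h.1 i) (Prod.ext (congrFun h.2.1 i) (congrFun h.2.2 i))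
    rw [Finset.card_product, Finset.card_product] at h1
    calc K.card ≤ 𝒮.card * (𝒮.card * 𝒮.card) := h1
      _ ≤ r * (r * r) := Nat.mul_le_mul hc𝒮 (Nat.mul_le_mul hc𝒮 hc𝒮)
      _ = r ^ 3 := by ring
  · -- few exceptional coordinates
    intro τ hτ
    have hτ' := ((hmK τ).1 hτ).1
    set D : Finset ι := Finset.univ.filter
      (fun i => ¬ ((τ i).1 = (τ i).2.1 ∧ (τ i).2.1 = (τ i).2.2)) with hD
    set N' : Finset ι := Finset.univ.filter (fun i => (τ i).1 = none) with hN
    have hW : (exc τ).card ≤ D.card + N'.card := by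
      have : exc τ ⊆ D ∪ N' := by
        intro i hi
        simp only [exc, Finset.mem_filter, Finset.mem_univ, true_and] at hi
        rw [Finset.mem_union, hD, hN, Finset.mem_filter, Finset.mem_filter]
        rcases hi with h | h
        · exact Or.inl ⟨Finset.mem_univ _, h⟩
        · exact Or.inr ⟨Finset.mem_univ _, h⟩
      exact (Finset.card_le_card this).trans (Finset.card_union_le _ _)
    have hDr : 2 ^ D.card ≤ r := by
      have halt : ∀ i, ∃ q, (q = (τ i).2.1 ∨ q = (τ i).2.2) ∧ (i ∈ D → q ≠ (τ i).1) := by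
        intro i
        by_cases h1 : (τ i).2.1 = (τ i).1
        · refine ⟨(τ i).2.2, Or.inr rfl, fun hi h2 => ?_⟩
          rw [hD, Finset.mem_filter] at hi
          exact hi.2 ⟨h1.symm, h1.trans h2.symm⟩
        · exact ⟨(τ i).2.1, Or.inl rfl, fun _ => h1⟩
      choose q hq1 hq2 using halt
      rw [← Finset.card_powerset]
      refine le_trans ?_ hc𝒮
      refine Finset.card_le_card_of_injOn (fun U i => if i ∈ U then q i else (τ i).1) ?_ ?_
      · intro U _
        rw [Finset.mem_coe, hm𝒮]
        refine hτ' _ fun i => ?_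
        change (if i ∈ U then q i else (τ i).1) = _ ∨ (if i ∈ U then q i else (τ i).1) = _ ∨
          (if i ∈ U then q i else (τ i).1) = _
        by_cases hi : i ∈ U
        · rw [if_pos hi]
          exact Or.inr (hq1 i)
        · rw [if_neg hi]
          exact Or.inl rfl
      · intro U hU U' hU' h
        rw [Finset.mem_coe, Finset.mem_powerset] at hU hU'
        ext i
        have hi := congrFun h i
        simp only at hi
        constructor
        · intro h1
          by_contra h2
          rw [if_pos h1, if_neg h2] at hi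
          exact hq2 i (hU h1) hi
        · intro h1
          by_contra h2
          rw [if_neg h2, if_pos h1] at hi
          exact hq2 i (hU' h1) hi.symm
    have hNr : 2 ^ N'.card ≤ r := by
      set P : ∀ i, Option (X i) := fun i => (τ i).1 with hP
      have hEP : E P ≠ 0 := hτ' P fun i => Or.inl rfl
      have h1 := corner_dim hφ (fun i => ε i (P i)) (fun i => hεi i (P i)) N'
        (by
          intro i hi θ h1 h2
          rw [hN, Finset.mem_filter] at hi
          have hPi : P i = none := hi.2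
          rw [hPi] at h2
          exact no_char (hI i) (hX i) θ h1 h2) N' (Finset.Subset.refl N') (LinearMap.range (E P))
        (by
          intro h
          rw [LinearMap.range_eq_bot] at h
          exact hEP h)
        (by
          rintro _ ⟨v, rfl⟩
          change (E P * E P) v = _
          rw [hEE])
        (by
          rintro i hi a _ ⟨v, rfl⟩
          refine ⟨φ (Function.update (fun i => ε i (P i)) i (ε i (P i) * a * ε i (P i))) v, ?_⟩
          have e1 : E P * φ (Function.update (fun i => ε i (P i)) i (ε i (P i) * a * ε i (P i))) =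
              φ (Function.update (fun i => ε i (P i)) i (ε i (P i) * a * ε i (P i))) * E P := by
            rw [hEd, ← hφ.mul, ← hφ.mul]
            congr 1
            funext k
            by_cases hk : k = i
            · subst hk
              rw [Function.update_self, ← mul_assoc, ← mul_assoc, hεi, mul_assoc _ (ε k (P k)),
                hεi]
            · rw [Function.update_of_ne hk]
          exact LinearMap.congr_fun e1 v)
      exact h1.trans (Submodule.finrank_le _)
    calc 2 ^ (exc τ).card ≤ 2 ^ (D.card + N'.card) := Nat.pow_le_pow_right (by norm_num) hW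
      _ = 2 ^ D.card * 2 ^ N'.card := pow_add _ _ _
      _ ≤ r * r := Nat.mul_le_mul hDr hNr
      _ = r ^ 2 := by ring
  · -- dependence on the exceptional coordinates
    intro τ z z' n h
    change Φ _ = Φ _
    congr 1
    funext i
    by_cases hi : i ∈ exc τ
    · rw [if_pos hi, if_pos hi, h i hi]
    · rw [if_neg hi, if_neg hi]
  · -- the expansion
    intro z n
    have h1 : Φ (fun i => ρ i (z i) (n i)) =
        ∑ τ : Ty X, Φ (fun i => β i (z i) (n i) (τ i).1 (τ i).2.1 (τ i).2.2) := by
      have h2 : (fun i => ρ i (z i) (n i)) =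
          fun i => ∑ t : Option (X i) × Option (X i) × Option (X i),
          β i (z i) (n i) t.1 t.2.1 t.2.2 := by
        funext i
        rw [Fintype.sum_prod_type]
        simp only [Fintype.sum_prod_type]
        exact hβ1 i (z i) (n i)
      conv_lhs => rw [h2]
      exact Φ.map_sum (fun i (t : Option (X i) × Option (X i) × Option (X i)) =>
        β i (z i) (n i) t.1 t.2.1 t.2.2)
    have h3 : ∀ τ, τ ∉ K → Φ (fun i => β i (z i) (n i) (τ i).1 (τ i).2.1 (τ i).2.2) = 0 := by
      intro τ hτ
      rw [hmK, not_and_or] at hτ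
      rcases hτ with hτ | hτ
      · push Not at hτ
        obtain ⟨s, hs1, hs2⟩ := hτ
        refine midN_zero hφ hΦ (fun i => ε i (s i)) hs2 _ fun i => ?_
        obtain ⟨m1, m2, m3⟩ := hβ2 i (z i) (n i) (τ i).1 (τ i).2.1 (τ i).2.2
        rcases hs1 i with h | h | h
        · rw [h]; exact m1
        · rw [h]; exact m2
        · rw [h]; exact m3
      · push Not at hτ
        obtain ⟨i, hi, hx⟩ := hτ
        refine Φ.map_coord_zero i ?_
        simp only [exc, Finset.mem_filter, Finset.mem_univ, true_and, not_or, not_not] at hi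
        obtain ⟨⟨h4, h5⟩, h6⟩ := hi
        obtain ⟨x, hx'⟩ := Option.ne_none_iff_exists'.1 h6
        rw [← h5, ← h4, hx', hβ3, if_neg (hx x hx')]
    rw [h1, ← Finset.sum_subset (Finset.subset_univ K) (fun τ _ hτ => h3 τ hτ)]
    refine Finset.sum_congr rfl fun τ hτ => ?_
    change _ = _ • Φ _
    rw [← Φ.map_smul_univ]
    congr 1
    funext i
    by_cases hi : i ∈ exc τ
    · rw [if_pos hi, if_pos hi, one_smul]
    · rw [if_neg hi, if_neg hi]
      obtain ⟨x, hx, hxv⟩ := ((hmK τ).1 hτ).2 i hi
      simp only [exc, Finset.mem_filter, Finset.mem_univ, true_and, not_or, not_not] at hi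
      obtain ⟨⟨h4, h5⟩, h6⟩ := hi
      rw [← h5, ← h4, hx, hβ3, if_pos hxv]
      rfl

end

end Pool.Agent.H20.Mon
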