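import Mathlib
import Pool.Agent.Lib_helper20.Mon.Rep

set_option autoImplicit false
set_option linter.unusedSectionVars false

/-! The semilattice of partial information on a letter, for a set of multiplicative maps. -/

namespace Pool.Agent.H20.Mon.Act

open Finset

open Classical

variable {M : Type} [Monoid M] [Fintype M] (X : Set (M →* ℂ))

/-- the face generated by a set -/
noncomputable def face (C : Finset M) : Finset M :=
  univ.filter fun m => ∀ χ ∈ X, (∀ c ∈ C, χ c = 1) → χ m = 1

/-- the closure: the face, except for sets with at most one element -/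
noncomputable def cl (C : Finset M) : Finset M := if C.card ≤ 1 then C else face X C

variable {X}

theorem mem_face {C : Finset M} {m : M} :
    m ∈ face X C ↔ ∀ χ ∈ X, (∀ c ∈ C, χ c = 1) → χ m = 1 := by
  simp [face]

theorem sub_face (C : Finset M) : C ⊆ face X C := fun m hm => mem_face.2 fun _ _ h => h m hm

theorem face_mono {C D : Finset M} (h : C ⊆ D) : face X C ⊆ face X D := fun _ hm =>
  mem_face.2 fun χ hX hχ => mem_face.1 hm χ hX fun c hc => hχ c (h hc)

theorem face_idem (C : Finset M) : face X (face X C) = face X C := by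
  refine Subset.antisymm (fun m hm => mem_face.2 fun χ hX hχ => ?_) (sub_face _)
  exact mem_face.1 hm χ hX fun c hc => mem_face.1 hc χ hX hχ

theorem sub_cl (C : Finset M) : C ⊆ cl X C := by
  unfold cl
  split_ifs
  · exact Subset.refl C
  · exact sub_face C

theorem cl_mono {C D : Finset M} (h : C ⊆ D) : cl X C ⊆ cl X D := by
  unfold cl
  split_ifs with h1 h2 h2
  · exact h
  · exact h.trans (sub_face D)
  · exact absurd ((card_le_card h).trans h2) h1
  · exact face_mono h

theorem cl_idem (C : Finset M) : cl X (cl X C) = cl X C := by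
  by_cases h : C.card ≤ 1
  · have : cl X C = C := by unfold cl; rw [if_pos h]
    rw [this, this]
  · have h1 : cl X C = face X C := by unfold cl; rw [if_neg h]
    have h2 : ¬ (face X C).card ≤ 1 := fun h3 => h ((card_le_card (sub_face C)).trans h3)
    rw [h1]
    unfold cl
    rw [if_neg h2, face_idem]

theorem char_cl {χ : M →* ℂ} (hX : χ ∈ X) {C : Finset M} (h : ∀ c ∈ C, χ c = 1) :
    ∀ c ∈ cl X C, χ c = 1 := by
  unfold cl
  split_ifs
  · exact h
  · intro c hc
    exact mem_face.1 hc χ hX h

variable (X) in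
/-- closed sets -/
def Inf : Type := {C : Finset M // cl X C = C}

noncomputable instance : Fintype (Inf X) := inferInstanceAs (Fintype {C : Finset M // cl X C = C})

noncomputable instance : SemilatticeInf (Inf X) where
  le C D := D.1 ⊆ C.1
  le_refl C := Subset.refl C.1
  le_trans _ _ _ h1 h2 := Subset.trans h2 h1
  le_antisymm _ _ h1 h2 := Subtype.ext (Subset.antisymm h2 h1)
  inf C D := ⟨cl X (C.1 ∪ D.1), cl_idem _⟩
  inf_le_left C D := subset_union_left.trans (sub_cl (C.1 ∪ D.1))
  inf_le_right C D := subset_union_right.trans (sub_cl (C.1 ∪ D.1))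
  le_inf C D E h1 h2 := by
    have h3 : D.1 ∪ E.1 ⊆ C.1 := union_subset h1 h2
    have h4 := cl_mono (X := X) h3
    rw [C.2] at h4
    exact h4

theorem inf_val (C D : Inf X) : (C ⊓ D).1 = cl X (C.1 ∪ D.1) := rfl

variable (X) in
/-- a letter -/
noncomputable def let1 (m : M) : Inf X := ⟨{m}, by unfold cl; rw [if_pos (by simp)]⟩

variable (X) in
/-- no letter -/
noncomputable def nol : Inf X := ⟨∅, by unfold cl; rw [if_pos (by simp)]⟩

theorem let1_inf (m : M) : let1 X m ⊓ nol X = let1 X m := by
  apply Subtype.ext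
  rw [inf_val]
  change cl X ({m} ∪ ∅) = {m}
  rw [union_empty]
  exact (let1 X m).2

/-- a representative: the product of all elements -/
noncomputable def can (C : Inf X) : M := C.1.toList.prod

theorem can_let1 (m : M) : can (let1 X m) = m := by
  unfold can let1
  simp

theorem char_can (χ : M →* ℂ) (C : Inf X) : χ (can C) = ∏ m ∈ C.1, χ m := by
  unfold can
  rw [map_list_prod, Finset.prod_map_toList]

theorem char_can_inf (h : ∀ χ ∈ X, ∀ m, χ m = 0 ∨ χ m = 1) {χ : M →* ℂ} (hX : χ ∈ X)
    (C D : Inf X) :
    χ (can (C ⊓ D)) = χ (can C) * χ (can D) := by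
  rw [char_can, char_can, char_can, inf_val]
  by_cases h1 : ∀ c ∈ C.1 ∪ D.1, χ c = 1
  · rw [Finset.prod_eq_one (char_cl hX h1),
      Finset.prod_eq_one (fun c hc => h1 c (mem_union_left _ hc)),
      Finset.prod_eq_one (fun c hc => h1 c (mem_union_right _ hc)), mul_one]
  · push Not at h1
    obtain ⟨c, hc, hc1⟩ := h1
    have hc0 : χ c = 0 := (h χ hX c).resolve_right hc1
    rw [Finset.prod_eq_zero (sub_cl _ hc) hc0]
    rcases mem_union.1 hc with h2 | h2
    · rw [Finset.prod_eq_zero h2 hc0, zero_mul]
    · rw [Finset.prod_eq_zero h2 hc0, mul_zero]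

theorem char_one_iff (h : ∀ χ ∈ X, ∀ m, χ m = 0 ∨ χ m = 1) {χ : M →* ℂ} (hX : χ ∈ X)
    (C : Inf X) :
    χ (can C) = 1 ↔ ∀ c ∈ C.1, χ c = 1 := by
  rw [char_can]
  constructor
  · intro h1 c hc
    refine (h χ hX c).resolve_left fun h0 => ?_
    rw [Finset.prod_eq_zero hc h0] at h1
    exact zero_ne_one h1
  · exact fun h1 => Finset.prod_eq_one h1

theorem card_Inf (h : ∀ χ ∈ X, ∀ m, χ m = 0 ∨ χ m = 1) :
    Fintype.card (Inf X) ≤ 4 * Fintype.card M := by
  have h1 : ∀ C : Inf X, ¬ C.1.card ≤ 1 → C.1 = face X {can C} := by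
    intro C hC
    have h2 : C.1 = face X C.1 := by
      have := C.2
      unfold cl at this
      rw [if_neg hC] at this
      exact this.symm
    rw [h2]
    ext m
    rw [mem_face, mem_face]
    refine forall_congr' fun χ => forall_congr' fun hX => ?_
    rw [← char_one_iff h hX C]
    simp
  let f : Inf X → Option M ⊕ M := fun C => if C.1.card ≤ 1 then Sum.inl (C.1.toList.head?)
    else Sum.inr (can C)
  have hf : Function.Injective f := by
    intro C D hCD
    simp only [f] at hCD
    split_ifs at hCD with h2 h3 h3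
    · have h4 : C.1.toList.head? = D.1.toList.head? := Sum.inl_injective hCD
      apply Subtype.ext
      rcases Nat.le_one_iff_eq_zero_or_eq_one.1 h2 with h5 | h5 <;>
        rcases Nat.le_one_iff_eq_zero_or_eq_one.1 h3 with h6 | h6
      · rw [card_eq_zero.1 h5, card_eq_zero.1 h6]
      · obtain ⟨b, hb⟩ := card_eq_one.1 h6
        rw [card_eq_zero.1 h5, hb] at h4
        simp at h4
      · obtain ⟨a, ha⟩ := card_eq_one.1 h5
        rw [card_eq_zero.1 h6, ha] at h4
        simp at h4
      · obtain ⟨a, ha⟩ := card_eq_one.1 h5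
        obtain ⟨b, hb⟩ := card_eq_one.1 h6
        rw [ha, hb] at h4
        simp at h4
        rw [ha, hb, h4]
    · have h4 : can C = can D := Sum.inr_injective hCD
      apply Subtype.ext
      rw [h1 C h2, h1 D h3, h4]
  have h2 := Fintype.card_le_of_injective f hf
  rw [Fintype.card_sum, Fintype.card_option] at h2
  have h3 : 1 ≤ Fintype.card M := Fintype.card_pos_iff.2 ⟨1⟩
  omega

end Pool.Agent.H20.Mon.Act
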