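import Mathlib
import Pool.Agent.Lib_helper20.Mon.ActOne
import Pool.Agent.Lib_helper20.Mon.ModStruct
import Pool.Agent.Lib_helper20.Mon.Semi2
import Pool.Agent.Lib_helper20.Mon.Main

set_option autoImplicit false
set_option linter.unusedSectionVars false

/-! The log-rank conjecture for finite monoids acting coordinatewise, the general case. -/

namespace Pool.Agent.H20.Mon.Act

open Module Pool.Agent.Lib_helper10.LogRank

section act

variable {ι : Type} [Fintype ι] [DecidableEq ι] {M S : ι → Type} [∀ i, Monoid (M i)]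
  [∀ i, Fintype (M i)] [∀ i, Fintype (S i)] [∀ i, MulAction (M i) (S i)]

/-- the column of a point -/
noncomputable def colV (M : ι → Type) [∀ i, Monoid (M i)] [∀ i, MulAction (M i) (S i)]
    (h : (∀ i, S i) → Bool) (s : ∀ i, S i) : VV M h :=
  ⟨colC h s, Submodule.subset_span ⟨s, rfl⟩⟩

/-- the columns as a multilinear map -/
noncomputable def Ph (M : ι → Type) [∀ i, Monoid (M i)] [∀ i, MulAction (M i) (S i)]
    (h : (∀ i, S i) → Bool) : MultilinearMap ℂ (fun i => S i →₀ ℂ) (VV M h) :=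
  ∑ s : ∀ i, S i, ((MultilinearMap.mkPiAlgebra ℂ ι ℂ).compLinearMap
    (fun i => (Finsupp.lapply (s i) : (S i →₀ ℂ) →ₗ[ℂ] ℂ))).smulRight (colV M h s)

theorem Ph_single (h : (∀ i, S i) → Bool) (s : ∀ i, S i) :
    Ph M h (fun i => Finsupp.single (s i) 1) = colV M h s := by
  classical
  unfold Ph
  rw [sum_apply, Finset.sum_eq_single s]
  · rw [MultilinearMap.smulRight_apply, MultilinearMap.compLinearMap_apply,
      MultilinearMap.mkPiAlgebra_apply, Finset.prod_eq_one, one_smul]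
    intro i _
    rw [Finsupp.lapply_apply, Finsupp.single_eq_same]
  · intro s' _ hs
    obtain ⟨i, hi⟩ := Function.ne_iff.1 hs
    rw [MultilinearMap.smulRight_apply, MultilinearMap.compLinearMap_apply,
      MultilinearMap.mkPiAlgebra_apply, Finset.prod_eq_zero (Finset.mem_univ i), zero_smul]
    rw [Finsupp.lapply_apply, Finsupp.single_eq_of_ne hi]
  · intro h; exact absurd (Finset.mem_univ _) h

theorem rho_colV (h : (∀ i, S i) → Bool) (z : ∀ i, M i) (s : ∀ i, S i) :
    rho h z (colV M h s) = colV M h (fun i => z i • s i) :=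
  Subtype.ext (tr_colC h z s)

theorem Ph_equiv (h : (∀ i, S i) → Bool) (z : ∀ i, MonoidAlgebra ℂ (M i)) (n : ∀ i, S i →₀ ℂ) :
    Ph M h (fun i => rhoS (M i) (S i) (z i) (n i)) = mext (rho h) z (Ph M h n) := by
  let f₁ : ∀ _ : ∀ i, S i →₀ ℂ, MultilinearMap ℂ (fun i => MonoidAlgebra ℂ (M i)) (VV M h) :=
    fun n => (Ph M h).compLinearMap (fun i => (LinearMap.flip (rhoS (M i) (S i)).toLinearMap) (n i))
  let f₂ : ∀ _ : ∀ i, S i →₀ ℂ, MultilinearMap ℂ (fun i => MonoidAlgebra ℂ (M i)) (VV M h) :=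
    fun n => (LinearMap.applyₗ (Ph M h n)).compMultilinearMap (mext (rho h))
  have hf : f₁ n = f₂ n := by
    refine Module.Basis.ext_multilinear (fun i => MonoidAlgebra.basis (M i) ℂ) fun x => ?_
    let g₁ : MultilinearMap ℂ (fun i => S i →₀ ℂ) (VV M h) :=
      (Ph M h).compLinearMap (fun i => rhoS (M i) (S i) (MonoidAlgebra.single (x i) 1))
    let g₂ : MultilinearMap ℂ (fun i => S i →₀ ℂ) (VV M h) :=
      (rho h x).compMultilinearMap (Ph M h)
    have hg : g₁ = g₂ := by
      refine Module.Basis.ext_multilinear (fun i => Finsupp.basisSingleOne) fun s => ?_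
      simp only [Finsupp.coe_basisSingleOne]
      change Ph M h (fun i => rhoS (M i) (S i) (MonoidAlgebra.single (x i) 1)
        (Finsupp.single (s i) 1)) = rho h x (Ph M h (fun i => Finsupp.single (s i) 1))
      rw [Ph_single, rho_colV, ← Ph_single]
      congr 1
      funext i
      exact rhoS_single _ _ _
    have h1 : g₁ n = g₂ n := by rw [hg]
    change Ph M h (fun i => rhoS (M i) (S i) (MonoidAlgebra.single (x i) 1) (n i)) =
      mext (rho h) (fun i => MonoidAlgebra.single (x i) 1) (Ph M h n)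
    rw [mext_single]
    exact h1
  have h1 : f₁ n z = f₂ n z := by rw [hf]
  exact h1

/-- the visible maps of a coordinate -/
def Xv (M S : ι → Type) [∀ i, Monoid (M i)] [∀ i, MulAction (M i) (S i)] (i : ι) :
    Set (M i →* ℂ) := {χ | vis (M i) (S i) χ}

/-- letters as elements of the information semilattice -/
noncomputable def canX (u : ∀ i, Inf (Xv M S i)) : ∀ i, M i := fun i => can (u i)

theorem big_rank (hC : ∀ i, CIdem (M i) (S i)) (κ : ℕ) (hκ : ∀ i, Fintype.card (M i) ≤ 2 ^ κ)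
    (h : (∀ i, S i) → Bool) :
    realRank (fun (u : ∀ i, Inf (Xv M S i)) (p : (∀ i, S i) × (∀ i, Inf (Xv M S i))) =>
      Fn h (canX (u ⊓ p.2)) p.1) ≤
      realRank (fun (x : ∀ i, M i) (s : ∀ i, S i) => Fn h x s) ^ (2 * κ + 7) := by
  classical
  set r := realRank (fun (x : ∀ i, M i) (s : ∀ i, S i) => Fn h x s) with hr
  have hV : finrank ℂ (VV M h) ≤ r := finrank_VV h
  have h01 : ∀ i, ∀ χ ∈ Xv M S i, ∀ m, χ m = 0 ∨ χ m = 1 := fun i χ hχ m => vis_01 (hC i) hχ m
  have hψi : ∀ i, Function.Injective (ps (M := M i)) := fun i =>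
    (MonoidAlgebra.lift ℂ ℂ (M i)).injective
  choose ε hε using fun i => exists_idem (ps (M := M i)) (hψi i)
  obtain ⟨K, T, hK1, hK2, hKv, hK3, hK4⟩ := structure_thmN (X := fun i => (M i →* ℂ))
    (mext (rho h)) (mext_mult (rho h)) (fun i => rhoS (M i) (S i)) (Ph M h) (Ph_equiv h)
    (fun i => ps (M := M i)) ε hε
    (fun i χ => (MonoidAlgebra.lift ℂ ℂ (M i)).surjective χ)
    (fun i => vis (M i) (S i)) (fun i χ hv => one_hvis (hε i) (hC i) χ hv)
    (fun i χ hv => one_hnon (hε i) χ hv)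
  let cu : Ty (fun i => (M i →* ℂ)) → ∀ i, Inf (Xv M S i) → ℂ := fun τ i w =>
    if i ∈ exc τ then 1 else cv (ps (M := M i)) (τ i).1 (MonoidAlgebra.single (can w) 1)
  have hcu : ∀ τ ∈ K, ∀ i (w w' : Inf (Xv M S i)), cu τ i (w ⊓ w') = cu τ i w * cu τ i w' := by
    intro τ hτ i w w'
    simp only [cu]
    split_ifs with hi
    · rw [mul_one]
    · obtain ⟨χ, hχ, hvχ⟩ := hKv τ hτ i hi
      have e1 : ∀ w : Inf (Xv M S i),
          cv (ps (M := M i)) (some χ) (MonoidAlgebra.single (can w) 1) = χ (can w) := by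
        intro w
        change ps χ (MonoidAlgebra.single (can w) 1) = _
        rw [ps_single]
      rw [hχ, e1, e1, e1]
      exact char_can_inf (h01 i) hvχ w w'
  let J : Type := Σ τ : K, (∀ i : exc τ.1, Inf (Xv M S i))
  let b : J → (∀ i, Inf (Xv M S i)) → ℂ := fun j u =>
    (∏ i, cu j.1.1 i (u i)) * (if ∀ i : exc j.1.1, u i = j.2 i then 1 else 0)
  have hcol : ∀ p : (∀ i, S i) × (∀ i, Inf (Xv M S i)),
      (fun u : ∀ i, Inf (Xv M S i) =>
        (((if Fn h (canX (u ⊓ p.2)) p.1 = true then (1 : ℝ) else 0) : ℝ) : ℂ)) ∈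
        Submodule.span ℂ (Set.range b) := by
    rintro ⟨s, v⟩
    let G : Ty (fun i => (M i →* ℂ)) → (∀ i, Inf (Xv M S i)) → ℂ := fun τ u =>
      (T τ (fun i => MonoidAlgebra.single (canX (u ⊓ v) i) 1)
        (fun i => Finsupp.single (s i) 1)).1 1
    have hG : ∀ τ u u', (∀ i ∈ exc τ, u i = u' i) → G τ u = G τ u' := by
      intro τ u u' huu
      simp only [G]
      rw [hK3 τ _ _ _ (fun i hi => ?_)]
      change MonoidAlgebra.single (can (u i ⊓ v i)) 1 = MonoidAlgebra.single (can (u' i ⊓ v i)) 1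
      rw [huu i hi]
    have hval : ∀ u : ∀ i, Inf (Xv M S i),
        (((if Fn h (canX (u ⊓ v)) s = true then (1 : ℝ) else 0) : ℝ) : ℂ) =
        ∑ τ ∈ K, ((∏ i, cu τ i (v i)) * ∏ i, cu τ i (u i)) * G τ u := by
      intro u
      have h1 : (((if Fn h (canX (u ⊓ v)) s = true then (1 : ℝ) else 0) : ℝ) : ℂ) =
          (colV M h (fun i => canX (u ⊓ v) i • s i)).1 1 := by
        change _ = colC (M := M) h (fun i => canX (u ⊓ v) i • s i) 1
        unfold colC Fn
        simp only [Pi.one_apply, one_smul]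
      have h2 : colV M h (fun i => canX (u ⊓ v) i • s i) =
          Ph M h (fun i => rhoS (M i) (S i) (MonoidAlgebra.single (canX (u ⊓ v) i) 1)
            (Finsupp.single (s i) 1)) := by
        rw [← Ph_single]
        congr 1
        funext i
        exact (rhoS_single _ _ _).symm
      rw [h1, h2, hK4, Submodule.coe_sum, Finset.sum_apply]
      refine Finset.sum_congr rfl fun τ hτ => ?_
      rw [Submodule.coe_smul, Pi.smul_apply, smul_eq_mul]
      congr 1
      rw [← Finset.prod_mul_distrib]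
      refine Finset.prod_congr rfl fun i _ => ?_
      rw [mul_comm, ← hcu τ hτ]
      rfl
    have hfun : (fun u : ∀ i, Inf (Xv M S i) =>
        (((if Fn h (canX (u ⊓ v)) s = true then (1 : ℝ) else 0) : ℝ) : ℂ)) =
        ∑ j : J, ((∏ i, cu j.1.1 i (v i)) *
          G j.1.1 (fun i => if hi : i ∈ exc j.1.1 then j.2 ⟨i, hi⟩ else nol _)) • b j := by
      funext u
      rw [hval u, Finset.sum_apply, Fintype.sum_sigma, ← Finset.sum_coe_sort K]
      refine Finset.sum_congr rfl fun τ _ => ?_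
      rw [Finset.sum_eq_single (fun i : exc τ.1 => u i)]
      · simp only [b, Pi.smul_apply, smul_eq_mul]
        have e1 : G τ.1 (fun i => if hi : i ∈ exc τ.1 then u i else nol _) = G τ.1 u := by
          refine hG _ _ _ fun i hi => ?_
          rw [dif_pos hi]
        rw [e1]
        simp only [implies_true, if_true]
        ring
      · intro w _ hw
        simp only [b, Pi.smul_apply, smul_eq_mul]
        rw [if_neg, mul_zero, mul_zero]
        intro h1
        exact hw (funext fun i => (h1 i).symm)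
      · intro h1; exact absurd (Finset.mem_univ _) h1
    change (fun u : ∀ i, Inf (Xv M S i) =>
        (((if Fn h (canX (u ⊓ v)) s = true then (1 : ℝ) else 0) : ℝ) : ℂ)) ∈ _
    rw [hfun]
    exact Submodule.sum_mem _ fun j _ => Submodule.smul_mem _ _ (Submodule.subset_span ⟨j, rfl⟩)
  have h1 := finrank_real_le
    (fun (p : (∀ i, S i) × (∀ i, Inf (Xv M S i))) (u : ∀ i, Inf (Xv M S i)) =>
      if Fn h (canX (u ⊓ p.2)) p.1 = true then (1 : ℝ) else 0)
  have h2 : realRank (fun (u : ∀ i, Inf (Xv M S i)) (p : (∀ i, S i) × (∀ i, Inf (Xv M S i))) =>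
      Fn h (canX (u ⊓ p.2)) p.1) ≤ Fintype.card J := by
    unfold realRank
    rw [Matrix.rank_eq_finrank_span_cols]
    refine le_trans h1 (le_trans (Submodule.finrank_mono (Submodule.span_le.2 ?_))
      (finrank_range_le_card b))
    rintro _ ⟨p, rfl⟩
    exact hcol p
  refine h2.trans ?_
  have hpow : ∀ a b : ℕ, a ≤ b → ∀ n, a ^ n ≤ b ^ n := fun a b hab n => Nat.pow_le_pow_left hab n
  have hJ : Fintype.card J = ∑ τ : K, ∏ i : exc τ.1, Fintype.card (Inf (Xv M S i)) := by
    simp only [J, Fintype.card_sigma, Fintype.card_pi]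
  have hprod : ∀ τ : K, ∏ i : exc τ.1, Fintype.card (Inf (Xv M S i)) ≤ r ^ (2 * κ + 4) := by
    intro τ
    calc ∏ i : exc τ.1, Fintype.card (Inf (Xv M S i)) ≤ ∏ _i : exc τ.1, 2 ^ (κ + 2) := by
          refine Finset.prod_le_prod' fun i _ => (card_Inf (h01 i)).trans ?_
          calc 4 * Fintype.card (M i) ≤ 4 * 2 ^ κ := Nat.mul_le_mul le_rfl (hκ i)
            _ = 2 ^ (κ + 2) := by rw [pow_add]; ring
      _ = (2 ^ (exc τ.1).card) ^ (κ + 2) := by
          rw [Finset.prod_const, Finset.card_univ, Fintype.card_coe, ← pow_mul, ← pow_mul,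
            mul_comm]
      _ ≤ (finrank ℂ (VV M h) ^ 2) ^ (κ + 2) := hpow _ _ (hK2 τ.1 τ.2) _
      _ ≤ (r ^ 2) ^ (κ + 2) := hpow _ _ (hpow _ _ hV _) _
      _ = r ^ (2 * κ + 4) := by
          have e1 : 2 * (κ + 2) = 2 * κ + 4 := by omega
          rw [← pow_mul, e1]
  rw [hJ]
  calc ∑ τ : K, ∏ i : exc τ.1, Fintype.card (Inf (Xv M S i)) ≤ ∑ _τ : K, r ^ (2 * κ + 4) :=
        Finset.sum_le_sum fun τ _ => hprod τ
    _ = K.card * r ^ (2 * κ + 4) := by
        rw [Finset.sum_const, Finset.card_univ, Fintype.card_coe, smul_eq_mul]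
    _ ≤ r ^ 3 * r ^ (2 * κ + 4) := Nat.mul_le_mul (hK1.trans (hpow _ _ hV _)) le_rfl
    _ = r ^ (2 * κ + 7) := by
        have e1 : 3 + (2 * κ + 4) = 2 * κ + 7 := by omega
        rw [← pow_add, e1]

theorem main2 (hC : ∀ i, CIdem (M i) (S i)) (κ : ℕ) (hκ : ∀ i, Fintype.card (M i) ≤ 2 ^ κ)
    (h : (∀ i, S i) → Bool) :
    ∃ π : Protocol (∀ i, M i) (∀ i, S i), (∀ x s, π.eval x s = h (fun i => x i • s i)) ∧
      (π.cost : ℝ) ≤ 10 ^ 6 * ((1 + κ) * (1 + Real.logb 2
        (realRank fun (x : ∀ i, M i) (s : ∀ i, S i) => h (fun i => x i • s i)))) ^ 5 := by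
  classical
  set r := realRank (fun (x : ∀ i, M i) (s : ∀ i, S i) => h (fun i => x i • s i)) with hr
  have hlog : 0 ≤ Real.logb 2 (r : ℝ) := by
    rcases Nat.eq_zero_or_pos r with h0 | h0
    · rw [h0, Nat.cast_zero, Real.logb_zero]
    · exact Real.logb_nonneg (by norm_num) (by exact_mod_cast h0)
  by_cases hne : ∃ s : ∀ i, S i, h s = true
  · obtain ⟨s₀, hs₀⟩ := hne
    have hcan : ∀ x : ∀ i, M i, canX (S := S) (fun i => let1 (Xv M S i) (x i)) = x := fun x => by
      funext i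
      exact can_let1 (x i)
    obtain ⟨π, hπ1, hπ2⟩ := Pool.Agent.Lib_helper10.Meet.logRank_meetSemilattice
      (∀ i, Inf (Xv M S i)) (∀ i, S i) (fun s u => Fn h (canX u) s)
      ⟨s₀, fun i => let1 (Xv M S i) 1, by
        rw [hcan]
        unfold Fn
        have : (fun i => (1 : M i) • s₀ i) = s₀ := by funext i; exact one_smul _ _
        rw [this]
        exact hs₀⟩
    refine ⟨Pool.Agent.Lib_helper10.AndRank.comapProt (fun x i => let1 (Xv M S i) (x i))
      (fun s => (s, fun i => nol (Xv M S i))) π, fun x s => ?_, ?_⟩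
    · rw [Pool.Agent.Lib_helper10.AndRank.comapProt_eval, hπ1]
      have h1 : ((fun i => let1 (Xv M S i) (x i)) ⊓ (fun i => nol (Xv M S i)) :
          ∀ i, Inf (Xv M S i)) = fun i => let1 (Xv M S i) (x i) := by
        funext i
        exact let1_inf (x i)
      change Fn h (canX ((fun i => let1 (Xv M S i) (x i)) ⊓ (fun i => nol (Xv M S i)) :
          ∀ i, Inf (Xv M S i))) s = _
      rw [h1, hcan]
      rfl
    · rw [Pool.Agent.Lib_helper10.AndRank.comapProt_cost]
      refine hπ2.trans ?_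
      have hb := big_rank hC κ hκ h
      set R := realRank (fun (u : ∀ i, Inf (Xv M S i)) (p : (∀ i, S i) × (∀ i, Inf (Xv M S i))) =>
        Fn h (canX (u ⊓ p.2)) p.1) with hR
      have hb' : R ≤ r ^ (2 * κ + 7) := hb
      have hlogR : Real.logb 2 (R : ℝ) ≤ (2 * κ + 7) * Real.logb 2 (r : ℝ) := by
        rcases Nat.eq_zero_or_pos R with h0 | h0
        · rw [h0, Nat.cast_zero, Real.logb_zero]
          positivity
        · have h2 : (R : ℝ) ≤ (r : ℝ) ^ (2 * κ + 7) := by exact_mod_cast hb'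
          have h3 : (0 : ℝ) < R := by exact_mod_cast h0
          calc Real.logb 2 (R : ℝ) ≤ Real.logb 2 ((r : ℝ) ^ (2 * κ + 7)) :=
                Real.logb_le_logb_of_le (by norm_num) h3 h2
            _ = (2 * κ + 7) * Real.logb 2 (r : ℝ) := by
                rw [Real.logb_pow]; push_cast; ring
      have hlogR0 : 0 ≤ Real.logb 2 (R : ℝ) := by
        rcases Nat.eq_zero_or_pos R with h0 | h0
        · rw [h0, Nat.cast_zero, Real.logb_zero]
        · exact Real.logb_nonneg (by norm_num) (by exact_mod_cast h0)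
      have h4 : 1 + Real.logb 2 (R : ℝ) ≤ 7 * ((1 + κ) * (1 + Real.logb 2 (r : ℝ))) := by
        have hk : (0 : ℝ) ≤ κ := Nat.cast_nonneg κ
        nlinarith [mul_nonneg hk hlog]
      have h5 : (1 + Real.logb 2 (R : ℝ)) ^ 5 ≤
          (7 * ((1 + κ) * (1 + Real.logb 2 (r : ℝ)))) ^ 5 :=
        pow_le_pow_left₀ (by linarith) h4 5
      have h6 : (0 : ℝ) ≤ ((1 + κ) * (1 + Real.logb 2 (r : ℝ))) ^ 5 := by positivity
      rw [mul_pow] at h5
      calc 40 * (1 + Real.logb 2 (R : ℝ)) ^ 5 ≤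
            40 * (7 ^ 5 * ((1 + κ) * (1 + Real.logb 2 (r : ℝ))) ^ 5) := by linarith
        _ ≤ 10 ^ 6 * ((1 + κ) * (1 + Real.logb 2 (r : ℝ))) ^ 5 := by nlinarith
  · push Not at hne
    refine ⟨Protocol.leaf false, fun x s => ?_, ?_⟩
    · have := hne (fun i => x i • s i)
      rw [Bool.eq_false_iff.2 this]
      rfl
    · have h6 : (0 : ℝ) ≤ ((1 + κ) * (1 + Real.logb 2 (r : ℝ))) ^ 5 := by positivity
      have h7 : ((Protocol.leaf false : Protocol (∀ i, M i) (∀ i, S i)).cost : ℝ) = 0 := by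
        simp [Protocol.cost]
      rw [h7]
      positivity

end act

end Pool.Agent.H20.Mon.Act
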