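import Mathlib
import Pool.Agent.Lib_helper20.Mon.ActMain
import Pool.Agent.Lib_helper10.MonU.Glue

set_option autoImplicit false

/-! Images of an action on which the monoid acts by commuting maps. -/

namespace Pool.Agent.H20.Mon.Act

open Pool.Agent.Lib_helper10.LogRank

section glue

variable {M T : Type} [Monoid M] [MulAction M T]

/-- `x` and `y` have the same value at `t` -/
def ptCon (hT : ∀ (x y : M) (t : T), x • y • t = y • x • t) (t : T) : Con M where
  r x y := x • t = y • t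
  iseqv := ⟨fun _ => rfl, fun h => h.symm, fun h1 h2 => h1.trans h2⟩
  mul' := by
    intro w x y z h1 h2
    rw [mul_smul, mul_smul, h2, hT w z, h1, hT z x]

/-- the quotient is commutative -/
@[reducible]
def ptComm (hT : ∀ (x y : M) (t : T), x • y • t = y • x • t) (t : T) :
    CommMonoid (ptCon hT t).Quotient :=
  { (inferInstance : Monoid (ptCon hT t).Quotient) with
    mul_comm := by
      intro a b
      induction a, b using Con.induction_on₂ with
      | _ x y =>
        rw [← Con.coe_mul, ← Con.coe_mul, Con.eq]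
        change (x * y) • t = (y * x) • t
        rw [mul_smul, mul_smul, hT] }

theorem ptCon_iff (hT : ∀ (x y : M) (t : T), x • y • t = y • x • t) (t : T) (x y : M) :
    (ptCon hT t).mk' x = (ptCon hT t).mk' y ↔ x • t = y • t := by
  change (x : (ptCon hT t).Quotient) = (y : (ptCon hT t).Quotient) ↔ _
  rw [Con.eq]
  rfl

end glue

variable {M S T : Type} [Monoid M] [Fintype M] [Fintype S] [MulAction M S] [MulAction M T]

/-- pull a visible pair back -/
theorem vis_pull {f : S → T} (hf : CommImage M f) {u u' : M → ℂ} {v w : T → ℂ}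
    (hV : Vis u u' v w) : Vis u u' (fun s => v (f s)) (fun s => w (f s)) := by
  refine ⟨?_, fun x s => ?_, fun x s => ?_⟩
  · obtain ⟨t, ht⟩ := hV.ne
    obtain ⟨s, rfl⟩ := hf.onto t
    exact ⟨s, ht⟩
  · change v (f (x • s)) = _
    rw [hf.map, hV.hv]
  · change w (f (x • s)) = _
    rw [hf.map, hV.hw]

theorem act2 {f : S → T} (hf : CommImage M f) (t₀ : T) (ht₀ : ∀ t : T, ∃ x : M, x • t₀ = t)
    (m : M) (hm : ∀ k : ℕ, m ^ (k + 2) • t₀ ≠ m • t₀) : LogRankAct M S ↔ LogRank := by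
  let I := ptComm hf.comm t₀
  obtain ⟨ψ, m', hψ, hm'⟩ := exists_eps_dep (ptCon hf.comm t₀).mk' m fun k h => by
    refine hm k ?_
    have h1 : (ptCon hf.comm t₀).mk' (m ^ (k + 2)) = (ptCon hf.comm t₀).mk' m := by
      rw [map_pow]; exact h
    rwa [ptCon_iff] at h1
  obtain ⟨v, w, hV⟩ := vis_of_map ht₀ ψ fun x y hxy => hψ x y ((ptCon_iff hf.comm t₀ x y).2 hxy)
  exact univ_iff_act (vis_pull hf hV) m' hm'

theorem act3 {f : S → T} (hf : CommImage M f) (t₀ : T) (ht₀ : ∀ t : T, ∃ x : M, x • t₀ = t)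
    (m : M) (k : ℕ) (h2 : m ^ 2 • t₀ ≠ m • t₀) (hk : m ^ (k + 2) • t₀ = m • t₀) :
    ∃ (p : ℕ) (_ : Fact p.Prime), p ∣ k + 1 ∧
      (LogRankAct M S → LogRankFor (Multiplicative (ZMod p))) := by
  let I := ptComm hf.comm t₀
  have hk' : (ptCon hf.comm t₀).mk' m ^ (k + 2) = (ptCon hf.comm t₀).mk' m := by
    rw [← map_pow, ptCon_iff]
    exact hk
  have h2' : (ptCon hf.comm t₀).mk' m * (ptCon hf.comm t₀).mk' m ≠ (ptCon hf.comm t₀).mk' m := by
    intro h
    refine h2 ?_
    have h1 : (ptCon hf.comm t₀).mk' (m ^ 2) = (ptCon hf.comm t₀).mk' m := by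
      rw [map_pow, pow_two]; exact h
    rwa [ptCon_iff] at h1
  obtain ⟨χ, m', p, hχ, hp, hpk, hroot⟩ := exists_root_dep (ptCon hf.comm t₀).mk' m hk' h2'
  let ψ : M →* DualNumber ℂ :=
    { toFun := fun x => TrivSqZeroExt.inl (χ x)
      map_one' := by rw [map_one]; rfl
      map_mul' := fun x y => by rw [map_mul, TrivSqZeroExt.inl_mul] }
  obtain ⟨v, w, hV⟩ := vis_of_map ht₀ ψ fun x y hxy => by
    change TrivSqZeroExt.inl (χ x) = TrivSqZeroExt.inl (χ y)
    rw [hχ x y ((ptCon_iff hf.comm t₀ x y).2 hxy)]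
  refine ⟨p, ⟨hp⟩, hpk, ?_⟩
  have : Fact p.Prime := ⟨hp⟩
  exact root_imp_act (vis_pull hf hV) m' p (by simpa [ψ] using hroot)

end Pool.Agent.H20.Mon.Act
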